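import Mathlib

set_option autoImplicit false

open Finset

namespace Pool.Agent.Helper901.Sey

variable {V : Type} [Fintype V] [DecidableEq V]

/-- out-neighbours -/
noncomputable def nb (G : V → V → Prop) (u : V) : Finset V := by
  classical exact univ.filter (fun v => G u v)

/-- out-boundary -/
noncomputable def bd (G : V → V → Prop) (A : Finset V) : Finset V := by
  classical exact univ.filter (fun v => v ∉ A ∧ ∃ a ∈ A, G a v)

/-- reversed digraph -/
def rev (G : V → V → Prop) : V → V → Prop := fun a b => G b a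

/-- 2-connectedness: every nonempty set has out- and in-boundary at least min(2, size of complement) -/
structure Two (G : V → V → Prop) : Prop where
  out : ∀ A : Finset V, A.Nonempty → min 2 Aᶜ.card ≤ (bd G A).card
  inn : ∀ A : Finset V, A.Nonempty → min 2 Aᶜ.card ≤ (bd (rev G) A).card

/-- separation of order at most 3 at the vertex u -/
structure Sep (G : V → V → Prop) (u : V) (P Q : Finset V) : Prop where
  hP : u ∈ P
  hQ : u ∈ Q
  inter : ∀ x, x ∈ P → x ∈ Q → x = u
  arc : ∀ p ∈ P, ∀ q ∈ Q, ¬ G p q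
  card : ((P ∪ Q)ᶜ).card ≤ 3

def Good (G : V → V → Prop) (u : V) : Prop := ∃ P Q, Sep G u P Q

theorem mem_nb {G : V → V → Prop} {u v : V} : v ∈ nb G u ↔ G u v := by
  simp [nb]

theorem mem_bd {G : V → V → Prop} {A : Finset V} {v : V} :
    v ∈ bd G A ↔ v ∉ A ∧ ∃ a ∈ A, G a v := by
  simp [bd]

theorem rev_rev (G : V → V → Prop) : rev (rev G) = G := rfl

theorem Two.rev {G : V → V → Prop} (h : Two G) : Two (rev G) := ⟨h.inn, h.out⟩

theorem Sep.rev {G : V → V → Prop} {u : V} {P Q : Finset V} (h : Sep G u P Q) :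
    Sep (rev G) u Q P :=
  ⟨h.hQ, h.hP, fun x hx hy => h.inter x hy hx, fun p hp q hq hG => h.arc q hq p hp hG, by
    rw [union_comm]; exact h.card⟩

theorem Good.rev {G : V → V → Prop} {u : V} (h : Good G u) : Good (rev G) u := by
  obtain ⟨P, Q, h⟩ := h
  exact ⟨Q, P, h.rev⟩

end Pool.Agent.Helper901.Sey
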