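import Pool.Agent.Helper901.Sey.Basic

set_option autoImplicit false
set_option linter.unusedSectionVars false

open Finset

namespace Pool.Agent.Helper901.Sey

variable {V : Type} [Fintype V] [DecidableEq V]

theorem card_two_sub {α : Type} [DecidableEq α] (X Y S T : Finset α)
    (h1 : X ∪ Y ⊆ S ∪ T) (h2 : X ∩ Y ⊆ S ∩ T) : X.card + Y.card ≤ S.card + T.card := by
  rw [← card_union_add_card_inter X Y, ← card_union_add_card_inter S T]
  exact Nat.add_le_add (card_le_card h1) (card_le_card h2)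

theorem submod (G : V → V → Prop) (A B : Finset V) :
    (bd G (A ∩ B)).card + (bd G (A ∪ B)).card ≤ (bd G A).card + (bd G B).card := by
  apply card_two_sub
  · intro v hv
    simp only [mem_union, mem_bd, mem_inter] at hv ⊢
    rcases hv with ⟨h1, a, ha, hG⟩ | ⟨h1, a, ha, hG⟩
    · by_cases hA : v ∈ A
      · exact Or.inr ⟨fun hB => h1 ⟨hA, hB⟩, a, ha.2, hG⟩
      · exact Or.inl ⟨hA, a, ha.1, hG⟩
    · rcases ha with ha | ha
      · exact Or.inl ⟨fun h => h1 (Or.inl h), a, ha, hG⟩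
      · exact Or.inr ⟨fun h => h1 (Or.inr h), a, ha, hG⟩
  · intro v hv
    simp only [mem_union, mem_bd, mem_inter] at hv ⊢
    obtain ⟨⟨_, a, ha, hG⟩, h1, _⟩ := hv
    exact ⟨⟨fun h => h1 (Or.inl h), a, ha.1, hG⟩, ⟨fun h => h1 (Or.inr h), a, ha.2, hG⟩⟩

theorem pair_sub (A1 B1 A2 B2 : Finset V) :
    (((A1 ∩ A2) ∪ (B1 ∪ B2))ᶜ).card + (((A1 ∪ A2) ∪ (B1 ∩ B2))ᶜ).card ≤
      ((A1 ∪ B1)ᶜ).card + ((A2 ∪ B2)ᶜ).card := by
  apply card_two_sub
  · intro v hv
    simp only [mem_union, mem_compl, mem_inter] at hv ⊢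
    tauto
  · intro v hv
    simp only [mem_union, mem_compl, mem_inter] at hv ⊢
    tauto

theorem bd_sub_of_noarc {G : V → V → Prop} {A B : Finset V}
    (h : ∀ a ∈ A, ∀ b ∈ B, ¬ G a b) : bd G A ⊆ (A ∪ B)ᶜ := by
  intro v hv
  rw [mem_bd] at hv
  obtain ⟨h1, a, ha, hG⟩ := hv
  simp only [mem_compl, mem_union, not_or]
  exact ⟨h1, fun hB => h a ha v hB hG⟩

theorem bdrev_sub_of_noarc {G : V → V → Prop} {A B : Finset V}
    (h : ∀ a ∈ A, ∀ b ∈ B, ¬ G a b) : bd (rev G) B ⊆ (A ∪ B)ᶜ := by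
  intro v hv
  rw [mem_bd] at hv
  obtain ⟨h1, a, ha, hG⟩ := hv
  simp only [mem_compl, mem_union, not_or]
  exact ⟨fun hA => h v hA a ha hG, h1⟩

/-- no arcs from A to the complement of its closed out-neighbourhood -/
theorem noarc_far {G : V → V → Prop} {A : Finset V} :
    ∀ a ∈ A, ∀ b ∈ (A ∪ bd G A)ᶜ, ¬ G a b := by
  intro a ha b hb hG
  simp only [mem_compl, mem_union, not_or, mem_bd, not_and, not_exists] at hb
  exact hb.2 hb.1 a ha hG

theorem compl_far {G : V → V → Prop} {A : Finset V} :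
    (A ∪ (A ∪ bd G A)ᶜ)ᶜ = bd G A := by
  ext v
  simp only [mem_compl, mem_union, not_or, mem_bd, not_not]
  constructor
  · rintro ⟨h1, h2⟩
    by_contra h3
    exact h2 ⟨h1, h3⟩
  · rintro ⟨h1, h2⟩
    exact ⟨h1, fun h3 => h3.2 ⟨h1, h2⟩⟩

theorem Sep.union_erase {G : V → V → Prop} {u : V} {P Q : Finset V} (h : Sep G u P Q) :
    P ∪ Q.erase u = P ∪ Q := by
  ext v
  simp only [mem_union, mem_erase]
  constructor
  · rintro (h1 | h1)
    · exact Or.inl h1
    · exact Or.inr h1.2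
  · rintro (h1 | h1)
    · exact Or.inl h1
    · by_cases hv : v = u
      · subst hv; exact Or.inl h.hP
      · exact Or.inr ⟨hv, h1⟩

/-- the basic uncrossing step -/
theorem step {G : V → V → Prop} {u : V} {P Q : Finset V} (h : Sep G u P Q) (X : Finset V)
    (hX : (bd G X).card ≤ 3) (h4 : 4 ≤ (bd G (P ∩ X)).card) :
    (((P ∪ X) ∪ (Q.erase u ∩ (X ∪ bd G X)ᶜ))ᶜ).card ≤ 2 ∧
      ∀ a ∈ P ∪ X, ∀ b ∈ Q.erase u ∩ (X ∪ bd G X)ᶜ, ¬ G a b := by
  constructor
  · have h1 := pair_sub P (Q.erase u) X ((X ∪ bd G X)ᶜ)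
    have h2 : (P ∪ Q.erase u)ᶜ.card ≤ 3 := by rw [h.union_erase]; exact h.card
    have h3 : ((X ∪ (X ∪ bd G X)ᶜ)ᶜ).card ≤ 3 := by rw [compl_far]; exact hX
    have h5 : 4 ≤ (((P ∩ X) ∪ (Q.erase u ∪ (X ∪ bd G X)ᶜ))ᶜ).card := by
      refine le_trans h4 (card_le_card ?_)
      apply bd_sub_of_noarc
      intro a ha b hb hG
      rw [mem_inter] at ha
      rw [mem_union] at hb
      rcases hb with hb | hb
      · exact h.arc a ha.1 b (mem_of_mem_erase hb) hG
      · exact noarc_far a ha.2 b hb hG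
    omega
  · intro a ha b hb hG
    rw [mem_inter] at hb
    rw [mem_union] at ha
    rcases ha with ha | ha
    · exact h.arc a ha b (mem_of_mem_erase hb.1) hG
    · exact noarc_far a ha b hb.2 hG

/-- out-neighbours of a loopless vertex are its out-boundary -/
theorem bd_singleton {G : V → V → Prop} (hl : ∀ v, ¬ G v v) (u : V) : bd G {u} = nb G u := by
  ext v
  simp only [mem_bd, mem_singleton, mem_nb, exists_eq_left]
  constructor
  · rintro ⟨_, h⟩; exact h
  · intro h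
    refine ⟨?_, h⟩
    rintro rfl
    exact hl _ h

/-- erasing a vertex without in-neighbours in X does not enlarge the out-boundary -/
theorem bd_erase_sub {G : V → V → Prop} {X : Finset V} {u : V} (h : ∀ a ∈ X, ¬ G a u) :
    bd G (X.erase u) ⊆ bd G X := by
  intro v hv
  rw [mem_bd] at hv ⊢
  obtain ⟨h1, a, ha, hG⟩ := hv
  refine ⟨fun hX => h1 (mem_erase.2 ⟨?_, hX⟩), a, mem_of_mem_erase ha, hG⟩
  rintro rfl
  exact h a (mem_of_mem_erase ha) hG

theorem types (G : V → V → Prop) (h2 : Two G) (W : Finset V) (hd : (bd G W).card ≤ 2)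
    (u : V) (hu : u ∈ W) (hg : Good G u) :
    ∃ P Q, Sep G u P Q ∧ (P ⊆ W ∨ ((P ∪ W)ᶜ).card ≤ 1) := by
  obtain ⟨P, Q, h⟩ := hg
  have hbP : (bd G P).card ≤ 3 := by
    refine le_trans (card_le_card ?_) h.card
    exact bd_sub_of_noarc h.arc
  by_cases h3 : (bd G (P ∩ W)).card ≤ 3
  · refine ⟨P ∩ W, insert u ((P ∩ W ∪ bd G (P ∩ W))ᶜ), ⟨mem_inter.2 ⟨h.hP, hu⟩,
      mem_insert_self _ _, ?_, ?_, ?_⟩, Or.inl inter_subset_right⟩
    · intro x hx hx2
      rw [mem_insert] at hx2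
      rcases hx2 with hx2 | hx2
      · exact hx2
      · simp only [mem_compl, mem_union, not_or] at hx2
        exact absurd hx hx2.1
    · intro p hp q hq hG
      rw [mem_insert] at hq
      rcases hq with hq | hq
      · subst hq
        exact h.arc p (mem_inter.1 hp).1 _ h.hQ hG
      · exact noarc_far p hp q hq hG
    · refine le_trans (card_le_card ?_) h3
      intro v hv
      by_contra hcon
      simp only [mem_compl, mem_union, mem_insert, not_or] at hv
      exact hv.2.2 ⟨hv.1, hcon⟩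
  · push Not at h3
    have h4 := submod G P W
    have h5 : (bd G (P ∪ W)).card ≤ 1 := by omega
    have h6 := h2.out (P ∪ W) ⟨u, mem_union_right _ hu⟩
    refine ⟨P, Q, h, Or.inr ?_⟩
    omega

end Pool.Agent.Helper901.Sey
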