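import Pool.Agent.Helper901.Sey.SM

set_option autoImplicit false
set_option linter.unusedSectionVars false

open Finset

namespace Pool.Agent.Helper901.Sey

variable {V : Type} [Fintype V] [DecidableEq V]

theorem three_le_compl {G : V → V → Prop} (h2 : Two G) {W : Finset V} (hW : W.Nonempty)
    (hZ : ((W ∪ bd G W)ᶜ).Nonempty) : 3 ≤ (Wᶜ).card := by
  have h1 := h2.out W hW
  have h3 : Wᶜ = bd G W ∪ (W ∪ bd G W)ᶜ := by
    ext v
    simp only [mem_compl, mem_union, not_or]
    constructor
    · intro hv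
      by_cases hb : v ∈ bd G W
      · exact Or.inl hb
      · exact Or.inr ⟨hv, hb⟩
    · rintro (h | h)
      · exact (mem_bd.1 h).1
      · exact h.1
  have h4 : Disjoint (bd G W) ((W ∪ bd G W)ᶜ) := by
    rw [disjoint_left]
    intro v hv hv2
    simp only [mem_compl, mem_union, not_or] at hv2
    exact hv2.2 hv
  have h5 : (Wᶜ).card = (bd G W).card + ((W ∪ bd G W)ᶜ).card := by
    conv_lhs => rw [h3]
    exact card_union_of_disjoint h4
  have h6 : 1 ≤ ((W ∪ bd G W)ᶜ).card := card_pos.2 hZ
  omega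

theorem END (G : V → V → Prop) (hl : ∀ v, ¬ G v v) (h2 : Two G) (W Ψ Φ : Finset V)
    (hΨΦ : Ψ ⊆ Φ) (hWΦ : Disjoint W Φ) (hW : W.Nonempty) (hd : (bd G W).card ≤ 2)
    (hZ : ((W ∪ bd G W)ᶜ).Nonempty)
    (hmin : ∀ Z, Z ⊂ W → Z.Nonempty → 3 ≤ (bd G Z).card ∧ 3 ≤ (bd (rev G) Z).card)
    (hin : ∀ v, v ∉ Ψ → 4 ≤ (nb (rev G) v).card)
    (hout : ∀ v, v ∉ Φ → 4 ≤ (nb G v).card)
    (hA : ∀ u ∈ W, ∃ P Q, Sep G u P Q ∧ (P ⊆ W ∨ (((P ∪ W)ᶜ).card ≤ 1 ∧ Disjoint Q Ψ)))
    (hB : ∀ M y, Disjoint M Ψ → (bd (rev G) M).card ≤ 2 → y ∈ M → y ∉ W → M.erase y ⊆ W →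
      bd (rev G) M ⊆ W → ∀ u ∈ M, u ∉ Φ → ∃ P Q, Sep G u P Q ∧
        (Q ⊆ M ∨ (((Q ∪ M)ᶜ).card ≤ 1 ∧ Disjoint P Φ)))
    (hΦ : 2 ≤ Φ.card ∨ (Ψ = Φ ∧ Φ.Nonempty)) : False := by
  classical
  have hWΨ : Disjoint W Ψ := disjoint_of_subset_right hΨΦ hWΦ
  have hWΨ0 : (W ∩ Ψ).card = 0 := by
    rw [card_eq_zero]; exact disjoint_iff_inter_eq_empty.1 hWΨ
  have hWc := three_le_compl h2 hW hZ
  by_cases hex : ∃ R : Finset V, R.Nonempty ∧ Disjoint R Ψ ∧ (bd (rev G) R).card ≤ 2 ∧
      ((R ∪ bd (rev G) R) \ W).card ≤ 1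
  swap
  · refine SM G hl h2 W Ψ hd (fun Z h1 h3 => (hmin Z h1 h3).1)
      (fun u hu => hout u (disjoint_left.1 hWΦ hu)) (fun u _ hu => hin u hu)
      (fun y _ hy _ => hin y hy) (fun u hu _ => hA u hu) (by omega) ?_ ?_
    · obtain ⟨w, hw⟩ := hW
      exact ⟨w, mem_sdiff.2 ⟨hw, disjoint_left.1 hWΨ hw⟩⟩
    · intro R hR1 hR2 hR3
      by_contra hcon
      apply hex
      obtain ⟨r, hr⟩ := hR1
      exact ⟨R, ⟨r, (mem_inter.1 hr).1⟩, hR2, hR3, by omega⟩
  obtain ⟨M, ⟨hM1, hM2, hM3, hM4⟩, hMm⟩ := exists_min_card _ hex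
  have hMW : (M ∩ W).Nonempty := by
    by_contra hcon
    rw [not_nonempty_iff_eq_empty] at hcon
    have hsub : M ⊆ (M ∪ bd (rev G) M) \ W := by
      intro v hv
      refine mem_sdiff.2 ⟨mem_union_left _ hv, ?_⟩
      intro hw
      have : v ∈ M ∩ W := mem_inter.2 ⟨hv, hw⟩
      rw [hcon] at this
      exact absurd this (notMem_empty _)
    have h1 := card_le_card hsub
    obtain ⟨y, hy⟩ := hM1
    have h3 : M = {y} := by
      ext v
      rw [mem_singleton]
      constructor
      · intro hv
        exact card_le_one.1 (le_trans h1 hM4) v hv y hy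
      · rintro rfl; exact hy
    have h4 := hin y (disjoint_left.1 hM2 hy)
    rw [h3, bd_singleton (G := rev G) (fun v => hl v)] at hM3
    omega
  have hMnW : ¬ M ⊆ W := by
    intro hsub
    by_cases he : M = W
    · have h1 : bd (rev G) M ⊆ (M ∪ bd (rev G) M) \ W := by
        intro v hv
        refine mem_sdiff.2 ⟨mem_union_right _ hv, ?_⟩
        rw [← he]
        exact (mem_bd.1 hv).1
      have h3 := card_le_card h1
      have h4 := h2.inn M hM1
      rw [← he] at hWc
      omega
    · have := (hmin M (hsub.ssubset_of_ne he) hM1).2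
      omega
  obtain ⟨y, hyM, hyW⟩ := not_subset.1 hMnW
  have huniq : ∀ v, v ∈ M ∪ bd (rev G) M → v ∉ W → v = y := by
    intro v hv1 hv2
    exact card_le_one.1 hM4 v (mem_sdiff.2 ⟨hv1, hv2⟩) y
      (mem_sdiff.2 ⟨mem_union_left _ hyM, hyW⟩)
  have hMe : M.erase y ⊆ W := by
    intro v hv
    by_contra hw
    exact (mem_erase.1 hv).1 (huniq v (mem_union_left _ (mem_erase.1 hv).2) hw)
  have hbM : bd (rev G) M ⊆ W := by
    intro v hv
    by_contra hw
    have := huniq v (mem_union_right _ hv) hw
    subst this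
    exact (mem_bd.1 hv).1 hyM
  have hMc : 2 ≤ (Mᶜ).card := by
    have h1 : Wᶜ.erase y ⊆ Mᶜ := by
      intro v hv
      rw [mem_erase, mem_compl] at hv
      rw [mem_compl]
      intro hvM
      exact hv.2 (hMe (mem_erase.2 ⟨hv.1, hvM⟩))
    have h3 := card_le_card h1
    rw [card_erase_of_mem (mem_compl.2 hyW)] at h3
    omega
  have hMcard : M.card + 1 ≤ W.card := by
    have h1 := h2.inn M hM1
    have h3 : M ∪ bd (rev G) M ⊆ insert y W := by
      intro v hv
      rw [mem_insert]
      by_cases hw : v ∈ W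
      · exact Or.inr hw
      · exact Or.inl (huniq v hv hw)
    have h4 := card_le_card h3
    have h5 : Disjoint M (bd (rev G) M) := by
      rw [disjoint_left]
      intro v hv hv2
      exact (mem_bd.1 hv2).1 hv
    rw [card_union_of_disjoint h5] at h4
    have h6 := card_insert_le y W
    omega
  have hMΦ : ∀ v ∈ M, v ∈ Φ → v = y := by
    intro v hv hvΦ
    by_contra hne
    exact disjoint_left.1 hWΦ (hMe (mem_erase.2 ⟨hne, hv⟩)) hvΦ
  have hMΦc : (M ∩ Φ).card ≤ 1 := by
    rw [card_le_one]
    intro a ha b hb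
    rw [hMΦ a (mem_inter.1 ha).1 (mem_inter.1 ha).2,
      hMΦ b (mem_inter.1 hb).1 (mem_inter.1 hb).2]
  refine SM (rev G) (fun v => hl v) h2.rev M Φ hM3 ?_
    (fun u hu => hin u (disjoint_left.1 hM2 hu)) (fun u _ hu => hout u hu)
    (fun y' _ hy' _ => hout y' hy') ?_ hMΦc ?_ ?_
  · intro Z hZss hZne
    by_contra hcon
    have h1 : ((Z ∪ bd (rev G) Z) \ W).card ≤ 1 := by
      refine le_trans (card_le_card ?_) hM4
      intro v hv
      obtain ⟨hv1, hv2⟩ := mem_sdiff.1 hv
      refine mem_sdiff.2 ⟨?_, hv2⟩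
      rcases mem_union.1 hv1 with h | h
      · exact mem_union_left _ (hZss.1 h)
      · obtain ⟨h3, a, ha, hG⟩ := mem_bd.1 h
        by_cases hvM : v ∈ M
        · exact mem_union_left _ hvM
        · exact mem_union_right _ (mem_bd.2 ⟨hvM, a, hZss.1 ha, hG⟩)
    have h3 := hMm Z ⟨hZne, disjoint_of_subset_left hZss.1 hM2, by omega, h1⟩
    have h4 := card_lt_card hZss
    omega
  · intro u hu huΦ
    obtain ⟨P, Q, h, hPQ⟩ := hB M y hM2 hM3 hyM hyW hMe hbM u hu huΦ
    exact ⟨Q, P, h.rev, hPQ⟩
  · obtain ⟨v, hv⟩ := hMW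
    obtain ⟨hvM, hvW⟩ := mem_inter.1 hv
    exact ⟨v, mem_sdiff.2 ⟨hvM, disjoint_left.1 hWΦ hvW⟩⟩
  · intro R hRM hRΦ hRd
    rw [rev_rev] at hRd ⊢
    by_contra hcon
    have hcon1 : ((R ∪ bd G R) \ M).card ≤ (M ∩ Φ).card + 1 := by omega
    have hRne : R.Nonempty := by
      obtain ⟨r, hr⟩ := hRM
      exact ⟨r, (mem_inter.1 hr).1⟩
    -- claim a
    have hRW : (R ∩ W).Nonempty := by
      by_contra hRW
      rw [not_nonempty_iff_eq_empty] at hRW
      have hRnW : ∀ v ∈ R, v ∉ W := by
        intro v hv hw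
        have : v ∈ R ∩ W := mem_inter.2 ⟨hv, hw⟩
        rw [hRW] at this
        exact absurd this (notMem_empty _)
      obtain ⟨r, hr⟩ := hRM
      obtain ⟨hrR, hrM⟩ := mem_inter.1 hr
      have hry : r = y := huniq r (mem_union_left _ hrM) (hRnW r hrR)
      subst hry
      have hyΦ : r ∉ Φ := disjoint_left.1 hRΦ hrR
      have h0 : (M ∩ Φ).card = 0 := by
        rw [card_eq_zero]
        rw [eq_empty_iff_forall_notMem]
        intro v hv
        have := hMΦ v (mem_inter.1 hv).1 (mem_inter.1 hv).2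
        subst this
        exact hyΦ (mem_inter.1 hv).2
      have h1 : R.erase r ⊆ (R ∪ bd G R) \ M := by
        intro v hv
        obtain ⟨hv1, hv2⟩ := mem_erase.1 hv
        refine mem_sdiff.2 ⟨mem_union_left _ hv2, ?_⟩
        intro hvM
        exact hRnW v hv2 (hMe (mem_erase.2 ⟨hv1, hvM⟩))
      have h3 := card_le_card h1
      have h4 : nb G r ⊆ bd G R ∪ R.erase r := by
        intro v hv
        have hG : G r v := mem_nb.1 hv
        by_cases hvR : v ∈ R
        · refine mem_union_right _ (mem_erase.2 ⟨?_, hvR⟩)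
          rintro rfl
          exact hl _ hG
        · exact mem_union_left _ (mem_bd.2 ⟨hvR, r, hrR, hG⟩)
      have h5 := card_le_card h4
      have h6 := card_union_le (bd G R) (R.erase r)
      have h7 := hout r hyΦ
      omega
    -- claim b
    have hRWc : 2 ≤ ((R ∪ W)ᶜ).card := by
      rcases hΦ with hΦ | ⟨hΨ, φ, hφ⟩
      · refine le_trans hΦ (card_le_card ?_)
        intro v hv
        rw [mem_compl, mem_union, not_or]
        exact ⟨fun h => disjoint_left.1 hRΦ h hv, fun h => disjoint_left.1 hWΦ h hv⟩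
      · by_contra hlt
        subst hΨ
        have hφM : φ ∉ M := fun h => disjoint_left.1 hM2 h hφ
        have hφR : φ ∉ R := fun h => disjoint_left.1 hRΦ h hφ
        have hφW : φ ∉ W := fun h => disjoint_left.1 hWΦ h hφ
        have h0 : (M ∩ Ψ).card = 0 := by
          rw [card_eq_zero]; exact disjoint_iff_inter_eq_empty.1 hM2
        have hφc : φ ∈ (R ∪ W)ᶜ := by
          rw [mem_compl, mem_union, not_or]; exact ⟨hφR, hφW⟩
        have hall : ∀ v, v ∉ R → v ∉ W → v = φ := by
          intro v h1 h3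
          exact card_le_one.1 (by omega : ((R ∪ W)ᶜ).card ≤ 1) v
            (by rw [mem_compl, mem_union, not_or]; exact ⟨h1, h3⟩) φ hφc
        have hRsub : R \ W ⊆ insert y ((R ∪ bd G R) \ M) := by
          intro v hv
          obtain ⟨hv1, hv2⟩ := mem_sdiff.1 hv
          rw [mem_insert]
          by_cases hvM : v ∈ M
          · exact Or.inl (huniq v (mem_union_left _ hvM) hv2)
          · exact Or.inr (mem_sdiff.2 ⟨mem_union_left _ hv1, hvM⟩)
        have hWcs : (Wᶜ).card = ((R ∪ W)ᶜ).card + (R \ W).card := by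
          have := card_compl_union W R
          rw [union_comm W R] at this
          exact this
        have hc1 := card_le_card hRsub
        have hc2 := card_insert_le y ((R ∪ bd G R) \ M)
        have hR2 : (R \ W).card = 2 := by omega
        have hone : ((R ∪ bd G R) \ M).card = 1 := by omega
        -- the unique outside vertex lies in R
        have hbR : bd G R ⊆ M := by
          intro v hv
          by_contra hvM
          have h7 : ∃ r ∈ R \ W, r ≠ y := by
            by_contra hno
            push Not at hno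
            have : (R \ W).card ≤ 1 := by
              rw [card_le_one]
              intro a ha b hb
              rw [hno a ha, hno b hb]
            omega
          obtain ⟨r, hr, hry⟩ := h7
          obtain ⟨hrR, hrW⟩ := mem_sdiff.1 hr
          have hrM : r ∉ M := fun h => hry (huniq r (mem_union_left _ h) hrW)
          have h8 := card_le_one.1 (by omega : ((R ∪ bd G R) \ M).card ≤ 1) v
            (mem_sdiff.2 ⟨mem_union_right _ hv, hvM⟩) r
            (mem_sdiff.2 ⟨mem_union_left _ hrR, hrM⟩)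
          subst h8
          exact (mem_bd.1 hv).1 hrR
        obtain ⟨z, hz⟩ := hZ
        rw [mem_compl, mem_union, not_or] at hz
        obtain ⟨hzW, hzb⟩ := hz
        have hzin : ∀ a, G a z → a ∉ W := by
          intro a hG ha
          exact hzb (mem_bd.2 ⟨hzW, a, ha, hG⟩)
        by_cases hzφ : z = φ
        · subst hzφ
          have h7 := h2.inn {z} ⟨z, mem_singleton_self _⟩
          rw [bd_singleton (G := rev G) (fun v => hl v)] at h7
          have h8 : 1 ≤ (({z} : Finset V)ᶜ).card := by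
            refine card_pos.2 ⟨y, ?_⟩
            rw [mem_compl, mem_singleton]
            rintro rfl
            exact hφM hyM
          have h9 : (nb (rev G) z).Nonempty := by
            rw [← card_pos]; omega
          obtain ⟨a, ha⟩ := h9
          rw [mem_nb] at ha
          have haG : G a z := ha
          have haz : a ≠ z := by rintro rfl; exact hl _ haG
          have haR : a ∈ R := by
            by_contra haR
            exact haz (hall a haR (hzin a haG))
          exact hφM (hbR (mem_bd.2 ⟨hφR, a, haR, haG⟩))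
        · have hzR : z ∈ R := by
            by_contra hzR
            exact hzφ (hall z hzR hzW)
          have hzΦ : z ∉ Ψ := disjoint_left.1 hRΦ hzR
          have h7 := hin z hzΦ
          have h8 : nb (rev G) z ⊆ Wᶜ.erase z := by
            intro a ha
            rw [mem_nb] at ha
            have haG : G a z := ha
            rw [mem_erase, mem_compl]
            refine ⟨?_, hzin a haG⟩
            rintro rfl
            exact hl _ haG
          have h9 := card_le_card h8
          rw [card_erase_of_mem (mem_compl.2 hzW)] at h9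
          omega
    have h1 := submod G R W
    have h3 := h2.out (R ∪ W) (by obtain ⟨r, hr⟩ := hRne; exact ⟨r, mem_union_left _ hr⟩)
    have h4 : R ∩ W = W := by
      by_contra hne
      have h5 := (hmin (R ∩ W) (inter_subset_right.ssubset_of_ne hne) hRW).1
      omega
    have hWR : W ⊆ R := by
      intro v hv
      rw [← h4] at hv
      exact (mem_inter.1 hv).1
    have h5 : R ∪ bd G R ⊆ M ∪ ((R ∪ bd G R) \ M) := by
      intro v hv
      by_cases hvM : v ∈ M
      · exact mem_union_left _ hvM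
      · exact mem_union_right _ (mem_sdiff.2 ⟨hv, hvM⟩)
    have h6 := card_le_card h5
    have h7 := card_union_le M ((R ∪ bd G R) \ M)
    have h8 : Disjoint R (bd G R) := by
      rw [disjoint_left]
      intro v hv hv2
      exact (mem_bd.1 hv2).1 hv
    rw [card_union_of_disjoint h8] at h6
    have h9 := h2.out R hRne
    have h10 : (R ∪ W)ᶜ ⊆ Rᶜ := by
      intro v hv
      rw [mem_compl, mem_union, not_or] at hv
      rw [mem_compl]
      exact hv.1
    have h11 := card_le_card h10
    have h12 := card_le_card hWR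
    omega

end Pool.Agent.Helper901.Sey
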