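import Pool.Agent.Helper901.Sey.InPart

set_option autoImplicit false
set_option linter.unusedSectionVars false

open Finset

namespace Pool.Agent.Helper901.Sey

variable {V : Type} [Fintype V] [DecidableEq V]

theorem END0 (G : V → V → Prop) (hl : ∀ v, ¬ G v v) (h2 : Two G) (W Φ : Finset V)
    (hWΦ : Disjoint W Φ) (hW : W.Nonempty) (hd : (bd G W).card ≤ 2)
    (hZ : ((W ∪ bd G W)ᶜ).Nonempty)
    (hmin : ∀ Z, Z ⊂ W → Z.Nonempty → 3 ≤ (bd G Z).card ∧ 3 ≤ (bd (rev G) Z).card)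
    (hin : ∀ v, v ∉ Φ → 4 ≤ (nb (rev G) v).card)
    (hout : ∀ v, v ∉ Φ → 4 ≤ (nb G v).card)
    (hg : ∀ v, v ∉ Φ → Good G v)
    (hA : ∀ u ∈ W, ∃ P Q, Sep G u P Q ∧ (P ⊆ W ∨ (((P ∪ W)ᶜ).card ≤ 1 ∧ Disjoint Q Φ)))
    (hΦ : Φ.Nonempty) : False := by
  classical
  refine END G hl h2 W Φ Φ (subset_refl _) hWΦ hW hd hZ hmin hin hout hA ?_ (Or.inr ⟨rfl, hΦ⟩)
  intro M y hMΦ hMd hyM hyW hMe hbM u huM huΦ
  obtain ⟨Q, P, h, h3⟩ := types (rev G) h2.rev M hMd u huM (hg u huΦ).rev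
  refine ⟨P, Q, h.rev, ?_⟩
  rcases h3 with h3 | h3
  · exact Or.inl h3
  refine Or.inr ⟨h3, ?_⟩
  rw [disjoint_left]
  intro f hfP hfΦ
  have hfM : f ∉ M := fun hh => disjoint_left.1 hMΦ hh hfΦ
  have hfu : u ≠ f := fun hh => huΦ (hh ▸ hfΦ)
  have hfQ : f ∉ Q := by
    intro hfQ
    exact hfu (h.inter f hfQ hfP).symm
  obtain ⟨v, hvf, hvG⟩ := exists_in_nb (G := rev G) h2.rev hfu
  have h5 : v ∉ Q := fun hvQ => h.arc v hvQ f hfP hvG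
  have h6 : v ∈ M := by
    by_contra hvM
    exact hvf (card_le_one.1 h3 v (by simp [h5, hvM]) f (by simp [hfQ, hfM]))
  exact disjoint_left.1 hWΦ (hbM (mem_bd.2 ⟨hfM, v, h6, hvG⟩)) hfΦ

end Pool.Agent.Helper901.Sey
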