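import Pool.Agent.Helper901.Sey.End

set_option autoImplicit false
set_option linter.unusedSectionVars false

open Finset

namespace Pool.Agent.Helper901.Sey

variable {V : Type} [Fintype V] [DecidableEq V]

theorem exists_in_nb {G : V → V → Prop} (h2 : Two G) {c u : V} (huc : u ≠ c) :
    ∃ v, v ≠ c ∧ G v c := by
  have h1 := h2.inn {c} (singleton_nonempty c)
  have h3 : 1 ≤ (({c} : Finset V)ᶜ).card := by
    apply card_pos.2
    exact ⟨u, by simp [huc]⟩
  have h4 : 0 < (bd (rev G) {c}).card := by omega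
  obtain ⟨v, hv⟩ := card_pos.1 h4
  rw [mem_bd] at hv
  obtain ⟨h5, a, ha, hG⟩ := hv
  rw [mem_singleton] at h5 ha
  subst ha
  exact ⟨v, h5, hG⟩

theorem IN (G : V → V → Prop) (hl : ∀ v, ¬ G v v) (h2 : Two G) (c x : V) (Φ : Finset V)
    (hc : c ∈ Φ) (hx : x ∈ Φ) (hxc : x ≠ c) (hcΦ : ∀ z ∈ Φ, z ≠ c → G c z)
    (hout : ∀ v, v ≠ c → 4 ≤ (nb G v).card)
    (hin : ∀ v, v ∉ Φ → 4 ≤ (nb (rev G) v).card)
    (hg : ∀ v, v ∉ Φ → Good G v)
    (W : Finset V) (hWΦ : Disjoint W Φ) (hW : W.Nonempty) (hd : (bd (rev G) W).card ≤ 2)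
    (hZ : ((W ∪ bd (rev G) W)ᶜ).Nonempty)
    (hmin : ∀ Z, Z ⊂ W → Z.Nonempty → 3 ≤ (bd G Z).card ∧ 3 ≤ (bd (rev G) Z).card) :
    False := by
  classical
  have hcW : c ∉ W := fun h => disjoint_left.1 hWΦ h hc
  have hxW : x ∉ W := fun h => disjoint_left.1 hWΦ h hx
  have hWc := three_le_compl h2.rev hW hZ
  refine END (rev G) (fun v => hl v) h2.rev W {c} Φ (singleton_subset_iff.2 hc) hWΦ hW hd hZ
    (fun Z h1 h3 => ⟨(hmin Z h1 h3).2, (hmin Z h1 h3).1⟩)
    (fun v hv => hout v (by simpa using hv)) hin ?_ ?_ (Or.inl ?_)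
  · intro u hu
    have huΦ : u ∉ Φ := disjoint_left.1 hWΦ hu
    obtain ⟨P, Q, h, h3⟩ := types (rev G) h2.rev W hd u hu (hg u huΦ).rev
    refine ⟨P, Q, h, ?_⟩
    rcases h3 with h3 | h3
    · exact Or.inl h3
    · refine Or.inr ⟨h3, ?_⟩
      rw [disjoint_singleton_right]
      intro hcQ
      have h4 : c ∉ P := by
        intro hcP
        have := h.inter c hcP hcQ
        subst this
        exact hcW hu
      have h5 : x ∉ P := fun hxP => h.arc x hxP c hcQ (hcΦ x hx hxc)
      have h6 := card_le_one.1 h3 x (by simp [h5, hxW]) c (by simp [h4, hcW])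
      exact hxc h6
  · intro M y hMc hMd hyM hyW hMe hbM u huM huΦ
    rw [rev_rev] at hMd hbM
    have hcM : c ∉ M := by
      rw [disjoint_singleton_right] at hMc
      exact hMc
    obtain ⟨P, Q, h, h3⟩ := types G h2 M hMd u huM (hg u huΦ)
    rcases h3 with h3 | h3
    · exact ⟨Q, P, h.rev, Or.inl h3⟩
    have huc : u ≠ c := fun hh => hcM (hh ▸ huM)
    have huy : ∀ h ∈ Φ, u ≠ h := fun h hh he => huΦ (he ▸ hh)
    have hcQ : c ∉ Q := by
      intro hcQ
      have h4 : c ∉ P := by
        intro hcP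
        exact huc (h.inter c hcP hcQ).symm
      obtain ⟨v, hvc, hvG⟩ := exists_in_nb h2 huc
      have h5 : v ∉ P := fun hvP => h.arc v hvP c hcQ hvG
      have h6 : v ∈ M := by
        by_contra hvM
        exact hvc (card_le_one.1 h3 v (by simp [h5, hvM]) c (by simp [h4, hcM]))
      exact hcW (hbM (mem_bd.2 ⟨hcM, v, h6, hvG⟩))
    by_cases hdis : Disjoint Q Φ
    · exact ⟨Q, P, h.rev, Or.inr ⟨h3, hdis⟩⟩
    have hQP : ∀ f, f ∈ Q → f ∈ Φ → c ∉ P := by
      intro f hfQ hfΦ hcP
      have hfc : f ≠ c := fun hh => hcQ (hh ▸ hfQ)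
      exact h.arc c hcP f hfQ (hcΦ f hfΦ hfc)
    rw [not_disjoint_iff] at hdis
    obtain ⟨f0, hf0Q, hf0Φ⟩ := hdis
    have hcP : c ∉ P := hQP f0 hf0Q hf0Φ
    have hone : ∀ v, v ≠ c → v ∉ P → v ∈ M := by
      intro v hvc hvP
      by_contra hvM
      exact hvc (card_le_one.1 h3 v (by simp [hvP, hvM]) c (by simp [hcP, hcM]))
    have hfy : ∀ f, f ∈ Q → f ∈ Φ → f = y := by
      intro f hfQ hfΦ
      have hfc : f ≠ c := fun hh => hcQ (hh ▸ hfQ)
      have hfP : f ∉ P := fun hfP => huy f hfΦ (h.inter f hfP hfQ).symm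
      by_contra hne
      exact disjoint_left.1 hWΦ (hMe (mem_erase.2 ⟨hne, hone f hfc hfP⟩)) hfΦ
    have hyQ : y ∈ Q := by rw [← hfy f0 hf0Q hf0Φ]; exact hf0Q
    have hyΦ : y ∈ Φ := by rw [← hfy f0 hf0Q hf0Φ]; exact hf0Φ
    have hyc : y ≠ c := fun hh => hcM (hh ▸ hyM)
    have hyP : y ∉ P := fun hyP => huy y hyΦ (h.inter y hyP hyQ).symm
    by_cases hsw : ∀ e ∈ Q, G c e → e = y
    · refine ⟨Q.erase y, insert c P, ⟨?_, ?_, ?_, ?_, ?_⟩, Or.inr ⟨?_, ?_⟩⟩
      · exact mem_erase.2 ⟨huy y hyΦ, h.hQ⟩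
      · exact mem_insert_of_mem h.hP
      · intro v hv1 hv2
        rw [mem_insert] at hv2
        rcases hv2 with hv2 | hv2
        · subst hv2
          exact absurd (mem_of_mem_erase hv1) hcQ
        · exact h.inter v hv2 (mem_of_mem_erase hv1)
      · intro q hq p hp hG
        rw [mem_insert] at hp
        rcases hp with hp | hp
        · subst hp
          exact (mem_erase.1 hq).1 (hsw q (mem_of_mem_erase hq) hG)
        · exact h.arc p hp q (mem_of_mem_erase hq) hG
      · have h7 : (Q.erase y ∪ insert c P)ᶜ ⊆ insert y ((P ∪ Q)ᶜ.erase c) := by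
          intro v hv
          simp only [mem_compl, mem_union, mem_erase, mem_insert, not_or, not_and] at hv ⊢
          by_cases hvy : v = y
          · exact Or.inl hvy
          · exact Or.inr ⟨hv.2.1, hv.2.2, fun hq => hv.1 hvy hq⟩
        have h8 := card_le_card h7
        have h9 := card_insert_le y ((P ∪ Q)ᶜ.erase c)
        have h10 : c ∈ (P ∪ Q)ᶜ := by simp [hcP, hcQ]
        have h11 := card_erase_of_mem h10
        have h12 := h.card
        have h13 : 1 ≤ ((P ∪ Q)ᶜ).card := card_pos.2 ⟨c, h10⟩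
        omega
      · refine le_trans (card_le_card ?_) h3
        intro v hv
        simp only [mem_compl, mem_union, mem_insert, not_or] at hv ⊢
        exact ⟨hv.1.2, hv.2⟩
      · rw [disjoint_left]
        intro f hf hfΦ
        exact (mem_erase.1 hf).1 (hfy f (mem_of_mem_erase hf) hfΦ)
    · exfalso
      push Not at hsw
      obtain ⟨e, heQ, hce, hey⟩ := hsw
      have hec : e ≠ c := fun hh => hcQ (hh ▸ heQ)
      have heM : e ∈ M := by
        by_cases heP : e ∈ P
        · rw [h.inter e heP heQ]; exact huM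
        · exact hone e hec heP
      have heW : e ∈ W := hMe (mem_erase.2 ⟨hey, heM⟩)
      have hcb : c ∈ bd (rev G) W := mem_bd.2 ⟨hcW, e, heW, hce⟩
      have hyb : y ∈ bd (rev G) W := by
        have h7 := hout y hyc
        have h8 : 0 < (nb G y).card := by omega
        obtain ⟨v, hv⟩ := card_pos.1 h8
        rw [mem_nb] at hv
        have hvy : v ≠ y := by
          rintro rfl
          exact hl _ hv
        have hvW : v ∈ W := by
          by_cases hvM : v ∈ M
          · exact hMe (mem_erase.2 ⟨hvy, hvM⟩)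
          · exact hbM (mem_bd.2 ⟨hvM, y, hyM, hv⟩)
        exact mem_bd.2 ⟨hyW, v, hvW, hv⟩
      have hbd : bd (rev G) W ⊆ {c, y} := by
        have h7 : ({c, y} : Finset V) ⊆ bd (rev G) W := by
          intro v hv
          rw [mem_insert, mem_singleton] at hv
          rcases hv with rfl | rfl
          · exact hcb
          · exact hyb
        have h8 : ({c, y} : Finset V).card = 2 := card_pair (Ne.symm hyc)
        exact (eq_of_subset_of_card_le h7 (by omega)).symm.subset
      have h9 : bd (rev G) (insert y W) ⊆ {c} := by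
        intro z hz
        rw [mem_bd] at hz
        obtain ⟨hz1, a, ha, hG⟩ := hz
        rw [mem_insert, not_or] at hz1
        rw [mem_insert] at ha
        rw [mem_singleton]
        rcases ha with ha | ha
        · subst ha
          by_contra hzc
          have hzP : z ∉ P := fun hzP => h.arc z hzP _ hyQ hG
          exact hz1.2 (hMe (mem_erase.2 ⟨hz1.1, hone z hzc hzP⟩))
        · have h10 := hbd (mem_bd.2 ⟨hz1.2, a, ha, hG⟩)
          rw [mem_insert, mem_singleton] at h10
          rcases h10 with h10 | h10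
          · exact h10
          · exact absurd h10 hz1.1
      have h10 := card_le_card h9
      rw [card_singleton] at h10
      have h11 := h2.inn (insert y W) ⟨y, mem_insert_self _ _⟩
      have h12 := card_insert_le y W
      have h13 := card_compl W
      have h14 := card_compl (insert y W)
      omega
  · have h7 : ({c, x} : Finset V) ⊆ Φ := by
      intro v hv
      rw [mem_insert, mem_singleton] at hv
      rcases hv with rfl | rfl
      · exact hc
      · exact hx
    have h8 : ({c, x} : Finset V).card = 2 := card_pair (Ne.symm hxc)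
    have := card_le_card h7
    omega

end Pool.Agent.Helper901.Sey
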