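import Pool.Agent.Helper901.Sey.Lc

set_option autoImplicit false
set_option linter.unusedSectionVars false

open Finset

namespace Pool.Agent.Helper901.Sey

variable {V : Type} [Fintype V] [DecidableEq V]

/-- a minimal out-type 2-set avoiding the only special vertex c contains all in-neighbours of c
and receives an arc from c -/
theorem star (G : V → V → Prop) (hl : ∀ v, ¬ G v v) (h2 : Two G) (c : V)
    (hreg : ∀ v, v ≠ c → 4 ≤ (nb G v).card ∧ 4 ≤ (nb (rev G) v).card)
    (hg : ∀ v, v ≠ c → Good G v) (W : Finset V) (hcW : c ∉ W) (hW : W.Nonempty)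
    (hd : (bd G W).card ≤ 2) (hZ : ((W ∪ bd G W)ᶜ).Nonempty)
    (hmin : ∀ Z, Z ⊂ W → Z.Nonempty → 3 ≤ (bd G Z).card ∧ 3 ≤ (bd (rev G) Z).card) :
    (∃ w ∈ W, G c w) ∧ (∀ v, G v c → v ∈ W) := by
  classical
  by_contra hneg
  have hWΦ : Disjoint W {c} := by
    rw [disjoint_singleton_right]; exact hcW
  refine END0 G hl h2 W {c} hWΦ hW hd hZ hmin (fun v hv => (hreg v (by simpa using hv)).2)
    (fun v hv => (hreg v (by simpa using hv)).1) (fun v hv => hg v (by simpa using hv)) ?_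
    (singleton_nonempty c)
  intro u hu
  have huc : u ≠ c := fun hh => hcW (hh ▸ hu)
  obtain ⟨P, Q, h, h3⟩ := types G h2 W hd u hu (hg u huc)
  rcases h3 with h3 | h3
  · exact ⟨P, Q, h, Or.inl h3⟩
  by_cases hcQ : c ∈ Q
  · have hcP : c ∉ P := fun hcP => huc (h.inter c hcP hcQ).symm
    have hone : ∀ v, v ≠ c → v ∉ P → v ∈ W := by
      intro v hvc hvP
      by_contra hvW
      exact hvc (card_le_one.1 h3 v (by simp [hvP, hvW]) c (by simp [hcP, hcW]))
    have hnin : ∀ v, G v c → v ∈ W := by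
      intro v hG
      refine hone v ?_ ?_
      · rintro rfl
        exact hl _ hG
      · intro hvP
        exact h.arc v hvP c hcQ hG
    have hnoc : ∀ w ∈ W, ¬ G c w := fun w hw hG => hneg ⟨⟨w, hw, hG⟩, hnin⟩
    have harc : ∀ q ∈ Q, q ≠ c → ¬ G c q := by
      intro q hq hqc
      apply hnoc
      by_cases hqP : q ∈ P
      · rw [h.inter q hqP hq]; exact hu
      · exact hone q hqc hqP
    refine ⟨insert c P, Q.erase c, ⟨?_, ?_, ?_, ?_, ?_⟩, Or.inr ⟨?_, ?_⟩⟩
    · exact mem_insert_of_mem h.hP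
    · exact mem_erase.2 ⟨huc, h.hQ⟩
    · intro v hv1 hv2
      rw [mem_insert] at hv1
      rw [mem_erase] at hv2
      rcases hv1 with hv1 | hv1
      · exact absurd hv1 hv2.1
      · exact h.inter v hv1 hv2.2
    · intro p hp q hq hG
      rw [mem_insert] at hp
      rw [mem_erase] at hq
      rcases hp with hp | hp
      · subst hp
        exact harc q hq.2 hq.1 hG
      · exact h.arc p hp q hq.2 hG
    · refine le_trans (card_le_card ?_) h.card
      intro v hv
      simp only [mem_compl, mem_union, mem_erase, mem_insert, not_or, not_and] at hv ⊢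
      exact ⟨hv.1.2, hv.2 hv.1.1⟩
    · refine le_trans (card_le_card ?_) h3
      intro v hv
      simp only [mem_compl, mem_union, mem_insert, not_or] at hv ⊢
      exact ⟨hv.1.2, hv.2⟩
    · rw [disjoint_singleton_right]
      exact notMem_erase _ _
  · refine ⟨P, Q, h, Or.inr ⟨h3, ?_⟩⟩
    rw [disjoint_singleton_right]
    exact hcQ

theorem far_nonempty {G : V → V → Prop} {W : Finset V} (h3 : 3 ≤ (Wᶜ).card)
    (hd : (bd G W).card ≤ 2) : ((W ∪ bd G W)ᶜ).Nonempty := by
  have hB : bd G W ⊆ Wᶜ := by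
    intro v hv
    rw [mem_compl]
    exact (mem_bd.1 hv).1
  rw [← card_pos, compl_union, ← sdiff_eq_inter_compl, card_sdiff_of_subset hB]
  omega

/-- no 2-set avoiding c -/
theorem no_two_set (G : V → V → Prop) (hl : ∀ v, ¬ G v v) (h2 : Two G) (c : V)
    (hreg : ∀ v, v ≠ c → 4 ≤ (nb G v).card ∧ 4 ≤ (nb (rev G) v).card)
    (hg : ∀ v, v ≠ c → Good G v) (W : Finset V) (hcW : c ∉ W) (hW : W.Nonempty)
    (hd : (bd G W).card ≤ 2) (hWc : 3 ≤ (Wᶜ).card)
    (hmin : ∀ Z, Z ⊂ W → Z.Nonempty → 3 ≤ (bd G Z).card ∧ 3 ≤ (bd (rev G) Z).card) :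
    False := by
  classical
  obtain ⟨⟨w, hwW, hcw⟩, hin⟩ := star G hl h2 c hreg hg W hcW hW hd (far_nonempty hWc hd) hmin
  have hwc : w ≠ c := fun hh => hcW (hh ▸ hwW)
  obtain ⟨v, hvc, hvG⟩ := exists_in_nb h2 hwc
  have hcb : c ∈ bd G W := mem_bd.2 ⟨hcW, v, hin v hvG, hvG⟩
  obtain ⟨Z, hZ⟩ : ∃ Z : Finset V, Z = (W ∪ bd G W)ᶜ := ⟨_, rfl⟩
  have hZne : Z.Nonempty := hZ ▸ far_nonempty hWc hd
  have hZd : (bd (rev G) Z).card ≤ 2 := by
    have h1 : bd (rev G) Z ⊆ (W ∪ Z)ᶜ := by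
      apply bdrev_sub_of_noarc
      intro a ha b hb
      rw [hZ] at hb
      exact noarc_far a ha b hb
    rw [hZ, compl_far, ← hZ] at h1
    exact (card_le_card h1).trans hd
  have hZc : 3 ≤ (Zᶜ).card := by
    rw [hZ, compl_compl]
    have h1 : Disjoint W (bd G W) := by
      rw [disjoint_left]
      intro a ha hb
      exact (mem_bd.1 hb).1 ha
    rw [card_union_of_disjoint h1]
    have h3 := h2.out W hW
    have h4 := card_pos.2 hW
    omega
  have hcZ : c ∉ Z := by
    rw [hZ, mem_compl, not_not]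
    exact mem_union_right _ hcb
  have hWZ : ∀ a ∈ W, a ∉ Z := by
    intro a ha
    rw [hZ, mem_compl, not_not]
    exact mem_union_left _ ha
  have hex : ∃ W' : Finset V, W'.Nonempty ∧ W' ⊆ Z ∧
      ((bd G W').card ≤ 2 ∨ (bd (rev G) W').card ≤ 2) :=
    ⟨Z, hZne, subset_refl _, Or.inr hZd⟩
  obtain ⟨W', ⟨hW', hWZ', hWd'⟩, hWm'⟩ := exists_min_card _ hex
  have hmin' : ∀ Z, Z ⊂ W' → Z.Nonempty → 3 ≤ (bd G Z).card ∧ 3 ≤ (bd (rev G) Z).card := by
    intro Z hZ hZn
    have hlt := card_lt_card hZ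
    constructor
    · by_contra hcon
      have := hWm' Z ⟨hZn, hZ.subset.trans hWZ', Or.inl (by omega)⟩
      omega
    · by_contra hcon
      have := hWm' Z ⟨hZn, hZ.subset.trans hWZ', Or.inr (by omega)⟩
      omega
  have hWc' : 3 ≤ (W'ᶜ).card := by
    have h1 : Zᶜ ⊆ W'ᶜ := compl_subset_compl.2 hWZ'
    have := card_le_card h1
    omega
  have hcW' : c ∉ W' := fun h => hcZ (hWZ' h)
  rcases hWd' with hWd' | hWd'
  · have h1 := (star G hl h2 c hreg hg W' hcW' hW' hWd' (far_nonempty hWc' hWd') hmin').2 v hvG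
    exact hWZ v (hin v hvG) (hWZ' h1)
  · have h1 := (star (rev G) (fun v => hl v) h2.rev c (fun v hv => ⟨(hreg v hv).2, (hreg v hv).1⟩)
      (fun v hv => (hg v hv).rev) W' hcW' hW' hWd' (far_nonempty hWc' hWd')
      (fun Z h1 h3 => ⟨(hmin' Z h1 h3).2, (hmin' Z h1 h3).1⟩)).2 w hcw
    exact hWZ w hwW (hWZ' h1)

/-- the order of a separated pair is at least 3 -/
theorem pair_three {G : V → V → Prop} (h2 : Two G) {c : V}
    (h3 : ∀ A : Finset V, A.Nonempty → c ∉ A → 3 ≤ (Aᶜ).card →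
      3 ≤ (bd G A).card ∧ 3 ≤ (bd (rev G) A).card) {A B : Finset V} (hA : A.Nonempty)
    (hB : B.Nonempty) (hAB : ∀ a ∈ A, a ∉ B) (harc : ∀ a ∈ A, ∀ b ∈ B, ¬ G a b) :
    3 ≤ ((A ∪ B)ᶜ).card := by
  classical
  have key : ∀ (H : V → V → Prop) (A B : Finset V), Two H → A.Nonempty → B.Nonempty →
      (∀ a ∈ A, a ∉ B) → (∀ a ∈ A, ∀ b ∈ B, ¬ H a b) →
      (3 ≤ (Aᶜ).card → 3 ≤ (bd H A).card) → 3 ≤ ((A ∪ B)ᶜ).card := by
    intro H A B h2 hA hB hAB harc h3
    have h4 : bd H A ⊆ (A ∪ B)ᶜ := bd_sub_of_noarc harc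
    have h5 := card_le_card h4
    by_contra hcon
    have h6 := h2.out A hA
    have h7 : Aᶜ = (A ∪ B)ᶜ ∪ B := by
      ext v
      simp only [mem_compl, mem_union, not_or]
      constructor
      · intro hv
        by_cases hb : v ∈ B
        · exact Or.inr hb
        · exact Or.inl ⟨hv, hb⟩
      · rintro (h | h)
        · exact h.1
        · exact fun ha => hAB v ha h
    have h8 : Disjoint ((A ∪ B)ᶜ) B := by
      rw [disjoint_left]
      intro v hv hv2
      simp only [mem_compl, mem_union, not_or] at hv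
      exact hv.2 hv2
    have h9 : (Aᶜ).card = ((A ∪ B)ᶜ).card + B.card := by
      conv_lhs => rw [h7]
      exact card_union_of_disjoint h8
    have h10 := card_pos.2 hB
    have h11 := h3 (by omega)
    omega
  by_cases hc : c ∈ A
  · have hcB : c ∉ B := hAB c hc
    have := key (rev G) B A h2.rev hB hA (fun b hb ha => hAB b ha hb)
      (fun b hb a ha => harc a ha b hb) (fun h => (h3 B hB hcB h).2)
    rw [union_comm]
    exact this
  · exact key G A B h2 hA hB hAB harc (fun h => (h3 A hA hc h).1)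

theorem erase_nonempty_right {G : V → V → Prop} (hl : ∀ v, ¬ G v v) {u : V} {P Q : Finset V}
    (h : Sep G u P Q) (hin : 4 ≤ (nb (rev G) u).card) : (Q.erase u).Nonempty := by
  by_contra hcon
  rw [not_nonempty_iff_eq_empty] at hcon
  have h1 : nb (rev G) u ⊆ (P ∪ Q)ᶜ := by
    intro v hv
    rw [mem_nb] at hv
    simp only [mem_compl, mem_union, not_or]
    constructor
    · intro hvP
      exact h.arc v hvP u h.hQ hv
    · intro hvQ
      have hvu : v ≠ u := by
        rintro rfl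
        exact hl _ hv
      have : v ∈ Q.erase u := mem_erase.2 ⟨hvu, hvQ⟩
      rw [hcon] at this
      exact absurd this (notMem_empty _)
  have h3 := card_le_card h1
  have h4 := h.card
  omega

/-- L1 without 2-sets, out-type -/
theorem L1c (G : V → V → Prop) (hl : ∀ v, ¬ G v v) (h2 : Two G) (c : V)
    (hreg : ∀ v, v ≠ c → 4 ≤ (nb G v).card ∧ 4 ≤ (nb (rev G) v).card)
    (hg : ∀ v, v ≠ c → Good G v)
    (h3 : ∀ A : Finset V, A.Nonempty → c ∉ A → 3 ≤ (Aᶜ).card →
      3 ≤ (bd G A).card ∧ 3 ≤ (bd (rev G) A).card)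
    (X : Finset V) (hcX : c ∉ X) (hX : X.Nonempty) (hXd : (bd G X).card ≤ 3)
    (hXf : ((X ∪ bd G X)ᶜ).Nonempty)
    (hXm : ∀ Z : Finset V, Z.Nonempty → c ∉ Z →
      ((bd G Z).card ≤ 3 ∧ ((Z ∪ bd G Z)ᶜ).Nonempty) ∨
      ((bd (rev G) Z).card ≤ 3 ∧ ((Z ∪ bd (rev G) Z)ᶜ).Nonempty) → X.card ≤ Z.card) :
    False := by
  classical
  have hVc : 5 ≤ Fintype.card V := by
    obtain ⟨x, hx⟩ := hX
    have hxc : x ≠ c := fun hh => hcX (hh ▸ hx)
    have h1 := (hreg x hxc).1
    have h4 : (insert x (nb G x)).card ≤ Fintype.card V := card_le_univ _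
    rw [card_insert_of_notMem (by rw [mem_nb]; exact hl x)] at h4
    omega
  have key : ∀ u ∈ X, ∃ P Q, Sep G u P Q ∧ c ∈ Q ∧ ((P ∪ X)ᶜ).card ≤ 2 := by
    intro u hu
    have huc : u ≠ c := fun hh => hcX (hh ▸ hu)
    obtain ⟨P, Q, h⟩ := hg u huc
    have hB := erase_nonempty_right hl h (hreg u huc).2
    have hA := erase_nonempty_right (G := rev G) (fun v => hl v) h.rev (hreg u huc).1
    have hfarP : ∀ Y : Finset V, Y ⊆ P → ((Y ∪ bd G Y)ᶜ).Nonempty := by
      intro Y hY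
      obtain ⟨b, hb⟩ := hB
      rw [mem_erase] at hb
      refine ⟨b, ?_⟩
      simp only [mem_compl, mem_union, not_or, mem_bd, not_and, not_exists]
      refine ⟨fun hbY => hb.1 (h.inter b (hY hbY) hb.2), fun _ a ha hG => ?_⟩
      exact h.arc a (hY ha) b hb.2 hG
    have h4 : 4 ≤ (bd G (P ∩ X)).card := by
      by_contra hcon
      have h5 := hXm (P ∩ X) ⟨u, mem_inter.2 ⟨h.hP, hu⟩⟩
        (fun hh => hcX (mem_inter.1 hh).2) (Or.inl ⟨by omega, hfarP _ inter_subset_left⟩)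
      have h6 : P ∩ X = X := eq_of_subset_of_card_le inter_subset_right h5
      have hXP : X ⊆ P := by
        rw [← h6]; exact inter_subset_left
      have h7 : ∀ a ∈ X, ¬ G a u := fun a ha hG => h.arc a (hXP ha) u h.hQ hG
      have h8 := bd_erase_sub h7
      by_cases hne : (X.erase u).Nonempty
      · have h9 := hXm (X.erase u) hne (fun hh => hcX (mem_of_mem_erase hh))
          (Or.inl ⟨(card_le_card h8).trans hXd, hfarP _ ((erase_subset _ _).trans hXP)⟩)
        have h10 := card_erase_lt_of_mem hu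
        omega
      · rw [not_nonempty_iff_eq_empty] at hne
        have h9 : X = {u} := by
          rw [← insert_erase hu, hne]
          rfl
        rw [h9, bd_singleton hl] at hXd
        have := (hreg u huc).1
        omega
    obtain ⟨h5, h6⟩ := step h X hXd h4
    have hM : ¬ (Q.erase u ∩ (X ∪ bd G X)ᶜ).Nonempty := by
      intro hM
      have h7 := pair_three h2 h3 (A := P ∪ X) ⟨u, mem_union_left _ h.hP⟩ hM ?_ h6
      · omega
      · intro a ha hb
        simp only [mem_inter, mem_erase, mem_compl, mem_union, not_or] at ha hb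
        rcases ha with ha | ha
        · exact hb.1.1 (h.inter a ha hb.1.2)
        · exact hb.2.1 ha
    rw [not_nonempty_iff_eq_empty] at hM
    rw [hM, union_empty] at h5
    refine ⟨P, Q, h, ?_, h5⟩
    have hT : 3 ≤ ((P ∪ Q)ᶜ).card := by
      have h7 := pair_three h2 h3 (A := P) ⟨u, h.hP⟩ hB ?_ ?_
      · rw [h.union_erase] at h7
        exact h7
      · intro a ha hb
        rw [mem_erase] at hb
        exact hb.1 (h.inter a ha hb.2)
      · intro a ha b hb
        exact h.arc a ha b (mem_of_mem_erase hb)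
    by_contra hcQ
    have hQcard : Q.card + 1 ≤ X.card := by
      have h7 : Pᶜ = Q.erase u ∪ (P ∪ Q)ᶜ := by
        ext v
        simp only [mem_compl, mem_union, mem_erase, not_or]
        constructor
        · intro hv
          by_cases hq : v ∈ Q
          · refine Or.inl ⟨?_, hq⟩
            rintro rfl
            exact hv h.hP
          · exact Or.inr ⟨hv, hq⟩
        · rintro (⟨h1, h3⟩ | ⟨h1, h3⟩)
          · exact fun hp => h1 (h.inter v hp h3)
          · exact h1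
      have h8 : Disjoint (Q.erase u) ((P ∪ Q)ᶜ) := by
        rw [disjoint_left]
        intro v hv hv2
        simp only [mem_compl, mem_union, not_or] at hv2
        exact hv2.2 (mem_of_mem_erase hv)
      have h9 : (Pᶜ).card = (Q.erase u).card + ((P ∪ Q)ᶜ).card := by
        conv_lhs => rw [h7]
        exact card_union_of_disjoint h8
      have h10 := card_erase_of_mem h.hQ
      have h11 : Pᶜ ⊆ (P ∪ X)ᶜ ∪ X.erase u := by
        intro v hv
        simp only [mem_compl, mem_union, mem_erase, not_or] at hv ⊢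
        by_cases hx : v ∈ X
        · refine Or.inr ⟨?_, hx⟩
          rintro rfl
          exact hv h.hP
        · exact Or.inl ⟨hv, hx⟩
      have h12 := card_le_card h11
      have h13 := card_union_le ((P ∪ X)ᶜ) (X.erase u)
      have h14 := card_erase_of_mem hu
      have h15 : 1 ≤ Q.card := card_pos.2 ⟨u, h.hQ⟩
      have h16 : 1 ≤ X.card := card_pos.2 ⟨u, hu⟩
      omega
    have h7 : bd (rev G) Q ⊆ (P ∪ Q)ᶜ := bdrev_sub_of_noarc h.arc
    have h8 := hXm Q ⟨u, h.hQ⟩ hcQ (Or.inr ⟨(card_le_card h7).trans h.card, ?_⟩)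
    · omega
    · obtain ⟨a, ha⟩ := hA
      rw [mem_erase] at ha
      refine ⟨a, ?_⟩
      simp only [mem_compl, mem_union, not_or, mem_bd, not_and, not_exists]
      refine ⟨fun haQ => ha.1 (h.inter a ha.2 haQ), fun _ q hq hG => ?_⟩
      exact h.arc a ha.2 q hq hG
  obtain ⟨u, hu⟩ := hX
  obtain ⟨P, Q, h, hcQ, hPX⟩ := key u hu
  have huc : u ≠ c := fun hh => hcX (hh ▸ hu)
  have hcP : c ∉ P := fun hcP => huc (h.inter c hcP hcQ).symm
  have h4 : nb (rev G) c ⊆ ((P ∪ X)ᶜ).erase c := by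
    intro v hv
    rw [mem_nb] at hv
    simp only [mem_erase, mem_compl, mem_union, not_or]
    refine ⟨?_, ?_, ?_⟩
    · rintro rfl
      exact hl _ hv
    · intro hvP
      exact h.arc v hvP c hcQ hv
    · intro hvX
      obtain ⟨P', Q', h', hcQ', _⟩ := key v hvX
      exact h'.arc v h'.hP c hcQ' hv
  have h5 : c ∈ (P ∪ X)ᶜ := by simp [hcP, hcX]
  have h6 := card_le_card h4
  rw [card_erase_of_mem h5] at h6
  have h7 := h2.inn {c} (singleton_nonempty c)
  rw [bd_singleton (G := rev G) (fun v => hl v), card_compl, card_singleton] at h7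
  omega

/-- PART 5 : one special vertex c of arbitrary degree -/
theorem L1 (G : V → V → Prop) (hl : ∀ v, ¬ G v v) (h2 : Two G) (c : V)
    (hreg : ∀ v, v ≠ c → 4 ≤ (nb G v).card ∧ 4 ≤ (nb (rev G) v).card)
    (hg : ∀ v, v ≠ c → Good G v) (hex : ∃ v, v ≠ c) : False := by
  classical
  have h3 : ∀ A : Finset V, A.Nonempty → c ∉ A → 3 ≤ (Aᶜ).card →
      3 ≤ (bd G A).card ∧ 3 ≤ (bd (rev G) A).card := by
    by_contra hcon
    push Not at hcon
    obtain ⟨A, hA1, hA2, hA3, hA4⟩ := hcon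
    have hex2 : ∃ W : Finset V, W.Nonempty ∧ c ∉ W ∧ 3 ≤ (Wᶜ).card ∧
        ((bd G W).card ≤ 2 ∨ (bd (rev G) W).card ≤ 2) := by
      refine ⟨A, hA1, hA2, hA3, ?_⟩
      by_cases h : (bd G A).card ≤ 2
      · exact Or.inl h
      · have := hA4 (by omega)
        exact Or.inr (by omega)
    obtain ⟨W, ⟨hW, hcW, hWc, hWd⟩, hWm⟩ := exists_min_card _ hex2
    have hmin : ∀ Z, Z ⊂ W → Z.Nonempty → 3 ≤ (bd G Z).card ∧ 3 ≤ (bd (rev G) Z).card := by
      intro Z hZ hZn
      have hlt := card_lt_card hZ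
      have hZc : 3 ≤ (Zᶜ).card := by
        have h1 : Wᶜ ⊆ Zᶜ := compl_subset_compl.2 hZ.subset
        have := card_le_card h1
        omega
      have hcZ : c ∉ Z := fun h => hcW (hZ.subset h)
      constructor
      · by_contra hcon
        have := hWm Z ⟨hZn, hcZ, hZc, Or.inl (by omega)⟩
        omega
      · by_contra hcon
        have := hWm Z ⟨hZn, hcZ, hZc, Or.inr (by omega)⟩
        omega
    rcases hWd with hWd | hWd
    · exact no_two_set G hl h2 c hreg hg W hcW hW hWd hWc hmin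
    · exact no_two_set (rev G) (fun v => hl v) h2.rev c
        (fun v hv => ⟨(hreg v hv).2, (hreg v hv).1⟩) (fun v hv => (hg v hv).rev) W hcW hW hWd hWc
        (fun Z h1 h3 => ⟨(hmin Z h1 h3).2, (hmin Z h1 h3).1⟩)
  have hex3 : ∃ X : Finset V, X.Nonempty ∧ c ∉ X ∧
      (((bd G X).card ≤ 3 ∧ ((X ∪ bd G X)ᶜ).Nonempty) ∨
      ((bd (rev G) X).card ≤ 3 ∧ ((X ∪ bd (rev G) X)ᶜ).Nonempty)) := by
    obtain ⟨v, hv⟩ := hex
    obtain ⟨P, Q, h⟩ := hg v hv
    have hB := erase_nonempty_right hl h (hreg v hv).2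
    have hA := erase_nonempty_right (G := rev G) (fun v => hl v) h.rev (hreg v hv).1
    by_cases hcP : c ∈ P
    · have hcQ : c ∉ Q := fun hcQ => hv (h.inter c hcP hcQ).symm
      refine ⟨Q, ⟨v, h.hQ⟩, hcQ, Or.inr ⟨?_, ?_⟩⟩
      · exact (card_le_card (bdrev_sub_of_noarc h.arc)).trans h.card
      · obtain ⟨a, ha⟩ := hA
        rw [mem_erase] at ha
        refine ⟨a, ?_⟩
        simp only [mem_compl, mem_union, not_or, mem_bd, not_and, not_exists]
        refine ⟨fun haQ => ha.1 (h.inter a ha.2 haQ), fun _ q hq hG => ?_⟩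
        exact h.arc a ha.2 q hq hG
    · refine ⟨P, ⟨v, h.hP⟩, hcP, Or.inl ⟨?_, ?_⟩⟩
      · exact (card_le_card (bd_sub_of_noarc h.arc)).trans h.card
      · obtain ⟨b, hb⟩ := hB
        rw [mem_erase] at hb
        refine ⟨b, ?_⟩
        simp only [mem_compl, mem_union, not_or, mem_bd, not_and, not_exists]
        refine ⟨fun hbP => hb.1 (h.inter b hbP hb.2), fun _ p hp hG => ?_⟩
        exact h.arc p hp b hb.2 hG
  obtain ⟨X, ⟨hX, hcX, hXd⟩, hXm⟩ := exists_min_card _ hex3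
  rcases hXd with ⟨hXd, hXf⟩ | ⟨hXd, hXf⟩
  · exact L1c G hl h2 c hreg hg h3 X hcX hX hXd hXf (fun Z h1 h4 h5 => hXm Z ⟨h1, h4, h5⟩)
  · exact L1c (rev G) (fun v => hl v) h2.rev c (fun v hv => ⟨(hreg v hv).2, (hreg v hv).1⟩)
      (fun v hv => (hg v hv).rev) (fun A h1 h4 h5 => ⟨(h3 A h1 h4 h5).2, (h3 A h1 h4 h5).1⟩)
      X hcX hX hXd hXf (fun Z h1 h4 h5 => hXm Z ⟨h1, h4, h5.symm⟩)

end Pool.Agent.Helper901.Sey
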