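import Pool.Agent.Helper901.Sey.LOne

set_option autoImplicit false
set_option linter.unusedSectionVars false

open Finset

namespace Pool.Agent.Helper901.Sey

variable {V : Type} [Fintype V] [DecidableEq V]

namespace LP

/-- `A` is an out-type 2-set -/
def TS (G : V → V → Prop) (A : Finset V) : Prop :=
  A.Nonempty ∧ (bd G A).card ≤ 2 ∧ ((A ∪ bd G A)ᶜ).Nonempty

/-- `(A,B)` is a pair of order at most two -/
def P2 (G : V → V → Prop) (A B : Finset V) : Prop :=
  A.Nonempty ∧ B.Nonempty ∧ Disjoint A B ∧ (∀ a ∈ A, ∀ b ∈ B, ¬ G a b) ∧ ((A ∪ B)ᶜ).card ≤ 2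

theorem bd_sub {G : V → V → Prop} {A B : Finset V} (h : ∀ a ∈ A, ∀ b ∈ B, ¬ G a b) :
    bd G A ⊆ (A ∪ B)ᶜ := by
  intro x hx
  obtain ⟨hx, a, ha, hG⟩ := mem_bd.1 hx
  rw [mem_compl, mem_union]
  push Not
  exact ⟨hx, fun h' => h a ha x h' hG⟩

theorem bd_disj (G : V → V → Prop) (A : Finset V) : Disjoint A (bd G A) := by
  rw [disjoint_left]
  intro x hx hx'
  exact (mem_bd.1 hx').1 hx

theorem P2.ts {G : V → V → Prop} {A B : Finset V} (h : P2 G A B) : TS G A := by
  obtain ⟨h1, ⟨b, hb⟩, h3, h4, h5⟩ := h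
  refine ⟨h1, (card_le_card (bd_sub h4)).trans h5, b, ?_⟩
  rw [mem_compl, mem_union]
  push Not
  refine ⟨fun h => disjoint_left.1 h3 h hb, fun h => ?_⟩
  obtain ⟨-, a, ha, hG⟩ := mem_bd.1 h
  exact h4 a ha b hb hG

theorem P2.rev {G : V → V → Prop} {A B : Finset V} (h : P2 G A B) : P2 (rev G) B A := by
  obtain ⟨h1, h2, h3, h4, h5⟩ := h
  exact ⟨h2, h1, h3.symm, fun b hb a ha hG => h4 a ha b hb hG, by rw [union_comm]; exact h5⟩

theorem TS.p2 {G : V → V → Prop} {A : Finset V} (h : TS G A) : P2 G A (A ∪ bd G A)ᶜ := by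
  obtain ⟨h1, h2, h3⟩ := h
  refine ⟨h1, h3, ?_, ?_, ?_⟩
  · rw [disjoint_left]
    intro x hx hx'
    rw [mem_compl, mem_union] at hx'
    exact hx' (Or.inl hx)
  · intro a ha b hb hG
    rw [mem_compl, mem_union] at hb
    push Not at hb
    exact hb.2 (mem_bd.2 ⟨hb.1, a, ha, hG⟩)
  · refine (card_le_card ?_).trans h2
    intro x hx
    simp only [mem_compl, mem_union] at hx
    tauto

theorem card_pair {A B : Finset V} (h : Disjoint A B) :
    A.card + B.card + ((A ∪ B)ᶜ).card = Fintype.card V := by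
  rw [← card_union_of_disjoint h, card_add_card_compl]

theorem ts_card {G : V → V → Prop} (h2 : Two G) {W : Finset V} (h : TS G W) :
    W.card + 3 ≤ Fintype.card V := by
  obtain ⟨h1, h2', h3⟩ := h
  have e1 := h2.out W h1
  have e2 := card_pair (bd_disj G W)
  have e3 := card_pos.2 h3
  have e4 := card_add_card_compl W
  have e5 : 2 ≤ Wᶜ.card := by
    by_contra hlt
    have : min 2 Wᶜ.card = Wᶜ.card := by omega
    omega
  have : min 2 Wᶜ.card = 2 := by omega
  omega

theorem compl_ne {G : V → V → Prop} {Z : Finset V}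
    (h : Z.card + (bd G Z).card < Fintype.card V) : ((Z ∪ bd G Z)ᶜ).Nonempty := by
  have e2 := card_pair (bd_disj G Z)
  rw [← card_pos]
  omega

/-- minimality gives the boundary conditions -/
theorem min_bd {G : V → V → Prop} {W : Finset V} (hc : W.card + 3 ≤ Fintype.card V)
    (R : Finset V → Prop) (hmin : ∀ Y, R Y → (TS G Y ∨ TS (rev G) Y) → W.card ≤ Y.card)
    (hR : ∀ Z, Z ⊂ W → R Z) :
    ∀ Z, Z ⊂ W → Z.Nonempty → 3 ≤ (bd G Z).card ∧ 3 ≤ (bd (rev G) Z).card := by
  intro Z hZ hne
  have h1 := card_lt_card hZ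
  constructor
  · by_contra hlt
    have := hmin Z (hR Z hZ) (Or.inl ⟨hne, by omega, compl_ne (by omega)⟩)
    omega
  · by_contra hlt
    have := hmin Z (hR Z hZ) (Or.inr ⟨hne, by omega, compl_ne (by omega)⟩)
    omega

/-- the hypotheses of LP4 -/
structure Hyp (G : V → V → Prop) (c x : V) : Prop where
  hl : ∀ v, ¬ G v v
  h2 : Two G
  hcx : G c x
  hreg : ∀ v, v ≠ c → v ≠ x → 4 ≤ (nb G v).card ∧ 4 ≤ (nb (rev G) v).card
  hx : 4 ≤ (nb G x).card
  hc : 4 ≤ (nb (rev G) c).card
  hg : ∀ v, v ≠ c → v ≠ x → Good G v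

theorem Hyp.rev {G : V → V → Prop} {c x : V} (h : Hyp G c x) : Hyp (rev G) x c :=
  ⟨h.hl, h.h2.rev, h.hcx, fun v h1 h2 => ⟨(h.hreg v h2 h1).2, (h.hreg v h2 h1).1⟩, h.hc, h.hx,
    fun v h1 h2 => (h.hg v h2 h1).rev⟩

theorem Hyp.ne {G : V → V → Prop} {c x : V} (h : Hyp G c x) : x ≠ c := by
  rintro rfl
  exact h.hl _ h.hcx

/-- no minimal in-type 2-set avoiding `{c, x}` -/
theorem noIn {G : V → V → Prop} {c x : V} (h : Hyp G c x) (W : Finset V)
    (hW : Disjoint W {c, x}) (hT : TS (rev G) W)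
    (hmin : ∀ Z, Z ⊂ W → Z.Nonempty → 3 ≤ (bd G Z).card ∧ 3 ≤ (bd (rev G) Z).card) : False := by
  refine IN G h.hl h.h2 c x {c, x} (by simp) (by simp) h.ne ?_ ?_ ?_ ?_ W hW hT.1 hT.2.1 hT.2.2 hmin
  · intro z hz hzc
    simp only [mem_insert, mem_singleton] at hz
    rcases hz with rfl | rfl
    · exact absurd rfl hzc
    · exact h.hcx
  · intro v hv
    by_cases hvx : v = x
    · rw [hvx]; exact h.hx
    · exact (h.hreg v hv hvx).1
  · intro v hv
    simp only [mem_insert, mem_singleton, not_or] at hv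
    exact (h.hreg v hv.1 hv.2).2
  · intro v hv
    simp only [mem_insert, mem_singleton, not_or] at hv
    exact h.hg v hv.1 hv.2

/-- no 2-set avoiding `{c, x}` -/
theorem noAvoid {G : V → V → Prop} {c x : V} (h : Hyp G c x) (A : Finset V)
    (hA : Disjoint A {c, x}) : ¬ (TS G A ∨ TS (rev G) A) := by
  classical
  intro hT
  obtain ⟨W, hW, hWmin⟩ := exists_min_image
    (univ.filter fun A : Finset V => Disjoint A {c, x} ∧ (TS G A ∨ TS (rev G) A)) card
    ⟨A, mem_filter.2 ⟨mem_univ _, hA, hT⟩⟩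
  obtain ⟨-, hWd, hWT⟩ := mem_filter.1 hW
  have hcard : W.card + 3 ≤ Fintype.card V := by
    rcases hWT with h' | h'
    · exact ts_card h.h2 h'
    · exact ts_card h.h2.rev h'
  have hmin := min_bd (G := G) hcard (fun Y => Disjoint Y {c, x})
    (fun Y h1 h2 => hWmin Y (mem_filter.2 ⟨mem_univ _, h1, h2⟩))
    (fun Z hZ => disjoint_of_subset_left hZ.1 hWd)
  rcases hWT with h' | h'
  · refine noIn h.rev W (by rw [pair_comm]; exact hWd) h' (fun Z h1 h2 => ?_)
    exact ⟨(hmin Z h1 h2).2, (hmin Z h1 h2).1⟩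
  · exact noIn h W hWd h' hmin

/-- the exceptional configuration at a minimal 2-set inside `A` -/
theorem kplus {G : V → V → Prop} {c x : V} (h : Hyp G c x) (A : Finset V) (hA : TS G A)
    (hcA : c ∉ A) : ∃ W ⊆ A, (∃ e ∈ W, e ≠ x ∧ G c e) ∧ ∀ t, G t x → t ≠ c → t ∈ W := by
  classical
  obtain ⟨W, hW, hWmin⟩ := exists_min_image
    (univ.filter fun Y : Finset V => Y ⊆ A ∧ (TS G Y ∨ TS (rev G) Y)) card
    ⟨A, mem_filter.2 ⟨mem_univ _, Subset.refl _, Or.inl hA⟩⟩
  obtain ⟨-, hWA, hWT⟩ := mem_filter.1 hW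
  have hcW : c ∉ W := fun h' => hcA (hWA h')
  have hxW : x ∈ W := by
    by_contra hxW
    refine noAvoid h W ?_ hWT
    rw [disjoint_left]
    intro a ha ha'
    simp only [mem_insert, mem_singleton] at ha'
    rcases ha' with rfl | rfl
    · exact hcW ha
    · exact hxW ha
  have hcard : W.card + 3 ≤ Fintype.card V := by
    rcases hWT with h' | h'
    · exact ts_card h.h2 h'
    · exact ts_card h.h2.rev h'
  have hmin := min_bd (G := G) hcard (fun Y => Y ⊆ A)
    (fun Y h1 h2 => hWmin Y (mem_filter.2 ⟨mem_univ _, h1, h2⟩))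
    (fun Z hZ => hZ.1.trans hWA)
  -- `W` is of out-type
  have hWo : TS G W := by
    rcases hWT with h' | h'
    · exact h'
    · exfalso
      have hp := h'.p2
      have hcZ : c ∈ (W ∪ bd (rev G) W)ᶜ := by
        by_contra hcZ
        refine noAvoid h (W ∪ bd (rev G) W)ᶜ ?_ (Or.inl hp.rev.ts)
        rw [disjoint_left]
        intro a ha ha'
        simp only [mem_insert, mem_singleton] at ha'
        rcases ha' with rfl | rfl
        · exact hcZ ha
        · rw [mem_compl, mem_union] at ha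
          exact ha (Or.inl hxW)
      exact hp.2.2.2.1 x hxW c hcZ h.hcx
  have hpair := hWo.p2
  have hcZ : c ∈ (W ∪ bd G W)ᶜ := by
    by_contra hcZ
    refine noAvoid h (W ∪ bd G W)ᶜ ?_ (Or.inr hpair.rev.ts)
    rw [disjoint_left]
    intro a ha ha'
    simp only [mem_insert, mem_singleton] at ha'
    rcases ha' with rfl | rfl
    · exact hcZ ha
    · rw [mem_compl, mem_union] at ha
      exact ha (Or.inl hxW)
  have hNc : ∀ w ∈ W, ¬ G w c := fun w hw => hpair.2.2.2.1 w hw c hcZ
  refine ⟨W, hWA, ?_⟩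
  by_contra hK
  have hWΦ : W ∩ {c, x} = {x} := by
    ext a
    simp only [mem_inter, mem_insert, mem_singleton]
    constructor
    · rintro ⟨h1, h2 | h2⟩
      · rw [h2] at h1; exact absurd h1 hcW
      · exact h2
    · rintro rfl
      exact ⟨hxW, Or.inr rfl⟩
  refine SM G h.hl h.h2 W {c, x} hWo.2.1 (fun Z h1 h2 => (hmin Z h1 h2).1) ?_ ?_ ?_ ?_ ?_ ?_ ?_
  · intro u hu
    by_cases hux : u = x
    · rw [hux]; exact h.hx
    · exact (h.hreg u (fun e => hcW (e ▸ hu)) hux).1
  · intro u hu huΦ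
    simp only [mem_insert, mem_singleton, not_or] at huΦ
    exact (h.hreg u huΦ.1 huΦ.2).2
  · intro u hu huΦ _
    simp only [mem_insert, mem_singleton, not_or] at huΦ
    exact (h.hreg u huΦ.1 huΦ.2).2
  · intro u hu huΦ
    simp only [mem_insert, mem_singleton, not_or] at huΦ
    obtain ⟨P, Q, hs, ht⟩ := types G h.h2 W hWo.2.1 u hu (h.hg u huΦ.1 huΦ.2)
    rcases ht with ht | ht
    · exact ⟨P, Q, hs, Or.inl ht⟩
    -- N-type
    have hcQ : c ∉ Q := by
      intro hcQ
      have hcP : c ∉ P := fun h' => huΦ.1 (hs.inter c h' hcQ).symm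
      have : nb (rev G) c = ∅ := by
        rw [eq_empty_iff_forall_notMem]
        intro a ha
        rw [mem_nb] at ha
        have ha' : G a c := ha
        have h1 : a ∉ P := fun h' => hs.arc a h' c hcQ ha'
        have h2 : a ∉ W := fun h' => hNc a h' ha'
        have h3 : a ≠ c := fun e => h.hl c (e ▸ ha')
        have h4 : ({a, c} : Finset V) ⊆ (P ∪ W)ᶜ := by
          intro b hb
          simp only [mem_insert, mem_singleton] at hb
          rw [mem_compl, mem_union]
          push Not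
          rcases hb with rfl | rfl
          · exact ⟨h1, h2⟩
          · exact ⟨hcP, hcW⟩
        have := card_le_card h4
        rw [Finset.card_pair h3] at this
        omega
      have h5 := h.hc
      rw [this, card_empty] at h5
      omega
    by_cases hxQ : x ∈ Q
    · have hcP : c ∉ P := fun h' => hs.arc c h' x hxQ h.hcx
      have hone : ∀ a, a ∉ P → a ≠ c → a ∈ W := by
        intro a ha hac
        by_contra haW
        have h4 : ({a, c} : Finset V) ⊆ (P ∪ W)ᶜ := by
          intro b hb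
          simp only [mem_insert, mem_singleton] at hb
          rw [mem_compl, mem_union]
          push Not
          rcases hb with rfl | rfl
          · exact ⟨ha, haW⟩
          · exact ⟨hcP, hcW⟩
        have := card_le_card h4
        rw [Finset.card_pair hac] at this
        omega
      have hxP : x ∉ P := fun h' => huΦ.2 (hs.inter x h' hxQ).symm
      have hNx : ∀ t, G t x → t ≠ c → t ∈ W := by
        intro t ht htc
        exact hone t (fun h' => hs.arc t h' x hxQ ht) htc
      have hsw : ∀ e, e ∈ Q → G c e → e = x := by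
        intro e he hG
        by_contra hex
        apply hK
        refine ⟨⟨e, ?_, hex, hG⟩, hNx⟩
        by_cases heP : e ∈ P
        · rw [hs.inter e heP he]; exact hu
        · exact hone e heP (fun e' => h.hl c (by rw [e'] at hG; exact hG))
      refine ⟨insert c P, Q.erase x, ⟨mem_insert_of_mem hs.hP, mem_erase.2 ⟨huΦ.2, hs.hQ⟩, ?_, ?_, ?_⟩,
        Or.inr ⟨?_, ?_⟩⟩
      · intro a ha ha'
        rw [mem_erase] at ha'
        rcases mem_insert.1 ha with rfl | h1
        · exact absurd ha'.2 hcQ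
        · exact hs.inter a h1 ha'.2
      · intro p hp q hq hG
        rw [mem_erase] at hq
        rcases mem_insert.1 hp with rfl | h1
        · exact hq.1 (hsw q hq.2 hG)
        · exact hs.arc p h1 q hq.2 hG
      · refine le_trans ?_ hs.card
        have hsub : (insert c P ∪ Q.erase x)ᶜ ⊆ insert x (((P ∪ Q)ᶜ).erase c) := by
          intro a ha
          simp only [mem_compl, mem_union, mem_insert, mem_erase, not_or, not_and] at ha
          rw [mem_insert, mem_erase, mem_compl, mem_union]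
          by_cases hax : a = x
          · exact Or.inl hax
          · right
            refine ⟨ha.1.1, ?_⟩
            push Not
            exact ⟨ha.1.2, ha.2 hax⟩
        refine (card_le_card hsub).trans ((card_insert_le _ _).trans ?_)
        rw [card_erase_of_mem (by simp [hcP, hcQ])]
        have : 0 < ((P ∪ Q)ᶜ).card := card_pos.2 ⟨c, by simp [hcP, hcQ]⟩
        omega
      · refine (card_le_card ?_).trans ht
        intro a ha
        simp only [mem_compl, mem_union, mem_insert, not_or] at ha ⊢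
        exact ⟨ha.1.2, ha.2⟩
      · rw [disjoint_left]
        intro a ha ha'
        rw [mem_erase] at ha
        simp only [mem_insert, mem_singleton] at ha'
        rcases ha' with rfl | rfl
        · exact hcQ ha.2
        · exact ha.1 rfl
    · refine ⟨P, Q, hs, Or.inr ⟨ht, ?_⟩⟩
      rw [disjoint_left]
      intro a ha ha'
      simp only [mem_insert, mem_singleton] at ha'
      rcases ha' with rfl | rfl
      · exact hcQ ha
      · exact hxQ ha
  · rw [hWΦ, card_singleton]
  · -- `W ≠ {x}`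
    by_contra hne
    have hsub : nb G x ⊆ bd G W := by
      intro a ha
      rw [mem_nb] at ha
      refine mem_bd.2 ⟨fun haW => hne ⟨a, ?_⟩, x, hxW, ha⟩
      rw [mem_sdiff]
      refine ⟨haW, ?_⟩
      simp only [mem_insert, mem_singleton, not_or]
      exact ⟨fun e => hcW (e ▸ haW), fun e => h.hl x (by rw [e] at ha; exact ha)⟩
    have := card_le_card hsub
    have := h.hx
    have := hWo.2.1
    omega
  · intro R hR hRΦ hRd
    have hRne : R.Nonempty := hR.mono inter_subset_left
    rw [hWΦ, card_singleton]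
    have hfull : R ∪ bd (rev G) R = univ := by
      by_contra hne
      refine noAvoid h R hRΦ (Or.inr ⟨hRne, hRd, ?_⟩)
      rw [nonempty_iff_ne_empty]
      intro he
      apply hne
      rwa [compl_eq_empty_iff] at he
    rw [hfull, ← compl_eq_univ_sdiff]
    have := card_add_card_compl W
    omega

/-- pair form of submodularity -/
theorem pair_submod {A1 B1 A2 B2 : Finset V} (h1 : Disjoint A1 B1) (h2 : Disjoint A2 B2) :
    ((A1 ∩ A2 ∪ (B1 ∪ B2))ᶜ).card + ((A1 ∪ A2 ∪ (B1 ∩ B2))ᶜ).card =
      ((A1 ∪ B1)ᶜ).card + ((A2 ∪ B2)ᶜ).card := by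
  have e1 := card_pair h1
  have e2 := card_pair h2
  have d1 : Disjoint (A1 ∩ A2) (B1 ∪ B2) := by
    rw [disjoint_left] at *
    intro a ha hb
    rw [mem_inter] at ha
    rcases mem_union.1 hb with h | h
    · exact h1 ha.1 h
    · exact h2 ha.2 h
  have d2 : Disjoint (A1 ∪ A2) (B1 ∩ B2) := by
    rw [disjoint_left] at *
    intro a ha hb
    rw [mem_inter] at hb
    rcases mem_union.1 ha with h | h
    · exact h1 h hb.1
    · exact h2 h hb.2
  have e3 := card_pair d1
  have e4 := card_pair d2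
  have e5 := card_union_add_card_inter A1 A2
  have e6 := card_union_add_card_inter B1 B2
  omega

/-- the case without 2-pairs -/
theorem stepB {G : V → V → Prop} {c x : V} (h : Hyp G c x) (hno : ∀ A B, ¬ P2 G A B)
    (X : Finset V) (hXne : X.Nonempty) (hcX : c ∉ X) (hX3 : (bd G X).card ≤ 3)
    (hXZ : ((X ∪ bd G X)ᶜ).Nonempty)
    (hmin : ∀ Y : Finset V, Y.card < X.card → Y.Nonempty →
      (((bd G Y).card ≤ 3 ∧ ((Y ∪ bd G Y)ᶜ).Nonempty) → c ∈ Y) ∧
      (((bd (rev G) Y).card ≤ 3 ∧ ((Y ∪ bd (rev G) Y)ᶜ).Nonempty) → x ∈ Y)) : False := by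
  classical
  have hcardX : X.card + 4 ≤ Fintype.card V := by
    have e1 : ¬ (bd G X).card ≤ 2 := fun h' => hno _ _ (TS.p2 ⟨hXne, h', hXZ⟩)
    have e2 := card_pair (bd_disj G X)
    have e3 := card_pos.2 hXZ
    omega
  have key : ∀ u ∈ X, u ≠ x → ¬ G u x ∧ (nb (rev G) x \ X).card ≤ 2 := by
    intro u hu hux
    have huc : u ≠ c := fun e => hcX (e ▸ hu)
    obtain ⟨P, Q, hs⟩ := h.hg u huc hux
    have hdeg := h.hreg u huc hux
    -- `d(P ∩ X) ≥ 4`
    have h4 : 4 ≤ (bd G (P ∩ X)).card := by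
      by_contra hlt
      have hXP : X ⊆ P := by
        by_contra hXP
        have hlt' : (P ∩ X).card < X.card := by
          apply card_lt_card
          rw [ssubset_iff_subset_ne]
          exact ⟨inter_subset_right, fun e => hXP (by rw [← e]; exact inter_subset_left)⟩
        have := (hmin (P ∩ X) hlt' ⟨u, mem_inter.2 ⟨hs.hP, hu⟩⟩).1
          ⟨by omega, compl_ne (by omega)⟩
        exact hcX (mem_inter.1 this).2
      have hlt' : (X.erase u).card < X.card := card_erase_lt_of_mem hu
      have hsub : bd G (X.erase u) ⊆ bd G X := by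
        intro a ha
        obtain ⟨ha1, b, hb, hG⟩ := mem_bd.1 ha
        have hb' := (mem_erase.1 hb).2
        refine mem_bd.2 ⟨fun haX => ?_, b, hb', hG⟩
        have hau : a = u := by
          by_contra hau
          exact ha1 (mem_erase.2 ⟨hau, haX⟩)
        rw [hau] at hG
        exact hs.arc b (hXP hb') u hs.hQ hG
      have hne : (X.erase u).Nonempty := by
        by_contra hne
        have hsub2 : nb G u ⊆ bd G X := by
          intro a ha
          rw [mem_nb] at ha
          refine mem_bd.2 ⟨fun haX => hne ⟨a, mem_erase.2 ⟨fun e => ?_, haX⟩⟩, u, hu, ha⟩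
          rw [e] at ha
          exact h.hl u ha
        have := card_le_card hsub2
        omega
      have := (hmin (X.erase u) hlt' hne).1
        ⟨(card_le_card hsub).trans hX3, compl_ne (by have := card_le_card hsub; omega)⟩
      exact hcX (mem_erase.1 this).2
    -- the pairs `(P, Q - u)` and `(X, Z)`
    have hd1 : Disjoint P (Q.erase u) := by
      rw [disjoint_left]
      intro a ha ha'
      rw [mem_erase] at ha'
      exact ha'.1 (hs.inter a ha ha'.2)
    have hPQ : P ∪ Q.erase u = P ∪ Q := by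
      ext a
      simp only [mem_union, mem_erase]
      constructor
      · rintro (h' | h')
        · exact Or.inl h'
        · exact Or.inr h'.2
      · rintro (h' | h')
        · exact Or.inl h'
        · by_cases hau : a = u
          · rw [hau]; exact Or.inl hs.hP
          · exact Or.inr ⟨hau, h'⟩
    have hd2 : Disjoint X (X ∪ bd G X)ᶜ := by
      rw [disjoint_left]
      intro a ha ha'
      rw [mem_compl, mem_union] at ha'
      exact ha' (Or.inl ha)
    have hsm := pair_submod hd1 hd2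
    rw [hPQ] at hsm
    have hX4 : ((X ∪ (X ∪ bd G X)ᶜ)ᶜ).card ≤ 3 := by
      refine (card_le_card ?_).trans hX3
      intro a ha
      simp only [mem_compl, mem_union] at ha
      tauto
    have hZarc : ∀ a ∈ X, ∀ b ∈ (X ∪ bd G X)ᶜ, ¬ G a b := by
      intro a ha b hb hG
      rw [mem_compl, mem_union] at hb
      push Not at hb
      exact hb.2 (mem_bd.2 ⟨hb.1, a, ha, hG⟩)
    have h5 : (bd G (P ∩ X)).card ≤ ((P ∩ X ∪ (Q.erase u ∪ (X ∪ bd G X)ᶜ))ᶜ).card := by
      apply card_le_card
      apply bd_sub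
      intro a ha b hb hG
      rw [mem_inter] at ha
      rcases mem_union.1 hb with h' | h'
      · exact hs.arc a ha.1 b (mem_erase.1 h').2 hG
      · exact hZarc a ha.2 b h' hG
    have hs3 := hs.card
    have h6 : ((P ∪ X ∪ (Q.erase u ∩ (X ∪ bd G X)ᶜ))ᶜ).card ≤ 2 := by omega
    have h7 : Q.erase u ∩ (X ∪ bd G X)ᶜ = ∅ := by
      by_contra hne
      rw [← ne_eq, ← nonempty_iff_ne_empty] at hne
      refine hno (P ∪ X) (Q.erase u ∩ (X ∪ bd G X)ᶜ) ⟨⟨u, mem_union.2 (Or.inr hu)⟩, hne, ?_, ?_, h6⟩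
      · rw [disjoint_left]
        intro a ha ha'
        rw [mem_inter] at ha'
        rcases mem_union.1 ha with h' | h'
        · exact disjoint_left.1 hd1 h' ha'.1
        · exact disjoint_left.1 hd2 h' ha'.2
      · intro a ha b hb hG
        rw [mem_inter] at hb
        rcases mem_union.1 ha with h' | h'
        · exact hs.arc a h' b (mem_erase.1 hb.1).2 hG
        · exact hZarc a h' b hb.2 hG
    rw [h7, union_empty] at h6
    -- `|T| ≥ 3`
    have hAne : (P.erase u).Nonempty := by
      by_contra hne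
      have hsub : nb G u ⊆ (P ∪ Q)ᶜ := by
        intro a ha
        rw [mem_nb] at ha
        rw [mem_compl, mem_union]
        push Not
        have haQ : a ∉ Q := fun h' => hs.arc u hs.hP a h' ha
        refine ⟨fun haP => hne ⟨a, mem_erase.2 ⟨fun e => ?_, haP⟩⟩, haQ⟩
        rw [e] at haQ
        exact haQ hs.hQ
      have := card_le_card hsub
      omega
    have hT3 : 3 ≤ ((P ∪ Q)ᶜ).card := by
      by_contra hlt
      refine hno (P.erase u) Q ⟨hAne, ⟨u, hs.hQ⟩, ?_, ?_, ?_⟩
      · rw [disjoint_left]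
        intro a ha ha'
        rw [mem_erase] at ha
        exact ha.1 (hs.inter a ha.2 ha')
      · intro a ha b hb hG
        exact hs.arc a (mem_erase.1 ha).2 b hb hG
      · have : P.erase u ∪ Q = P ∪ Q := by
          ext a
          simp only [mem_union, mem_erase]
          constructor
          · rintro (h' | h')
            · exact Or.inl h'.2
            · exact Or.inr h'
          · rintro (h' | h')
            · by_cases hau : a = u
              · rw [hau]; exact Or.inr hs.hQ
              · exact Or.inl ⟨hau, h'⟩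
            · exact Or.inr h'
        rw [this]
        omega
    -- `|Q| < |X|`
    have hQX : Q.card < X.card := by
      have e1 := card_pair hd1
      rw [hPQ, card_erase_of_mem hs.hQ] at e1
      have e2 := card_add_card_compl (P ∪ X)
      have e3 := card_union_add_card_inter P X
      have e4 : 0 < (P ∩ X).card := card_pos.2 ⟨u, mem_inter.2 ⟨hs.hP, hu⟩⟩
      have e5 : 0 < Q.card := card_pos.2 ⟨u, hs.hQ⟩
      omega
    have hQ3 : bd (rev G) Q ⊆ (P ∪ Q)ᶜ := by
      rw [union_comm]
      exact bd_sub fun a ha b hb hG => hs.arc b hb a ha hG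
    have hxQ : x ∈ Q := by
      refine (hmin Q hQX ⟨u, hs.hQ⟩).2 ⟨(card_le_card hQ3).trans hs.card, ?_⟩
      obtain ⟨a, ha⟩ := hAne
      rw [mem_erase] at ha
      refine ⟨a, ?_⟩
      rw [mem_compl, mem_union]
      push Not
      exact ⟨fun h' => ha.1 (hs.inter a ha.2 h'), fun h' => by
        have := hQ3 h'
        rw [mem_compl, mem_union] at this
        exact this (Or.inl ha.2)⟩
    refine ⟨hs.arc u hs.hP x hxQ, (card_le_card ?_).trans h6⟩
    intro a ha
    rw [mem_sdiff, mem_nb] at ha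
    rw [mem_compl, mem_union]
    push Not
    exact ⟨fun h' => hs.arc a h' x hxQ ha.1, ha.2⟩
  -- a vertex of `X` other than `x`
  have hex : ∃ u ∈ X, u ≠ x := by
    by_contra hcon
    push Not at hcon
    obtain ⟨w, hw⟩ := hXne
    have hwx := hcon w hw
    rw [hwx] at hw
    have hsub : nb G x ⊆ bd G X := by
      intro a ha
      rw [mem_nb] at ha
      refine mem_bd.2 ⟨fun haX => ?_, x, hw, ha⟩
      rw [hcon a haX] at ha
      exact h.hl x ha
    have := card_le_card hsub
    have := h.hx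
    omega
  obtain ⟨u, hu, hux⟩ := hex
  have h8 := (key u hu hux).2
  have h9 : nb (rev G) x \ X = nb (rev G) x := by
    rw [Finset.sdiff_eq_self_iff_disjoint, disjoint_left]
    intro a ha haX
    rw [mem_nb] at ha
    by_cases hax : a = x
    · rw [hax] at ha
      exact h.hl x ha
    · exact (key a haX hax).1 ha
  rw [h9] at h8
  -- the pair `(V - x - N⁻(x), {x})`
  have hd3 : Disjoint (insert x (nb (rev G) x)) (insert x (nb (rev G) x))ᶜ := disjoint_compl_right
  refine hno (insert x (nb (rev G) x))ᶜ {x} ⟨?_, ⟨x, mem_singleton_self x⟩, ?_, ?_, ?_⟩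
  · rw [← card_pos]
    have e1 := card_add_card_compl (insert x (nb (rev G) x))
    have e2 := card_insert_le x (nb (rev G) x)
    have e3 := card_pos.2 hXne
    omega
  · rw [disjoint_singleton_right, mem_compl]
    simp
  · intro a ha b hb hG
    rw [mem_singleton] at hb
    rw [hb] at hG
    rw [mem_compl, mem_insert, mem_nb] at ha
    exact ha (Or.inr hG)
  · refine (card_le_card ?_).trans h8
    intro a ha
    simp only [mem_compl, mem_union, mem_insert, mem_singleton] at ha
    tauto

/-- the family of 3-sets contains a member -/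
theorem fam_ne {G : V → V → Prop} {c x : V} (h : Hyp G c x) : ∃ Y : Finset V, Y.Nonempty ∧
    ((c ∉ Y ∧ (bd G Y).card ≤ 3 ∧ ((Y ∪ bd G Y)ᶜ).Nonempty) ∨
      (x ∉ Y ∧ (bd (rev G) Y).card ≤ 3 ∧ ((Y ∪ bd (rev G) Y)ᶜ).Nonempty)) := by
  -- a vertex other than `c, x`
  obtain ⟨u, hu⟩ : ∃ u, u ∉ ({c, x} : Finset V) := by
    by_contra hcon
    push Not at hcon
    have : (nb G x) ⊆ {c, x} := fun a _ => hcon a
    have e1 := card_le_card this
    have e2 := card_le_two (a := c) (b := x)
    have := h.hx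
    omega
  simp only [mem_insert, mem_singleton, not_or] at hu
  obtain ⟨P, Q, hs⟩ := h.hg u hu.1 hu.2
  have hdeg := h.hreg u hu.1 hu.2
  have hAne : (P.erase u).Nonempty := by
    by_contra hne
    have hsub : nb G u ⊆ (P ∪ Q)ᶜ := by
      intro a ha
      rw [mem_nb] at ha
      rw [mem_compl, mem_union]
      push Not
      have haQ : a ∉ Q := fun h' => hs.arc u hs.hP a h' ha
      refine ⟨fun haP => hne ⟨a, mem_erase.2 ⟨fun e => ?_, haP⟩⟩, haQ⟩
      rw [e] at haQ
      exact haQ hs.hQ
    have := card_le_card hsub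
    have := hs.card
    omega
  have hBne : (Q.erase u).Nonempty := by
    by_contra hne
    have hsub : nb (rev G) u ⊆ (P ∪ Q)ᶜ := by
      intro a ha
      rw [mem_nb] at ha
      rw [mem_compl, mem_union]
      push Not
      have haP : a ∉ P := fun h' => hs.arc a h' u hs.hQ ha
      refine ⟨haP, fun haQ => hne ⟨a, mem_erase.2 ⟨fun e => ?_, haQ⟩⟩⟩
      rw [e] at haP
      exact haP hs.hP
    have := card_le_card hsub
    have := hs.card
    omega
  by_cases hcP : c ∈ P
  · refine ⟨Q, ⟨u, hs.hQ⟩, Or.inr ⟨fun h' => hs.arc c hcP x h' h.hcx, ?_, ?_⟩⟩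
    · refine (card_le_card ?_).trans hs.card
      rw [union_comm]
      exact bd_sub fun a ha b hb hG => hs.arc b hb a ha hG
    · obtain ⟨a, ha⟩ := hAne
      rw [mem_erase] at ha
      refine ⟨a, ?_⟩
      rw [mem_compl, mem_union]
      push Not
      refine ⟨fun h' => ha.1 (hs.inter a ha.2 h'), fun h' => ?_⟩
      obtain ⟨-, b, hb, hG⟩ := mem_bd.1 h'
      exact hs.arc a ha.2 b hb hG
  · refine ⟨P, ⟨u, hs.hP⟩, Or.inl ⟨hcP, ?_, ?_⟩⟩
    · exact (card_le_card (bd_sub hs.arc)).trans hs.card
    · obtain ⟨a, ha⟩ := hBne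
      rw [mem_erase] at ha
      refine ⟨a, ?_⟩
      rw [mem_compl, mem_union]
      push Not
      refine ⟨fun h' => ha.1 (hs.inter a h' ha.2), fun h' => ?_⟩
      obtain ⟨-, b, hb, hG⟩ := mem_bd.1 h'
      exact hs.arc b hb a ha.2 hG

theorem main {G : V → V → Prop} {c x : V} (h : Hyp G c x) : False := by
  classical
  by_cases hno : ∃ A B, P2 G A B
  · obtain ⟨A, B, hAB⟩ := hno
    have hdis := hAB.2.2.1
    have hA := hAB.ts
    have hB := hAB.rev.ts
    have hAm : c ∈ A ∨ x ∈ A := by
      by_contra hcon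
      push Not at hcon
      refine noAvoid h A ?_ (Or.inl hA)
      rw [disjoint_left]
      intro a ha ha'
      simp only [mem_insert, mem_singleton] at ha'
      rcases ha' with rfl | rfl
      · exact hcon.1 ha
      · exact hcon.2 ha
    have hBm : c ∈ B ∨ x ∈ B := by
      by_contra hcon
      push Not at hcon
      refine noAvoid h B ?_ (Or.inr hB)
      rw [disjoint_left]
      intro a ha ha'
      simp only [mem_insert, mem_singleton] at ha'
      rcases ha' with rfl | rfl
      · exact hcon.1 ha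
      · exact hcon.2 ha
    have hcA : c ∉ A := by
      intro hcA
      rcases hBm with hB' | hB'
      · exact disjoint_left.1 hdis hcA hB'
      · exact hAB.2.2.2.1 c hcA x hB' h.hcx
    have hxA : x ∈ A := by
      rcases hAm with h' | h'
      · exact absurd h' hcA
      · exact h'
    have hxB : x ∉ B := fun h' => disjoint_left.1 hdis hxA h'
    obtain ⟨W, hWA, ⟨e, heW, hex, hce⟩, -⟩ := kplus h A hA hcA
    obtain ⟨W', hWB, -, hall⟩ := kplus h.rev B hB hxB
    have : e ∈ W' := hall e hce hex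
    exact disjoint_left.1 hdis (hWA heW) (hWB this)
  · push Not at hno
    obtain ⟨X, hX, hXmin⟩ := exists_min_image
      (univ.filter fun Y : Finset V => Y.Nonempty ∧
        ((c ∉ Y ∧ (bd G Y).card ≤ 3 ∧ ((Y ∪ bd G Y)ᶜ).Nonempty) ∨
          (x ∉ Y ∧ (bd (rev G) Y).card ≤ 3 ∧ ((Y ∪ bd (rev G) Y)ᶜ).Nonempty))) card (by
        obtain ⟨Y, hY⟩ := fam_ne h
        exact ⟨Y, mem_filter.2 ⟨mem_univ _, hY⟩⟩)
    obtain ⟨-, hXne, hX'⟩ := mem_filter.1 hX
    rcases hX' with ⟨h1, h2, h3⟩ | ⟨h1, h2, h3⟩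
    · refine stepB h hno X hXne h1 h2 h3 (fun Y hY hYne => ⟨fun h4 => ?_, fun h4 => ?_⟩)
      · by_contra hcY
        have := hXmin Y (mem_filter.2 ⟨mem_univ _, hYne, Or.inl ⟨hcY, h4.1, h4.2⟩⟩)
        omega
      · by_contra hcY
        have := hXmin Y (mem_filter.2 ⟨mem_univ _, hYne, Or.inr ⟨hcY, h4.1, h4.2⟩⟩)
        omega
    · refine stepB h.rev (fun A B hAB => hno B A hAB.rev) X hXne h1 h2 h3
        (fun Y hY hYne => ⟨fun h4 => ?_, fun h4 => ?_⟩)
      · by_contra hcY
        have := hXmin Y (mem_filter.2 ⟨mem_univ _, hYne, Or.inr ⟨hcY, h4.1, h4.2⟩⟩)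
        omega
      · by_contra hcY
        have := hXmin Y (mem_filter.2 ⟨mem_univ _, hYne, Or.inl ⟨hcY, h4.1, h4.2⟩⟩)
        omega

end LP

/-- PART 8 : two special vertices c → x, c of full in-degree and x of full out-degree -/
theorem LP4 (G : V → V → Prop) (hl : ∀ v, ¬ G v v) (h2 : Two G) (c x : V) (hcx : G c x)
    (hreg : ∀ v, v ≠ c → v ≠ x → 4 ≤ (nb G v).card ∧ 4 ≤ (nb (rev G) v).card)
    (hx : 4 ≤ (nb G x).card) (hc : 4 ≤ (nb (rev G) c).card)
    (hg : ∀ v, v ≠ c → v ≠ x → Good G v) : False :=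
  LP.main ⟨hl, h2, hcx, hreg, hx, hc, hg⟩

end Pool.Agent.Helper901.Sey
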