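import Pool.Agent.Helper901.Sey.End0

set_option autoImplicit false
set_option linter.unusedSectionVars false

open Finset

namespace Pool.Agent.Helper901.Sey

variable {V : Type} [Fintype V] [DecidableEq V]

theorem LC (G : V → V → Prop) (hl : ∀ v, ¬ G v v) (h2 : Two G) (c x : V) (Φ : Finset V)
    (hc : c ∈ Φ) (hx : x ∈ Φ) (hxc : x ≠ c) (hcΦ : ∀ z ∈ Φ, z ≠ c → G c z)
    (hout : ∀ v, v ≠ c → 4 ≤ (nb G v).card)
    (hin : ∀ v, v ∉ Φ → 4 ≤ (nb (rev G) v).card)
    (hg : ∀ v, v ∉ Φ → Good G v)
    (hE : (nb G c).card ≤ 2) : False := by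
  classical
  have hVc : 5 ≤ Fintype.card V := by
    have h1 := hout x hxc
    have h3 : (insert x (nb G x)).card ≤ Fintype.card V := card_le_univ _
    rw [card_insert_of_notMem (by rw [mem_nb]; exact hl x)] at h3
    omega
  have hE2 : (nb G c).card = 2 := by
    have h1 := h2.out {c} (singleton_nonempty c)
    rw [bd_singleton hl, card_compl, card_singleton] at h1
    omega
  obtain ⟨I, hI⟩ : ∃ I : Finset V, I = (insert c (nb G c))ᶜ := ⟨_, rfl⟩
  have hIc : (Iᶜ).card = 3 := by
    rw [hI, compl_compl, card_insert_of_notMem (by rw [mem_nb]; exact hl c), hE2]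
  have hIne : I.Nonempty := by
    rw [← card_pos]
    have := card_compl I
    omega
  have hId : (bd (rev G) I).card ≤ 2 := by
    rw [← hE2]
    apply card_le_card
    intro v hv
    rw [mem_bd] at hv
    obtain ⟨h1, a, ha, hG⟩ := hv
    rw [hI, mem_compl, not_not, mem_insert] at h1
    rcases h1 with h1 | h1
    · subst h1
      rw [hI, mem_compl, mem_insert, not_or, mem_nb] at ha
      exact absurd hG ha.2
    · exact h1
  have hex : ∃ W : Finset V, W.Nonempty ∧ W ⊆ I ∧
      ((bd G W).card ≤ 2 ∨ (bd (rev G) W).card ≤ 2) :=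
    ⟨I, hIne, subset_refl _, Or.inr hId⟩
  obtain ⟨W, ⟨hW, hWI, hWd⟩, hWm⟩ := exists_min_card _ hex
  have hmin : ∀ Z, Z ⊂ W → Z.Nonempty → 3 ≤ (bd G Z).card ∧ 3 ≤ (bd (rev G) Z).card := by
    intro Z hZ hZn
    have hlt := card_lt_card hZ
    constructor
    · by_contra hcon
      have := hWm Z ⟨hZn, hZ.subset.trans hWI, Or.inl (by omega)⟩
      omega
    · by_contra hcon
      have := hWm Z ⟨hZn, hZ.subset.trans hWI, Or.inr (by omega)⟩
      omega
  have hWc3 : 3 ≤ (Wᶜ).card := by
    have h1 : Iᶜ ⊆ Wᶜ := compl_subset_compl.2 hWI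
    have := card_le_card h1
    omega
  have hcW : c ∉ W := by
    intro hcW
    have := hWI hcW
    rw [hI, mem_compl] at this
    exact this (mem_insert_self _ _)
  have hnoc : ∀ w ∈ W, ¬ G c w := by
    intro w hw hG
    have := hWI hw
    rw [hI, mem_compl] at this
    exact this (mem_insert_of_mem (mem_nb.2 hG))
  have hWΦ : Disjoint W Φ := by
    rw [disjoint_left]
    intro v hv hvΦ
    by_cases hvc : v = c
    · exact hcW (hvc ▸ hv)
    · exact hnoc v hv (hcΦ v hvΦ hvc)
  have hfar : ∀ B : Finset V, B ⊆ Wᶜ → B.card ≤ 2 → ((W ∪ B)ᶜ).Nonempty := by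
    intro B hB hB2
    rw [← card_pos, compl_union, ← sdiff_eq_inter_compl, card_sdiff_of_subset hB]
    omega
  have hbsub : ∀ H : V → V → Prop, bd H W ⊆ Wᶜ := by
    intro H v hv
    rw [mem_compl]
    exact (mem_bd.1 hv).1
  rcases hWd with hWd | hWd
  · refine END0 G hl h2 W Φ hWΦ hW hWd (hfar _ (hbsub _) hWd) hmin hin ?_ hg ?_ ⟨c, hc⟩
    · intro v hv
      exact hout v (fun hh => hv (hh ▸ hc))
    · intro u hu
      have huΦ : u ∉ Φ := disjoint_left.1 hWΦ hu
      have huc : u ≠ c := fun hh => hcW (hh ▸ hu)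
      obtain ⟨P, Q, h, h3⟩ := types G h2 W hWd u hu (hg u huΦ)
      rcases h3 with h3 | h3
      · exact ⟨P, Q, h, Or.inl h3⟩
      by_cases hcQ : c ∈ Q
      · have hcP : c ∉ P := fun hcP => huc (h.inter c hcP hcQ).symm
        have harc : ∀ q ∈ Q, q ≠ c → ¬ G c q := by
          intro q hq hqc
          apply hnoc
          by_cases hqP : q ∈ P
          · rw [h.inter q hqP hq]; exact hu
          · by_contra hqW
            exact hqc (card_le_one.1 h3 q (by simp [hqP, hqW]) c (by simp [hcP, hcW]))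
        refine ⟨insert c P, Q.erase c, ⟨?_, ?_, ?_, ?_, ?_⟩, Or.inr ⟨?_, ?_⟩⟩
        · exact mem_insert_of_mem h.hP
        · exact mem_erase.2 ⟨huc, h.hQ⟩
        · intro v hv1 hv2
          rw [mem_insert] at hv1
          rw [mem_erase] at hv2
          rcases hv1 with hv1 | hv1
          · exact absurd hv1 hv2.1
          · exact h.inter v hv1 hv2.2
        · intro p hp q hq hG
          rw [mem_insert] at hp
          rw [mem_erase] at hq
          rcases hp with hp | hp
          · subst hp
            exact harc q hq.2 hq.1 hG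
          · exact h.arc p hp q hq.2 hG
        · refine le_trans (card_le_card ?_) h.card
          intro v hv
          simp only [mem_compl, mem_union, mem_erase, mem_insert, not_or, not_and] at hv ⊢
          exact ⟨hv.1.2, hv.2 hv.1.1⟩
        · refine le_trans (card_le_card ?_) h3
          intro v hv
          simp only [mem_compl, mem_union, mem_insert, not_or] at hv ⊢
          exact ⟨hv.1.2, hv.2⟩
        · rw [disjoint_left]
          intro f hf hfΦ
          rw [mem_erase] at hf
          exact harc f hf.2 hf.1 (hcΦ f hfΦ hf.1)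
      · refine ⟨P, Q, h, Or.inr ⟨h3, ?_⟩⟩
        rw [disjoint_left]
        intro f hf hfΦ
        have hfc : f ≠ c := fun hh => hcQ (hh ▸ hf)
        have hcP : c ∉ P := fun hcP => h.arc c hcP f hf (hcΦ f hfΦ hfc)
        have hfP : f ∉ P := by
          intro hfP
          have := h.inter f hfP hf
          exact huΦ (this ▸ hfΦ)
        have hfW : f ∉ W := fun hh => disjoint_left.1 hWΦ hh hfΦ
        exact hfc (card_le_one.1 h3 f (by simp [hfP, hfW]) c (by simp [hcP, hcW]))
  · exact IN G hl h2 c x Φ hc hx hxc hcΦ hout hin hg W hWΦ hW hWd (hfar _ (hbsub _) hWd) hmin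

end Pool.Agent.Helper901.Sey
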