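import Pool.Agent.Helper901.Sey.LP4

set_option autoImplicit false
set_option linter.unusedSectionVars false

open Finset

namespace Pool.Agent.Helper901.Sey

namespace Red

variable {V : Type} [Fintype V] [DecidableEq V]

/-- in a regular digraph a set without entering arcs has no leaving arcs -/
theorem closed_of_rev (G : V → V → Prop) (k : ℕ)
    (hreg : ∀ v, (nb G v).card = k ∧ (nb (rev G) v).card = k) (U : Finset V)
    (h : bd (rev G) U = ∅) : bd G U = ∅ := by
  classical
  have hcount : ∑ a ∈ U, (U.filter fun b => G a b).card = ∑ b ∈ U, (U.filter fun a => G a b).card :=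
    sum_card_bipartiteAbove_eq_sum_card_bipartiteBelow G
  have h1 : ∀ b ∈ U, (U.filter fun a => G a b).card = k := by
    intro b hb
    rw [← (hreg b).2]
    congr 1
    ext a
    simp only [mem_filter, mem_nb, rev]
    refine ⟨fun h => h.2, fun hG => ⟨?_, hG⟩⟩
    by_contra ha
    have : a ∈ bd (rev G) U := mem_bd.2 ⟨ha, b, hb, hG⟩
    rw [h] at this
    exact absurd this (notMem_empty a)
  rw [sum_congr rfl h1] at hcount
  have h2 : ∀ a ∈ U, (U.filter fun b => G a b).card ≤ k := by
    intro a _
    rw [← (hreg a).1]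
    apply card_le_card
    intro b hb
    exact mem_nb.2 (mem_filter.1 hb).2
  have h3 : ∀ a ∈ U, (U.filter fun b => G a b).card = k :=
    (sum_eq_sum_iff_of_le h2).1 hcount
  rw [eq_empty_iff_forall_notMem]
  intro b hb
  obtain ⟨hbU, a, ha, hG⟩ := mem_bd.1 hb
  have h4 := h3 a ha
  have h5 : (U.filter fun b => G a b) = nb G a := by
    apply eq_of_subset_of_card_le
    · intro b hb
      exact mem_nb.2 (mem_filter.1 hb).2
    · rw [h4, (hreg a).1]
  have h6 : b ∈ nb G a := mem_nb.2 hG
  rw [← h5] at h6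
  exact hbU (mem_filter.1 h6).1

/-- the number of arcs leaving `F` equals the number of arcs entering `F` -/
theorem arc_count (G : V → V → Prop) (k : ℕ)
    (hreg : ∀ v, (nb G v).card = k ∧ (nb (rev G) v).card = k) (F : Finset V) :
    ∑ z ∈ F, (nb (rev G) z \ F).card = ∑ z ∈ F, (nb G z \ F).card := by
  classical
  have hcount : ∑ a ∈ F, (F.filter fun b => G a b).card = ∑ b ∈ F, (F.filter fun a => G a b).card :=
    sum_card_bipartiteAbove_eq_sum_card_bipartiteBelow G
  have h1 : ∑ z ∈ F, (nb (rev G) z \ F).card + ∑ b ∈ F, (F.filter fun a => G a b).card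
      = ∑ z ∈ F, k := by
    rw [← sum_add_distrib]
    refine sum_congr rfl fun z _ => ?_
    rw [← (hreg z).2, ← card_sdiff_add_card_inter (nb (rev G) z) F]
    congr 2
    ext a
    simp [mem_nb, rev, and_comm]
  have h2 : ∑ z ∈ F, (nb G z \ F).card + ∑ b ∈ F, (F.filter fun a => G b a).card
      = ∑ z ∈ F, k := by
    rw [← sum_add_distrib]
    refine sum_congr rfl fun z _ => ?_
    rw [← (hreg z).1, ← card_sdiff_add_card_inter (nb G z) F]
    congr 2
    ext a
    simp [mem_nb, and_comm]
  omega

/-- `S` is closed for `H` in both directions -/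
structure Cl (H : V → V → Prop) (S : Finset V) : Prop where
  out : ∀ a ∈ S, ∀ b, H a b → b ∈ S
  inn : ∀ b ∈ S, ∀ a, H a b → a ∈ S

theorem Cl.rev {H : V → V → Prop} {S : Finset V} (h : Cl H S) : Cl (rev H) S :=
  ⟨fun a ha b hb => h.inn a ha b hb, fun b hb a ha => h.out b hb a ha⟩

/-- restriction to `S` -/
def sub (H : V → V → Prop) (S : Finset V) : {v // v ∈ S} → {v // v ∈ S} → Prop :=
  fun a b => H a.1 b.1

/-- image in `V` of a set of the subtype -/
def up {S : Finset V} (A : Finset {v // v ∈ S}) : Finset V :=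
  A.map ⟨Subtype.val, Subtype.val_injective⟩

theorem mem_up {S : Finset V} {A : Finset {v // v ∈ S}} {x : V} :
    x ∈ up A ↔ ∃ h : x ∈ S, (⟨x, h⟩ : {v // v ∈ S}) ∈ A := by
  simp [up]

theorem up_sub {S : Finset V} (A : Finset {v // v ∈ S}) : up A ⊆ S := by
  intro x hx
  exact (mem_up.1 hx).1

theorem card_up {S : Finset V} (A : Finset {v // v ∈ S}) : (up A).card = A.card :=
  card_map _

/-- preimage in the subtype -/
def dn (S : Finset V) (A : Finset V) : Finset {v // v ∈ S} := univ.filter fun a => a.1 ∈ A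

theorem mem_dn {S A : Finset V} {x : {v // v ∈ S}} : x ∈ dn S A ↔ x.1 ∈ A := by
  simp [dn]

theorem up_dn {S A : Finset V} (h : A ⊆ S) : up (dn S A) = A := by
  ext x
  rw [mem_up]
  constructor
  · rintro ⟨h1, h2⟩
    exact mem_dn.1 h2
  · intro hx
    exact ⟨h hx, mem_dn.2 hx⟩

theorem card_dn {S A : Finset V} (h : A ⊆ S) : (dn S A).card = A.card := by
  rw [← card_up, up_dn h]

theorem up_bd {H : V → V → Prop} {S : Finset V} (h : Cl H S) (A : Finset {v // v ∈ S}) :
    up (bd (sub H S) A) = bd H (up A) := by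
  ext x
  rw [mem_up, mem_bd]
  constructor
  · rintro ⟨h1, h2⟩
    obtain ⟨h3, a, ha, hG⟩ := mem_bd.1 h2
    refine ⟨fun h4 => ?_, a.1, mem_up.2 ⟨a.2, ha⟩, hG⟩
    obtain ⟨h5, h6⟩ := mem_up.1 h4
    exact h3 h6
  · rintro ⟨h1, a, ha, hG⟩
    obtain ⟨h5, h6⟩ := mem_up.1 ha
    have hx := h.out a h5 x hG
    refine ⟨hx, mem_bd.2 ⟨fun h7 => h1 (mem_up.2 ⟨hx, h7⟩), _, h6, hG⟩⟩

theorem up_nb {H : V → V → Prop} {S : Finset V} (h : Cl H S) (a : {v // v ∈ S}) :
    up (nb (sub H S) a) = nb H a.1 := by
  ext x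
  rw [mem_up, mem_nb]
  constructor
  · rintro ⟨h1, h2⟩
    have h3 : sub H S a ⟨x, h1⟩ := mem_nb.1 h2
    exact h3
  · intro hG
    have h1 := h.out a.1 a.2 x hG
    have h3 : sub H S a ⟨x, h1⟩ := hG
    exact ⟨h1, mem_nb.2 h3⟩

theorem up_compl {S : Finset V} (A : Finset {v // v ∈ S}) : up Aᶜ = S \ up A := by
  ext x
  rw [mem_up, mem_sdiff, mem_up]
  constructor
  · rintro ⟨h1, h2⟩
    refine ⟨h1, fun ⟨h3, h4⟩ => ?_⟩
    exact (mem_compl.1 h2) h4
  · rintro ⟨h1, h2⟩
    exact ⟨h1, mem_compl.2 fun h3 => h2 ⟨h1, h3⟩⟩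

theorem sub_two {H : V → V → Prop} {S : Finset V} (h : Cl H S)
    (h1 : ∀ A ⊆ S, A.Nonempty → min 2 (S \ A).card ≤ (bd H A).card)
    (h2 : ∀ A ⊆ S, A.Nonempty → min 2 (S \ A).card ≤ (bd (rev H) A).card) : Two (sub H S) := by
  constructor
  · intro A hA
    have hA' : (up A).Nonempty := by rw [← card_pos, card_up, card_pos]; exact hA
    have := h1 (up A) (up_sub A) hA'
    rwa [← up_compl, ← up_bd h, card_up, card_up] at this
  · intro A hA
    have hA' : (up A).Nonempty := by rw [← card_pos, card_up, card_pos]; exact hA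
    have := h2 (up A) (up_sub A) hA'
    rw [← up_compl, ← up_bd h.rev, card_up, card_up] at this
    exact this

theorem sub_good {H : V → V → Prop} {S : Finset V} (u : V) (hu : u ∈ S)
    (h : ∃ P Q : Finset V, P ⊆ S ∧ Q ⊆ S ∧ u ∈ P ∧ u ∈ Q ∧ (∀ x, x ∈ P → x ∈ Q → x = u) ∧
      (∀ p ∈ P, ∀ q ∈ Q, ¬ H p q) ∧ (S \ (P ∪ Q)).card ≤ 3) : Good (sub H S) ⟨u, hu⟩ := by
  obtain ⟨P, Q, h1, h2, h3, h4, h5, h6, h7⟩ := h
  refine ⟨dn S P, dn S Q, mem_dn.2 h3, mem_dn.2 h4, fun x hx hx' => ?_, fun p hp q hq => ?_, ?_⟩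
  · exact Subtype.ext (h5 _ (mem_dn.1 hx) (mem_dn.1 hx'))
  · exact h6 _ (mem_dn.1 hp) _ (mem_dn.1 hq)
  · have : up ((dn S P ∪ dn S Q)ᶜ) = S \ (P ∪ Q) := by
      rw [up_compl]
      congr 1
      ext x
      simp only [mem_up, mem_union, mem_dn]
      constructor
      · rintro ⟨_, h⟩
        exact h
      · rintro (h | h)
        · exact ⟨h1 h, Or.inl h⟩
        · exact ⟨h2 h, Or.inr h⟩
    rw [← card_up, this]
    exact h7

/-- the case of a closed set -/
theorem caseA (G : V → V → Prop) (hl : ∀ v, ¬ G v v)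
    (hreg : ∀ v, (nb G v).card = 4 ∧ (nb (rev G) v).card = 4)
    (hg : ∀ v, Good G v) (F : Finset V) (hF : F.Nonempty) (hd : bd G F = ∅)
    (hmin : ∀ A : Finset V, A.Nonempty → A.card < F.card → 2 ≤ (bd G A).card ∧
      2 ≤ (bd (rev G) A).card) : False := by
  classical
  have hd' : bd (rev G) F = ∅ := closed_of_rev (rev G) 4 (fun v => ⟨(hreg v).2, (hreg v).1⟩) F hd
  have hcl : Cl G F := by
    constructor
    · intro a ha b hG
      by_contra hb
      have : b ∈ bd G F := mem_bd.2 ⟨hb, a, ha, hG⟩
      rw [hd] at this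
      exact absurd this (notMem_empty _)
    · intro b hb a hG
      by_contra ha
      have : a ∈ bd (rev G) F := mem_bd.2 ⟨ha, b, hb, hG⟩
      rw [hd'] at this
      exact absurd this (notMem_empty _)
  have htwo : Two (sub G F) := by
    apply sub_two hcl
    · intro A hA hne
      by_cases hAF : A = F
      · rw [hAF]; simp
      · have := (hmin A hne (card_lt_card (Finset.ssubset_iff_subset_ne.2 ⟨hA, hAF⟩))).1
        exact (min_le_left _ _).trans this
    · intro A hA hne
      by_cases hAF : A = F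
      · rw [hAF]; simp
      · have := (hmin A hne (card_lt_card (Finset.ssubset_iff_subset_ne.2 ⟨hA, hAF⟩))).2
        exact (min_le_left _ _).trans this
  obtain ⟨c, hc⟩ := hF
  refine L1 (sub G F) (fun v => hl v.1) htwo ⟨c, hc⟩ (fun v _ => ?_) (fun v _ => ?_) ?_
  · rw [← card_up (nb (sub G F) v), up_nb hcl, ← card_up (nb (rev (sub G F)) v)]
    have : up (nb (rev (sub G F)) v) = nb (rev G) v.1 := up_nb hcl.rev v
    rw [this]
    exact ⟨(hreg v.1).1.ge, (hreg v.1).2.ge⟩
  · apply sub_good v.1 v.2
    obtain ⟨P, Q, hs⟩ := hg v.1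
    refine ⟨P ∩ F, Q ∩ F, inter_subset_right, inter_subset_right, mem_inter.2 ⟨hs.hP, v.2⟩,
      mem_inter.2 ⟨hs.hQ, v.2⟩, fun x hx hx' => hs.inter x (mem_inter.1 hx).1 (mem_inter.1 hx').1,
      fun p hp q hq => hs.arc p (mem_inter.1 hp).1 q (mem_inter.1 hq).1, ?_⟩
    refine (card_le_card ?_).trans hs.card
    intro x hx
    simp only [mem_sdiff, mem_union, mem_inter, mem_compl] at hx ⊢
    tauto
  · have h1 := (hreg c).1
    have h2 : (nb G c).Nonempty := by rw [← card_pos]; omega
    obtain ⟨d, hd⟩ := h2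
    rw [mem_nb] at hd
    refine ⟨⟨d, hcl.out c hc d hd⟩, fun e => ?_⟩
    have : d = c := congrArg Subtype.val e
    rw [this] at hd
    exact hl c hd

/-- the auxiliary digraph on `F + c` -/
def HH (G : V → V → Prop) (F : Finset V) (c : V) : V → V → Prop := fun a b =>
  (a ∈ F ∧ G a b) ∨ (a = c ∧ b ∈ F ∧ ∃ g, g ∉ F ∧ G g b)

/-- the case of a set with one exit vertex -/
theorem caseB (G : V → V → Prop) (hl : ∀ v, ¬ G v v)
    (hreg : ∀ v, (nb G v).card = 4 ∧ (nb (rev G) v).card = 4)
    (hg : ∀ v, Good G v) (F : Finset V) (hF : F.Nonempty) (c : V) (hd : bd G F = {c})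
    (hmin : ∀ A : Finset V, A.Nonempty → A.card < F.card → 2 ≤ (bd G A).card ∧
      2 ≤ (bd (rev G) A).card) : False := by
  classical
  have hcF : c ∉ F := by
    have : c ∈ bd G F := by rw [hd]; exact mem_singleton_self c
    exact (mem_bd.1 this).1
  have hexit : ∀ a ∈ F, ∀ b, G a b → b ∈ F ∨ b = c := by
    intro a ha b hG
    by_cases hb : b ∈ F
    · exact Or.inl hb
    · have : b ∈ bd G F := mem_bd.2 ⟨hb, a, ha, hG⟩
      rw [hd, mem_singleton] at this
      exact Or.inr this
  obtain ⟨z0, hz0, hz0c⟩ : ∃ a ∈ F, G a c := by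
    have : c ∈ bd G F := by rw [hd]; exact mem_singleton_self c
    exact (mem_bd.1 this).2
  set S := insert c F with hS
  set H := HH G F c with hH
  have hFS : F ⊆ S := subset_insert c F
  have hcS : c ∈ S := mem_insert_self c F
  have hSF : ∀ a ∈ S, a ≠ c → a ∈ F := fun a ha hac => (mem_insert.1 ha).resolve_left hac
  -- arcs of `H`
  have hHF : ∀ a ∈ F, ∀ b, H a b ↔ G a b := by
    intro a ha b
    constructor
    · rintro (h | h)
      · exact h.2
      · rw [h.1] at ha; exact absurd ha hcF
    · intro h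
      exact Or.inl ⟨ha, h⟩
  have hHc : ∀ b, H c b ↔ b ∈ F ∧ ∃ g, g ∉ F ∧ G g b := by
    intro b
    constructor
    · rintro (h | h)
      · exact absurd h.1 hcF
      · exact h.2
    · intro h
      exact Or.inr ⟨rfl, h⟩
  have hcl : Cl H S := by
    constructor
    · intro a ha b hab
      rcases hab with h | h
      · rcases hexit a h.1 b h.2 with h' | h'
        · exact hFS h'
        · rw [h']; exact hcS
      · exact hFS h.2.1
    · intro b hb a hab
      rcases hab with h | h
      · exact hFS h.1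
      · rw [h.1]; exact hcS
  -- entrance vertices
  set E := F.filter fun e => ∃ g, g ∉ F ∧ G g e with hE
  have hEbd : ∀ e, e ∈ E ↔ e ∈ F ∧ ∃ g, g ∉ F ∧ G g e := by
    intro e; rw [hE, mem_filter]
  have hEne : E.Nonempty := by
    by_contra hemp
    have h1 : bd (rev G) F = ∅ := by
      rw [eq_empty_iff_forall_notMem]
      intro g hg'
      obtain ⟨h1, e, he, hG⟩ := mem_bd.1 hg'
      exact hemp ⟨e, (hEbd e).2 ⟨he, g, h1, hG⟩⟩
    have := closed_of_rev G 4 hreg F h1
    rw [hd] at this
    exact absurd this (singleton_ne_empty c)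
  have hSA : ∀ A ⊆ F, A ≠ F → A.card < F.card := fun A h1 h2 =>
    card_lt_card (Finset.ssubset_iff_subset_ne.2 ⟨h1, h2⟩)
  have htwo : Two (sub H S) := by
    apply sub_two hcl
    · intro A hA hne
      by_cases hR : (S \ A) ⊆ bd H A
      · exact (min_le_right _ _).trans (card_le_card hR)
      obtain ⟨r, hr, hr'⟩ := not_subset.1 hR
      rw [mem_sdiff] at hr
      refine (min_le_left _ _).trans ?_
      by_cases hcA : c ∈ A
      · -- the far side
        have hRF : ∀ y, y ∈ S \ A → y ∈ F := fun y hy =>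
          hSF y (mem_sdiff.1 hy).1 fun e => (mem_sdiff.1 hy).2 (e ▸ hcA)
        have h1 : (S \ A) \ bd H A ⊆ F := fun y hy => hRF y (mem_sdiff.1 hy).1
        have h2 : (S \ A) \ bd H A ≠ F := by
          intro h2
          obtain ⟨e, he⟩ := hEne
          have he' := (hEbd e).1 he
          have : e ∈ (S \ A) \ bd H A := by rw [h2]; exact he'.1
          rw [mem_sdiff, mem_sdiff] at this
          exact this.2 (mem_bd.2 ⟨this.1.2, c, hcA, (hHc e).2 he'⟩)
        have h3 := (hmin _ ⟨r, mem_sdiff.2 ⟨mem_sdiff.2 hr, hr'⟩⟩ (hSA _ h1 h2)).2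
        refine h3.trans (card_le_card ?_)
        intro y hy
        obtain ⟨hy1, b, hb, hG⟩ := mem_bd.1 hy
        have hG' : G y b := hG
        rw [mem_sdiff, mem_sdiff] at hb
        have hbF : b ∈ F := hRF b (mem_sdiff.2 hb.1)
        by_cases hyF : y ∈ F
        · -- y in F
          by_cases hyA : y ∈ A
          · exact absurd (mem_bd.2 ⟨hb.1.2, y, hyA, (hHF y hyF b).2 hG'⟩) hb.2
          · by_contra hyb
            exact hy1 (mem_sdiff.2 ⟨mem_sdiff.2 ⟨hFS hyF, hyA⟩, hyb⟩)
        · exact absurd (mem_bd.2 ⟨hb.1.2, c, hcA, (hHc b).2 ⟨hbF, y, hyF, hG'⟩⟩) hb.2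
      · have hAF : A ⊆ F := fun a ha => hSF a (hA ha) fun e => hcA (e ▸ ha)
        have hne' : A ≠ F := by
          rintro rfl
          apply hr'
          have hrc : r = c := by
            by_contra hrc
            exact hr.2 (hSF r hr.1 hrc)
          rw [hrc]
          exact mem_bd.2 ⟨hcA, z0, hz0, (hHF z0 hz0 c).2 hz0c⟩
        refine (hmin A hne (hSA A hAF hne')).1.trans (card_le_card ?_)
        intro y hy
        obtain ⟨hy1, b, hb, hG⟩ := mem_bd.1 hy
        exact mem_bd.2 ⟨hy1, b, hb, (hHF b (hAF hb) y).2 hG⟩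
    · intro A hA hne
      by_cases hR : (S \ A) ⊆ bd (rev H) A
      · exact (min_le_right _ _).trans (card_le_card hR)
      obtain ⟨r, hr, hr'⟩ := not_subset.1 hR
      rw [mem_sdiff] at hr
      refine (min_le_left _ _).trans ?_
      by_cases hcA : c ∈ A
      · -- the far side
        have hRF : ∀ y, y ∈ S \ A → y ∈ F := fun y hy =>
          hSF y (mem_sdiff.1 hy).1 fun e => (mem_sdiff.1 hy).2 (e ▸ hcA)
        have h1 : (S \ A) \ bd (rev H) A ⊆ F := fun y hy => hRF y (mem_sdiff.1 hy).1
        have h2 : (S \ A) \ bd (rev H) A ≠ F := by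
          intro h2
          have : z0 ∈ (S \ A) \ bd (rev H) A := by rw [h2]; exact hz0
          rw [mem_sdiff, mem_sdiff] at this
          exact this.2 (mem_bd.2 ⟨this.1.2, c, hcA, (hHF z0 hz0 c).2 hz0c⟩)
        have h3 := (hmin _ ⟨r, mem_sdiff.2 ⟨mem_sdiff.2 hr, hr'⟩⟩ (hSA _ h1 h2)).1
        refine h3.trans (card_le_card ?_)
        intro y hy
        obtain ⟨hy1, b, hb, hG⟩ := mem_bd.1 hy
        rw [mem_sdiff, mem_sdiff] at hb
        have hbF : b ∈ F := hRF b (mem_sdiff.2 hb.1)
        have hyS : y ∈ S := by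
          rcases hexit b hbF y hG with h | h
          · exact hFS h
          · rw [h]; exact hcS
        by_cases hyA : y ∈ A
        · exact absurd (mem_bd.2 ⟨hb.1.2, y, hyA, (hHF b hbF y).2 hG⟩) hb.2
        · by_contra hyb
          exact hy1 (mem_sdiff.2 ⟨mem_sdiff.2 ⟨hyS, hyA⟩, hyb⟩)
      · have hAF : A ⊆ F := fun a ha => hSF a (hA ha) fun e => hcA (e ▸ ha)
        have hcr : (∃ e ∈ A, e ∈ E) → c ∈ bd (rev H) A := by
          rintro ⟨e, he, heE⟩
          exact mem_bd.2 ⟨hcA, e, he, (hHc e).2 ((hEbd e).1 heE)⟩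
        have hne' : A ≠ F := by
          rintro rfl
          apply hr'
          have hrc : r = c := by
            by_contra hrc
            exact hr.2 (hSF r hr.1 hrc)
          rw [hrc]
          obtain ⟨e, he⟩ := hEne
          exact hcr ⟨e, ((hEbd e).1 he).1, he⟩
        by_cases hAE : ∃ e ∈ A, e ∈ E
        · -- c and another one
          have hcb := hcr hAE
          have hex : ∃ z ∈ F, z ∉ A ∧ ∃ a ∈ A, G z a := by
            by_contra hcon
            push Not at hcon
            have hsub : bd G (F \ A) ⊆ {c} := by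
              intro y hy
              obtain ⟨hy1, b, hb, hG⟩ := mem_bd.1 hy
              rw [mem_sdiff] at hb
              rcases hexit b hb.1 y hG with h | h
              · exfalso
                by_cases hyA : y ∈ A
                · exact hcon b hb.1 hb.2 y hyA hG
                · exact hy1 (mem_sdiff.2 ⟨h, hyA⟩)
              · rw [h]; exact mem_singleton_self c
            have h1 : (F \ A).Nonempty := by
              rw [nonempty_iff_ne_empty, ne_eq, sdiff_eq_empty_iff_subset]
              exact fun h => hne' (Subset.antisymm hAF h)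
            have h2 : (F \ A).card < F.card := by
              obtain ⟨a, ha⟩ := hne
              apply card_lt_card
              rw [Finset.ssubset_iff_subset_ne]
              refine ⟨sdiff_subset, fun h => ?_⟩
              have : a ∈ F \ A := by rw [h]; exact hAF ha
              exact (mem_sdiff.1 this).2 ha
            have h3 := (hmin _ h1 h2).1
            have h4 := card_le_card hsub
            rw [card_singleton] at h4
            omega
          obtain ⟨z, hzF, hzA, a, ha, hG⟩ := hex
          have hsub : ({c, z} : Finset V) ⊆ bd (rev H) A := by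
            intro y hy
            simp only [mem_insert, mem_singleton] at hy
            rcases hy with rfl | rfl
            · exact hcb
            · exact mem_bd.2 ⟨hzA, a, ha, (hHF y hzF a).2 hG⟩
          have hcz : c ≠ z := fun e => hcF (e ▸ hzF)
          have := card_le_card hsub
          rwa [Finset.card_pair hcz] at this
        · refine (hmin A hne (hSA A hAF hne')).2.trans (card_le_card ?_)
          intro y hy
          obtain ⟨hy1, b, hb, hG⟩ := mem_bd.1 hy
          have hyF : y ∈ F := by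
            by_contra hyF
            exact hAE ⟨b, hb, (hEbd b).2 ⟨hAF hb, y, hyF, hG⟩⟩
          exact mem_bd.2 ⟨hy1, b, hb, (hHF y hyF b).2 hG⟩
  -- goodness
  have hgood : ∀ z (hz : z ∈ F), Good (sub H S) ⟨z, hFS hz⟩ := by
    intro z hz
    apply sub_good z (hFS hz)
    obtain ⟨P, Q, hs⟩ := hg z
    have hzc : z ≠ c := fun e => hcF (e ▸ hz)
    have harc : ∀ p ∈ P ∩ F, ∀ q ∈ Q, ¬ H p q := by
      intro p hp q hq hpq
      rw [mem_inter] at hp
      exact hs.arc p hp.1 q hq ((hHF p hp.2 q).1 hpq)
    by_cases hcQ : c ∈ Q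
    · -- c in Q
      have hcP : c ∉ P := fun h => hzc (hs.inter c h hcQ).symm
      refine ⟨P ∩ F, Q ∩ S, inter_subset_right.trans hFS, inter_subset_right,
        mem_inter.2 ⟨hs.hP, hz⟩, mem_inter.2 ⟨hs.hQ, hFS hz⟩,
        fun x hx hx' => hs.inter x (mem_inter.1 hx).1 (mem_inter.1 hx').1,
        fun p hp q hq => harc p hp q (mem_inter.1 hq).1, ?_⟩
      refine (card_le_card ?_).trans hs.card
      intro x hx
      have hxF : x ∈ F ∨ x = c := by
        rcases mem_insert.1 (mem_sdiff.1 hx).1 with h | h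
        · exact Or.inr h
        · exact Or.inl h
      have hxS := (mem_sdiff.1 hx).1
      simp only [mem_sdiff, mem_union, mem_inter, mem_compl] at hx ⊢
      rcases hxF with h | h
      · tauto
      · rw [h] at hx ⊢
        tauto
    · by_cases hcP : c ∈ P
      · by_cases hT : ∀ t, t ∉ P → t ∉ Q → t ∈ F
        · -- no arcs out of Q \ F
          have hU : bd (rev G) (Q \ F) = ∅ := by
            rw [eq_empty_iff_forall_notMem]
            intro y hy
            obtain ⟨hy1, b, hb, hG⟩ := mem_bd.1 hy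
            have hG' : G y b := hG
            rw [mem_sdiff] at hb
            have hyP : y ∉ P := fun h => hs.arc y h b hb.1 hG'
            by_cases hyF : y ∈ F
            · rcases hexit y hyF b hG' with h | h
              · exact hb.2 h
              · rw [h] at hb; exact hcQ hb.1
            · by_cases hyQ : y ∈ Q
              · exact hy1 (mem_sdiff.2 ⟨hyQ, hyF⟩)
              · exact hyF (hT y hyP hyQ)
          have hU' := closed_of_rev G 4 hreg (Q \ F) hU
          have hent : ∀ e ∈ Q, ¬ H c e := by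
            intro e he hce
            rw [hHc] at hce
            obtain ⟨heF, g, hgF, hG⟩ := hce
            have hgP : g ∉ P := fun h => hs.arc g h e he hG
            have hgQ : g ∈ Q := by
              by_contra hgQ
              exact hgF (hT g hgP hgQ)
            have : e ∈ bd G (Q \ F) :=
              mem_bd.2 ⟨fun h => (mem_sdiff.1 h).2 heF, g, mem_sdiff.2 ⟨hgQ, hgF⟩, hG⟩
            rw [hU'] at this
            exact absurd this (notMem_empty _)
          refine ⟨P ∩ S, Q ∩ F, inter_subset_right, inter_subset_right.trans hFS,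
            mem_inter.2 ⟨hs.hP, hFS hz⟩, mem_inter.2 ⟨hs.hQ, hz⟩,
            fun x hx hx' => hs.inter x (mem_inter.1 hx).1 (mem_inter.1 hx').1, ?_, ?_⟩
          · intro p hp q hq
            rw [mem_inter] at hp hq
            by_cases hpc : p = c
            · rw [hpc]; exact hent q hq.1
            · exact harc p (mem_inter.2 ⟨hp.1, hSF p hp.2 hpc⟩) q hq.1
          · refine (card_le_card ?_).trans hs.card
            intro x hx
            have hxF : x ∈ F ∨ x = c := by
              rcases mem_insert.1 (mem_sdiff.1 hx).1 with h | h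
              · exact Or.inr h
              · exact Or.inl h
            simp only [mem_sdiff, mem_union, mem_inter, mem_compl] at hx ⊢
            rcases hxF with h | h
            · tauto
            · rw [h] at hx ⊢
              tauto
        · push Not at hT
          obtain ⟨t, htP, htQ, htF⟩ := hT
          refine ⟨P ∩ F, Q ∩ F, inter_subset_right.trans hFS, inter_subset_right.trans hFS,
            mem_inter.2 ⟨hs.hP, hz⟩, mem_inter.2 ⟨hs.hQ, hz⟩,
            fun x hx hx' => hs.inter x (mem_inter.1 hx).1 (mem_inter.1 hx').1,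
            fun p hp q hq => harc p hp q (mem_inter.1 hq).1, ?_⟩
          refine le_trans ?_ hs.card
          have hsub : S \ (P ∩ F ∪ Q ∩ F) ⊆ insert c (((P ∪ Q)ᶜ).erase t) := by
            intro x hx
            by_cases hxc : x = c
            · rw [hxc]; exact mem_insert_self _ _
            · have hxF := hSF x (mem_sdiff.1 hx).1 hxc
              refine mem_insert_of_mem (mem_erase.2 ⟨fun e => htF (e ▸ hxF), ?_⟩)
              simp only [mem_sdiff, mem_union, mem_inter, mem_compl] at hx ⊢
              tauto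
          have h1 := card_le_card hsub
          have h2 := card_insert_le c (((P ∪ Q)ᶜ).erase t)
          have htm : t ∈ (P ∪ Q)ᶜ := by
            rw [mem_compl, mem_union]
            push Not
            exact ⟨htP, htQ⟩
          have h3 := card_erase_add_one htm
          omega
      · -- c in T
        refine ⟨P ∩ F, Q ∩ F, inter_subset_right.trans hFS, inter_subset_right.trans hFS,
          mem_inter.2 ⟨hs.hP, hz⟩, mem_inter.2 ⟨hs.hQ, hz⟩,
          fun x hx hx' => hs.inter x (mem_inter.1 hx).1 (mem_inter.1 hx').1,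
          fun p hp q hq => harc p hp q (mem_inter.1 hq).1, ?_⟩
        refine (card_le_card ?_).trans hs.card
        intro x hx
        have hxF : x ∈ F ∨ x = c := by
          rcases mem_insert.1 (mem_sdiff.1 hx).1 with h | h
          · exact Or.inr h
          · exact Or.inl h
        simp only [mem_sdiff, mem_union, mem_inter, mem_compl] at hx ⊢
        rcases hxF with h | h
        · tauto
        · rw [h]
          tauto
  -- degrees
  have hnb : ∀ z ∈ F, nb H z = nb G z := by
    intro z hz
    ext b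
    rw [mem_nb, mem_nb, hHF z hz]
  have hnbr : ∀ z ∈ F, nb (rev H) z = (nb (rev G) z ∩ F) ∪ (if z ∈ E then {c} else ∅) := by
    intro z hz
    ext a
    rw [mem_nb, mem_union, mem_inter, mem_nb]
    by_cases haF : a ∈ F
    · have hac : a ≠ c := fun e => hcF (e ▸ haF)
      have : rev H z a ↔ rev G z a := hHF a haF z
      rw [this]
      split_ifs with hzE
      · simp [haF, hac]
      · simp [haF]
    · by_cases hac : a = c
      · rw [hac]
        have : rev H z c ↔ z ∈ F ∧ ∃ g, g ∉ F ∧ G g z := hHc z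
        rw [this, ← hEbd z]
        split_ifs with hzE
        · simp [hzE]
        · simp [hzE, hcF]
      · have h1 : ¬ rev H z a := by
          rintro (h | h)
          · exact haF h.1
          · exact hac h.1
        split_ifs with hzE
        · simp [h1, haF, hac]
        · simp [h1, haF]
  set m : V → ℕ := fun z => (nb (rev G) z \ F).card with hm
  have hmE : ∀ z ∈ F, (z ∈ E ↔ 1 ≤ m z) := by
    intro z hz
    rw [hEbd, hm]
    constructor
    · rintro ⟨_, g, hg1, hg2⟩
      exact card_pos.2 ⟨g, mem_sdiff.2 ⟨mem_nb.2 hg2, hg1⟩⟩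
    · intro h
      obtain ⟨g, hg'⟩ := card_pos.1 h
      rw [mem_sdiff, mem_nb] at hg'
      exact ⟨hz, g, hg'.2, hg'.1⟩
  have hindeg : ∀ z ∈ F, m z ≤ 1 → 4 ≤ (nb (rev H) z).card := by
    intro z hz hmz
    rw [hnbr z hz]
    have h1 := card_sdiff_add_card_inter (nb (rev G) z) F
    rw [(hreg z).2] at h1
    have h1' : m z + (nb (rev G) z ∩ F).card = 4 := h1
    split_ifs with hzE
    · rw [card_union_of_disjoint, card_singleton]
      · omega
      · rw [disjoint_singleton_right, mem_inter]
        exact fun h => hcF h.2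
    · rw [union_empty]
      have := (hmE z hz).not.1 hzE
      omega
  have hcin : (nb (rev H) c).card = ∑ z ∈ F, m z := by
    have h1 : ∑ z ∈ F, m z = ∑ z ∈ F, (nb G z \ F).card := arc_count G 4 hreg F
    rw [h1]
    have h2 : ∀ z ∈ F, (nb G z \ F).card = if G z c then 1 else 0 := by
      intro z hz
      split_ifs with hzc
      · rw [card_eq_one]
        refine ⟨c, ?_⟩
        ext y
        rw [mem_sdiff, mem_nb, mem_singleton]
        constructor
        · rintro ⟨h3, h4⟩
          exact (hexit z hz y h3).resolve_left h4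
        · rintro rfl
          exact ⟨hzc, hcF⟩
      · rw [card_eq_zero, eq_empty_iff_forall_notMem]
        intro y hy
        rw [mem_sdiff, mem_nb] at hy
        have := (hexit z hz y hy.1).resolve_left hy.2
        rw [this] at hy
        exact hzc hy.1
    rw [sum_congr rfl h2, ← card_filter]
    congr 1
    ext y
    rw [mem_nb, mem_filter]
    constructor
    · rintro (h | h)
      · exact h
      · exact absurd h.2.1 hcF
    · intro h
      exact Or.inl h
  have hsum4 : ∑ z ∈ F, m z ≤ 4 := by
    rw [← hcin, ← (hreg c).2]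
    apply card_le_card
    intro y hy
    rw [mem_nb] at hy ⊢
    rcases hy with h | h
    · exact h.2
    · exact absurd h.2.1 hcF
  have hnbc : nb H c = E := by
    ext b
    rw [mem_nb, hHc, hEbd]
  -- translation of degrees
  have hdeg1 : ∀ v : {v // v ∈ S}, (nb (sub H S) v).card = (nb H v.1).card := by
    intro v
    rw [← card_up, up_nb hcl]
  have hdeg2 : ∀ v : {v // v ∈ S}, (nb (rev (sub H S)) v).card = (nb (rev H) v.1).card := by
    intro v
    have : up (nb (rev (sub H S)) v) = nb (rev H) v.1 := up_nb hcl.rev v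
    rw [← card_up, this]
  have hvF : ∀ v : {v // v ∈ S}, v ≠ ⟨c, hcS⟩ → v.1 ∈ F := fun v hv =>
    hSF v.1 v.2 fun e => hv (Subtype.ext e)
  have hgood' : ∀ v : {v // v ∈ S}, v ≠ ⟨c, hcS⟩ → Good (sub H S) v := fun v hv =>
    hgood v.1 (hvF v hv)
  have hlH : ∀ v : {v // v ∈ S}, ¬ sub H S v v := by
    intro v h
    rcases h with h | h
    · exact hl v.1 h.2
    · rw [h.1] at h
      exact hcF h.2.1
  have hout : ∀ v : {v // v ∈ S}, v ≠ ⟨c, hcS⟩ → 4 ≤ (nb (sub H S) v).card := by
    intro v hv
    rw [hdeg1, hnb v.1 (hvF v hv)]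
    exact (hreg v.1).1.ge
  have hz0c' : z0 ≠ c := fun e => hcF (e ▸ hz0)
  by_cases hall : ∀ z ∈ F, m z ≤ 1
  · refine L1 (sub H S) hlH htwo ⟨c, hcS⟩ (fun v hv => ⟨hout v hv, ?_⟩) hgood' ?_
    · rw [hdeg2]
      exact hindeg v.1 (hvF v hv) (hall v.1 (hvF v hv))
    · exact ⟨⟨z0, hFS hz0⟩, fun e => hz0c' (congrArg Subtype.val e)⟩
  · push Not at hall
    obtain ⟨x, hx, hmx⟩ := hall
    have hxc : x ≠ c := fun e => hcF (e ▸ hx)
    by_cases hE2 : E.card ≤ 2
    · -- LC
      let Φ : Finset {v // v ∈ S} := univ.filter fun v => v.1 = c ∨ (v.1 ∈ F ∧ 2 ≤ m v.1)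
      have hΦ : ∀ v : {v // v ∈ S}, v ∈ Φ ↔ (v.1 = c ∨ (v.1 ∈ F ∧ 2 ≤ m v.1)) := by
        intro v; simp [Φ]
      have hΦc : (⟨c, hcS⟩ : {v // v ∈ S}) ∈ Φ := (hΦ _).2 (Or.inl rfl)
      refine LC (sub H S) hlH htwo ⟨c, hcS⟩ ⟨x, hFS hx⟩ Φ hΦc
        ((hΦ _).2 (Or.inr ⟨hx, hmx⟩)) (fun e => hxc (congrArg Subtype.val e)) ?_ hout ?_ ?_ ?_
      · intro z hz hzc
        have h1 : z.1 ∈ F := hvF z hzc
        have h2 : 2 ≤ m z.1 := by
          rcases (hΦ z).1 hz with h | h
          · rw [h] at h1; exact absurd h1 hcF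
          · exact h.2
        exact (hHc z.1).2 ((hEbd z.1).1 ((hmE z.1 h1).2 (by omega)))
      · intro v hv
        have hvc : v ≠ ⟨c, hcS⟩ := fun e => hv (e ▸ hΦc)
        rw [hdeg2]
        apply hindeg v.1 (hvF v hvc)
        by_contra hcon
        exact hv ((hΦ v).2 (Or.inr ⟨hvF v hvc, by omega⟩))
      · intro v hv
        exact hgood' v fun e => hv (e ▸ hΦc)
      · rw [hdeg1]
        change (nb H c).card ≤ 2
        rw [hnbc]
        exact hE2
    · -- LP4
      have hEF : E ⊆ F := fun e he => ((hEbd e).1 he).1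
      have hxE : x ∈ E := (hmE x hx).2 (by omega)
      have hge : ∀ y ∈ E, 1 ≤ m y := fun y hy => (hmE y (hEF hy)).1 hy
      have hothers : ∀ y ∈ F, y ≠ x → m y ≤ 1 := by
        intro y hy hyx
        by_contra hmy
        have hyE : y ∈ E := (hmE y hy).2 (by omega)
        have h1 : ∃ w ∈ E, w ≠ x ∧ w ≠ y := by
          by_contra hcon
          push Not at hcon
          have : E ⊆ {x, y} := by
            intro w hw
            rw [mem_insert, mem_singleton]
            by_cases hwx : w = x
            · exact Or.inl hwx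
            · exact Or.inr (hcon w hw hwx)
          have := card_le_card this
          have := card_le_two (a := x) (b := y)
          omega
        obtain ⟨w, hw, hwx, hwy⟩ := h1
        have hsub : ({x, y, w} : Finset V) ⊆ F := by
          intro t ht
          simp only [mem_insert, mem_singleton] at ht
          rcases ht with rfl | rfl | rfl
          · exact hx
          · exact hy
          · exact hEF hw
        have h2 := sum_le_sum_of_subset (f := m) hsub
        rw [sum_insert (by simp [hyx.symm, hwx.symm]), sum_insert (by simp [hwy.symm]),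
          sum_singleton] at h2
        have := hge w hw
        omega
      have hsum : 4 ≤ ∑ z ∈ F, m z := by
        have h2 := sum_le_sum_of_subset (f := m) hEF
        have h3 := add_sum_erase E m hxE
        have h4 : ∑ z ∈ E.erase x, 1 ≤ ∑ z ∈ E.erase x, m z :=
          sum_le_sum fun y hy => hge y (mem_erase.1 hy).2
        rw [sum_const, smul_eq_mul, mul_one, card_erase_of_mem hxE] at h4
        omega
      refine LP4 (sub H S) hlH htwo ⟨c, hcS⟩ ⟨x, hFS hx⟩ ((hHc x).2 ((hEbd x).1 hxE))
        (fun v hv hvx => ⟨hout v hv, ?_⟩) (hout _ fun e => hxc (congrArg Subtype.val e)) ?_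
        (fun v hv _ => hgood' v hv)
      · rw [hdeg2]
        exact hindeg v.1 (hvF v hv) (hothers v.1 (hvF v hv) fun e => hvx (Subtype.ext e))
      · rw [hdeg2]
        change 4 ≤ (nb (rev H) c).card
        rw [hcin]
        exact hsum

end Red

/-- PART 9 : reduction -/
theorem reduce {V : Type} [Fintype V] [DecidableEq V] (G : V → V → Prop) (hl : ∀ v, ¬ G v v)
    (hreg : ∀ v, (nb G v).card = 4 ∧ (nb (rev G) v).card = 4)
    (hg : ∀ v, Good G v) (hne : Nonempty V) : False := by
  classical
  have hreg' : ∀ v, (nb (rev G) v).card = 4 ∧ (nb (rev (rev G)) v).card = 4 :=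
    fun v => ⟨(hreg v).2, (hreg v).1⟩
  obtain ⟨F, hF, hFmin⟩ := exists_min_image
    (univ.filter fun A : Finset V => A.Nonempty ∧ ((bd G A).card ≤ 1 ∨ (bd (rev G) A).card ≤ 1))
    card ⟨univ, by
      rw [mem_filter]
      refine ⟨mem_univ _, univ_nonempty, Or.inl ?_⟩
      have : bd G univ = ∅ := by
        rw [eq_empty_iff_forall_notMem]
        intro x hx
        exact (mem_bd.1 hx).1 (mem_univ x)
      rw [this]; simp⟩
  obtain ⟨-, hFne, hFd⟩ := mem_filter.1 hF
  have hmin : ∀ A : Finset V, A.Nonempty → A.card < F.card → 2 ≤ (bd G A).card ∧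
      2 ≤ (bd (rev G) A).card := by
    intro A hA hlt
    by_contra hcon
    have := hFmin A (mem_filter.2 ⟨mem_univ _, hA, by omega⟩)
    omega
  have aux : ∀ G' : V → V → Prop, (∀ v, ¬ G' v v) →
      (∀ v, (nb G' v).card = 4 ∧ (nb (rev G') v).card = 4) → (∀ v, Good G' v) →
      (bd G' F).card ≤ 1 → (∀ A : Finset V, A.Nonempty → A.card < F.card → 2 ≤ (bd G' A).card ∧
      2 ≤ (bd (rev G') A).card) → False := by
    intro G' h1 h2 h3 h4 h5
    rcases Nat.lt_or_ge (bd G' F).card 1 with h6 | h6
    · exact Red.caseA G' h1 h2 h3 F hFne (card_eq_zero.1 (by omega)) h5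
    · obtain ⟨c, hc⟩ := card_eq_one.1 (le_antisymm h4 h6)
      exact Red.caseB G' h1 h2 h3 F hFne c hc h5
  rcases hFd with h | h
  · exact aux G hl hreg hg h hmin
  · exact aux (rev G) hl hreg' (fun v => (hg v).rev) h
      (fun A hA hlt => ⟨(hmin A hA hlt).2, (hmin A hA hlt).1⟩)

end Pool.Agent.Helper901.Sey
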