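import Pool.Agent.Helper901.Sey.Core

set_option autoImplicit false
set_option linter.unusedSectionVars false

open Finset

namespace Pool.Agent.Helper901.Sey

variable {V : Type} [Fintype V] [DecidableEq V]

/-- a set containing no in-arcs to one of its vertices -/
theorem noin_W {G : V → V → Prop} (hl : ∀ v, ¬ G v v) {W : Finset V}
    (hd : (bd G W).card ≤ 2) (hmin : ∀ Z, Z ⊂ W → Z.Nonempty → 3 ≤ (bd G Z).card)
    (hout : ∀ u ∈ W, 4 ≤ (nb G u).card) {u : V} (hu : u ∈ W) (h : ∀ a ∈ W, ¬ G a u) : False := by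
  have h1 := card_le_card (bd_erase_sub h)
  by_cases hne : (W.erase u).Nonempty
  · have h2 := hmin _ (erase_ssubset hu) hne
    omega
  · rw [not_nonempty_iff_eq_empty] at hne
    have h3 : W = {u} := by
      ext v
      rw [mem_singleton]
      constructor
      · intro hv
        by_contra hvu
        have : v ∈ W.erase u := mem_erase.2 ⟨hvu, hv⟩
        rw [hne] at this
        exact absurd this (notMem_empty _)
      · rintro rfl; exact hu
    have h4 := hout u hu
    rw [h3, bd_singleton hl] at hd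
    omega

theorem card_compl_split {V : Type} [Fintype V] [DecidableEq V] {G : V → V → Prop} {u : V}
    {P Q : Finset V} (h : Sep G u P Q) : (Pᶜ).card + 1 = ((P ∪ Q)ᶜ).card + Q.card := by
  have h1 : Pᶜ = (P ∪ Q)ᶜ ∪ Q.erase u := by
    ext v
    simp only [mem_compl, mem_union, mem_erase, not_or]
    constructor
    · intro hv
      by_cases hq : v ∈ Q
      · refine Or.inr ⟨?_, hq⟩
        rintro rfl
        exact hv h.hP
      · exact Or.inl ⟨hv, hq⟩
    · rintro (⟨h1, _⟩ | ⟨h1, h2⟩)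
      · exact h1
      · intro hp
        exact h1 (h.inter v hp h2)
  have h2 : Disjoint ((P ∪ Q)ᶜ) (Q.erase u) := by
    rw [disjoint_left]
    intro v hv hv2
    simp only [mem_compl, mem_union, not_or] at hv
    exact hv.2 (mem_of_mem_erase hv2)
  rw [h1, card_union_of_disjoint h2, card_erase_of_mem h.hQ]
  have : 1 ≤ Q.card := card_pos.2 ⟨u, h.hQ⟩
  omega

theorem card_compl_union {V : Type} [Fintype V] [DecidableEq V] (P X : Finset V) :
    (Pᶜ).card = ((P ∪ X)ᶜ).card + (X \ P).card := by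
  have h1 : Pᶜ = (P ∪ X)ᶜ ∪ (X \ P) := by
    ext v
    simp only [mem_compl, mem_union, mem_sdiff, not_or]
    tauto
  have h2 : Disjoint ((P ∪ X)ᶜ) (X \ P) := by
    rw [disjoint_left]
    intro v hv hv2
    simp only [mem_compl, mem_union, not_or, mem_sdiff] at hv hv2
    exact hv.2 hv2.1
  rw [h1, card_union_of_disjoint h2]

/-- counting used for both orientations -/
theorem count_Q {V : Type} [Fintype V] [DecidableEq V] {G : V → V → Prop} {u : V}
    {P Q X : Finset V} (h : Sep G u P Q) (hu : u ∈ X) (h2 : ((P ∪ X)ᶜ).card ≤ 2) :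
    ((P ∪ Q)ᶜ).card + Q.card ≤ X.card + 2 := by
  have h3 := card_compl_split h
  have h4 := card_compl_union P X
  have h5 : (X \ P).card + 1 ≤ X.card := by
    have : X \ P ⊆ X.erase u := by
      intro v hv
      rw [mem_sdiff] at hv
      refine mem_erase.2 ⟨?_, hv.1⟩
      rintro rfl
      exact hv.2 h.hP
    have h6 := card_le_card this
    rw [card_erase_of_mem hu] at h6
    have : 1 ≤ X.card := card_pos.2 ⟨u, hu⟩
    omega
  omega

theorem two_le_T {G : V → V → Prop} (h2 : Two G) {u : V} {P Q : Finset V} (h : Sep G u P Q)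
    (hout : 4 ≤ (nb G u).card) : 2 ≤ ((P ∪ Q)ᶜ).card := by
  have h1 : nb G u ⊆ Qᶜ := by
    intro v hv
    rw [mem_nb] at hv
    rw [mem_compl]
    intro hq
    exact h.arc u h.hP v hq hv
  have h3 := card_le_card h1
  have h4 := h2.inn Q ⟨u, h.hQ⟩
  have h5 := card_le_card (bdrev_sub_of_noarc h.arc)
  omega

/-- O-type separations inside W have order at least three -/
theorem three_le_T {G : V → V → Prop} (hl : ∀ v, ¬ G v v) {W : Finset V}
    (hd : (bd G W).card ≤ 2) (hmin : ∀ Z, Z ⊂ W → Z.Nonempty → 3 ≤ (bd G Z).card)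
    (hout : ∀ u ∈ W, 4 ≤ (nb G u).card) {u : V} {P Q : Finset V} (h : Sep G u P Q)
    (hu : u ∈ W) (hPW : P ⊆ W) : P ⊂ W ∧ 3 ≤ ((P ∪ Q)ᶜ).card := by
  have h1 : P ⊂ W := by
    refine hPW.ssubset_of_ne ?_
    rintro rfl
    exact noin_W hl hd hmin hout hu (fun a ha => h.arc a ha u h.hQ)
  refine ⟨h1, ?_⟩
  exact le_trans (hmin P h1 ⟨u, h.hP⟩) (card_le_card (bd_sub_of_noarc h.arc))


/-- membership in the family of near in-sets -/
def NearIn (G : V → V → Prop) (W Φ X : Finset V) : Prop :=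
  Disjoint X Φ ∧ (X ∩ W).Nonempty ∧ (bd (rev G) X).card ≤ 3 ∧
    ((X ∪ bd (rev G) X) \ W).card ≤ 1

theorem far_sub {G : V → V → Prop} {u : V} {P Q W : Finset V} (h : Sep G u P Q) (hu : u ∈ W) :
    (Q ∪ bd (rev G) Q) \ W ⊆ (P ∪ W)ᶜ := by
  intro v hv
  simp only [mem_sdiff, mem_union, mem_compl, not_or] at hv ⊢
  obtain ⟨h1, h2⟩ := hv
  refine ⟨?_, h2⟩
  rcases h1 with h1 | h1
  · intro hp
    have := h.inter v hp h1
    subst this
    exact h2 hu
  · have := bdrev_sub_of_noarc h.arc h1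
    simp only [mem_union, mem_compl, not_or] at this
    exact this.1

theorem nearIn_of_N {G : V → V → Prop} {u : V} {P Q W Φ : Finset V} (h : Sep G u P Q)
    (hu : u ∈ W) (h1 : ((P ∪ W)ᶜ).card ≤ 1) (h2 : Disjoint Q Φ) : NearIn G W Φ Q := by
  refine ⟨h2, ⟨u, mem_inter.2 ⟨h.hQ, hu⟩⟩, ?_, ?_⟩
  · exact le_trans (card_le_card (bdrev_sub_of_noarc h.arc)) h.card
  · exact le_trans (card_le_card (far_sub h hu)) h1

/-- steps (2) and (3) of the proof, N-type vertex -/
theorem key_N {G : V → V → Prop} (hl : ∀ v, ¬ G v v) (h2 : Two G) {W Φ : Finset V}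
    (hout : ∀ u ∈ W, 4 ≤ (nb G u).card)
    (hy : ∀ y, y ∉ W → y ∉ Φ → nb (rev G) y ⊆ W → 4 ≤ (nb (rev G) y).card)
    (h5 : ∀ R, (R ∩ W).Nonempty → Disjoint R Φ → (bd (rev G) R).card ≤ 2 →
      (W ∩ Φ).card + 2 ≤ ((R ∪ bd (rev G) R) \ W).card)
    {X : Finset V} (hX : (bd G X).card ≤ 3) {u : V} (hu : u ∈ X) (huW : u ∈ W)
    {P Q : Finset V} (h : Sep G u P Q)
    (h4 : 4 ≤ (bd G (P ∩ X)).card) (hN : ((P ∪ W)ᶜ).card ≤ 1) (hQ : Disjoint Q Φ) :
    Q.card ≤ X.card := by
  obtain ⟨hs1, hs2⟩ := step h X hX h4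
  set M := Q.erase u ∩ (X ∪ bd G X)ᶜ with hM
  have hMP : ∀ m ∈ M, m ∉ P := by
    intro m hm hp
    rw [hM, mem_inter, mem_erase] at hm
    exact hm.1.1 (h.inter m hp hm.1.2)
  have hMΦ : Disjoint M Φ := by
    refine disjoint_of_subset_left ?_ hQ
    intro m hm
    rw [hM, mem_inter, mem_erase] at hm
    exact hm.1.2
  have hbM : bd (rev G) M ⊆ ((P ∪ X) ∪ M)ᶜ := bdrev_sub_of_noarc hs2
  have hbM2 : (bd (rev G) M).card ≤ 2 := le_trans (card_le_card hbM) hs1
  have hfar : (M ∪ bd (rev G) M) \ W ⊆ (P ∪ W)ᶜ := by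
    intro v hv
    simp only [mem_sdiff, mem_union] at hv
    simp only [mem_union, mem_compl, not_or]
    refine ⟨?_, hv.2⟩
    rcases hv.1 with h1 | h1
    · exact hMP v h1
    · have := hbM h1
      simp only [mem_union, mem_compl, not_or] at this
      exact this.1.1
  have hMe : M = ∅ := by
    by_contra hne
    rw [← ne_eq, ← nonempty_iff_ne_empty] at hne
    by_cases hMW : (M ∩ W).Nonempty
    · have h6 := h5 M hMW hMΦ hbM2
      have h7 := card_le_card hfar
      omega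
    · rw [not_nonempty_iff_eq_empty] at hMW
      obtain ⟨m, hm⟩ := hne
      have hmW : m ∉ W := by
        intro hw
        have : m ∈ M ∩ W := mem_inter.2 ⟨hm, hw⟩
        rw [hMW] at this
        exact absurd this (notMem_empty _)
      have huniq : ∀ v, v ∉ P → v ∉ W → v = m := by
        intro v hv1 hv2
        have ha : v ∈ (P ∪ W)ᶜ := by
          simp only [mem_union, mem_compl, not_or]; exact ⟨hv1, hv2⟩
        have hb : m ∈ (P ∪ W)ᶜ := by
          simp only [mem_union, mem_compl, not_or]; exact ⟨hMP m hm, hmW⟩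
        exact card_le_one.1 hN v ha m hb
      have hnb : nb (rev G) m ⊆ W := by
        intro a ha
        rw [mem_nb] at ha
        by_contra hw
        by_cases hp : a ∈ P
        · exact hs2 a (mem_union_left _ hp) m hm ha
        · have := huniq a hp hw
          subst this
          exact hl _ ha
      have h6 := hy m hmW (disjoint_left.1 hMΦ hm) hnb
      have h7 : nb (rev G) m ⊆ bd (rev G) M := by
        intro a ha
        rw [mem_bd]
        refine ⟨?_, m, hm, mem_nb.1 ha⟩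
        intro haM
        have : a ∈ M ∩ W := mem_inter.2 ⟨haM, hnb ha⟩
        rw [hMW] at this
        exact absurd this (notMem_empty _)
      have h8 := card_le_card h7
      omega
  rw [hMe, union_empty] at hs1
  have h6 := count_Q h hu hs1
  have h7 := two_le_T h2 h (hout u huW)
  omega

/-- steps (2) and (3) of the proof, O-type vertex -/
theorem key_O {G : V → V → Prop} {W : Finset V}
    (hmin : ∀ Z, Z ⊂ W → Z.Nonempty → 3 ≤ (bd G Z).card)
    {X : Finset V} (hXW : X ⊆ W) (hX : (bd G X).card ≤ 3) {u : V}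
    {P Q : Finset V} (h : Sep G u P Q)
    (h4 : 4 ≤ (bd G (P ∩ X)).card) (hP : P ⊆ W) : P ∪ X = W := by
  obtain ⟨hs1, hs2⟩ := step h X hX h4
  by_contra hne
  have h1 : P ∪ X ⊂ W := (union_subset hP hXW).ssubset_of_ne hne
  have h3 := hmin _ h1 ⟨u, mem_union_left _ h.hP⟩
  have h6 := card_le_card (bd_sub_of_noarc hs2)
  omega


/-- step (1): the uncrossed set has in-boundary at least four -/
theorem near_four {G : V → V → Prop} (hl : ∀ v, ¬ G v v) {W Φ : Finset V}
    (hin : ∀ u ∈ W, u ∉ Φ → 4 ≤ (nb (rev G) u).card)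
    (hy : ∀ y, y ∉ W → y ∉ Φ → nb (rev G) y ⊆ W → 4 ≤ (nb (rev G) y).card)
    {X' : Finset V} (hX' : NearIn G W Φ X')
    (hXmin : ∀ Z, NearIn G W Φ Z → X'.card ≤ Z.card)
    {u : V} (hu : u ∈ X') (huW : u ∈ W) {P Q : Finset V} (h : Sep G u P Q) :
    4 ≤ (bd (rev G) (Q ∩ X')).card := by
  obtain ⟨hd1, hd2, hd3, hd4⟩ := hX'
  by_contra hcon
  have hle : (bd (rev G) (Q ∩ X')).card ≤ 3 := by omega
  have hnear : NearIn G W Φ (Q ∩ X') := by
    refine ⟨disjoint_of_subset_left inter_subset_right hd1,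
      ⟨u, mem_inter.2 ⟨mem_inter.2 ⟨h.hQ, hu⟩, huW⟩⟩, hle, ?_⟩
    refine le_trans (card_le_card ?_) hd4
    intro v hv
    simp only [mem_sdiff, mem_union, mem_inter, mem_bd] at hv ⊢
    obtain ⟨h1, h2⟩ := hv
    refine ⟨?_, h2⟩
    rcases h1 with h1 | ⟨h1, a, ha, hG⟩
    · exact Or.inl h1.2
    · by_cases hvX : v ∈ X'
      · exact Or.inl hvX
      · exact Or.inr ⟨hvX, a, ha.2, hG⟩
  have h1 := hXmin _ hnear
  have h2 : Q ∩ X' = X' := eq_of_subset_of_card_le inter_subset_right h1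
  have hXQ : X' ⊆ Q := by
    intro v hv
    rw [← h2] at hv
    exact (mem_inter.1 hv).1
  have hna : ∀ a ∈ X', ¬ (rev G) a u := fun a ha hG => h.arc u h.hP a (hXQ ha) hG
  have hbs := bd_erase_sub (G := rev G) hna
  have hΦu : u ∉ Φ := disjoint_left.1 hd1 hu
  have h4u := hin u huW hΦu
  have hnonempty : (X'.erase u).Nonempty := by
    rw [nonempty_iff_ne_empty]
    intro he
    have h3 : X' = {u} := by
      ext v
      rw [mem_singleton]
      constructor
      · intro hv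
        by_contra hvu
        have : v ∈ X'.erase u := mem_erase.2 ⟨hvu, hv⟩
        rw [he] at this
        exact absurd this (notMem_empty _)
      · rintro rfl; exact hu
    rw [h3, bd_singleton (G := rev G) (fun v => hl v)] at hd3
    omega
  have hcard : (X'.erase u).card < X'.card := card_erase_lt_of_mem hu
  have hsub : (X'.erase u ∪ bd (rev G) (X'.erase u)) \ W ⊆ (X' ∪ bd (rev G) X') \ W := by
    intro v hv
    simp only [mem_sdiff, mem_union] at hv ⊢
    obtain ⟨h1, h2⟩ := hv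
    refine ⟨?_, h2⟩
    rcases h1 with h1 | h1
    · exact Or.inl (mem_of_mem_erase h1)
    · exact Or.inr (hbs h1)
  by_cases hmeet : (X'.erase u ∩ W).Nonempty
  · have : NearIn G W Φ (X'.erase u) :=
      ⟨disjoint_of_subset_left (erase_subset _ _) hd1, hmeet,
        le_trans (card_le_card hbs) hd3, le_trans (card_le_card hsub) hd4⟩
    have := hXmin _ this
    omega
  · rw [not_nonempty_iff_eq_empty] at hmeet
    obtain ⟨y, hy1⟩ := hnonempty
    have hyW : y ∉ W := by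
      intro hw
      have : y ∈ X'.erase u ∩ W := mem_inter.2 ⟨hy1, hw⟩
      rw [hmeet] at this
      exact absurd this (notMem_empty _)
    have hyX : y ∈ X' := mem_of_mem_erase hy1
    have hyΦ : y ∉ Φ := disjoint_left.1 hd1 hyX
    have huniq : ∀ v, v ∈ X' ∪ bd (rev G) X' → v ∉ W → v = y := by
      intro v hv1 hv2
      exact card_le_one.1 hd4 v (mem_sdiff.2 ⟨hv1, hv2⟩) y
        (mem_sdiff.2 ⟨mem_union_left _ hyX, hyW⟩)
    have hnbsub : nb (rev G) y ⊆ bd (rev G) X' ∩ W := by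
      intro a ha
      have haG : G a y := by
        rw [mem_nb] at ha
        exact ha
      have hay : a ≠ y := by
        rintro rfl
        exact hl _ haG
      have haX : a ∈ X' ∪ bd (rev G) X' := by
        by_cases hax : a ∈ X'
        · exact mem_union_left _ hax
        · exact mem_union_right _ (mem_bd.2 ⟨hax, y, hyX, haG⟩)
      have haW : a ∈ W := by
        by_contra hw
        exact hay (huniq a haX hw)
      refine mem_inter.2 ⟨?_, haW⟩
      rcases mem_union.1 haX with hax | hax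
      · exfalso
        have hau : a = u := by
          by_contra hne
          have : a ∈ X'.erase u ∩ W := mem_inter.2 ⟨mem_erase.2 ⟨hne, hax⟩, haW⟩
          rw [hmeet] at this
          exact absurd this (notMem_empty _)
        subst hau
        exact h.arc a h.hP y (hXQ hyX) haG
      · exact hax
    have h6 := hy y hyW hyΦ (fun a ha => (mem_inter.1 (hnbsub ha)).2)
    have h7 := card_le_card (fun a ha => (mem_inter.1 (hnbsub ha)).1 :
      nb (rev G) y ⊆ bd (rev G) X')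
    omega

/-- step (1), O-type vertex -/
theorem near_O {G : V → V → Prop} (hl : ∀ v, ¬ G v v) {W Φ : Finset V}
    (hd : (bd G W).card ≤ 2)
    (hmin : ∀ Z, Z ⊂ W → Z.Nonempty → 3 ≤ (bd G Z).card)
    (hout : ∀ u ∈ W, 4 ≤ (nb G u).card)
    {X' : Finset V} (hX' : NearIn G W Φ X')
    {u : V} (hu : u ∈ X') (huW : u ∈ W) {P Q : Finset V} (h : Sep G u P Q)
    (h4 : 4 ≤ (bd (rev G) (Q ∩ X')).card) (hPW : P ⊆ W) :
    ((Q ∪ X')ᶜ).card ≤ 2 ∧ P.card + 1 ≤ X'.card := by
  obtain ⟨hs1, hs2⟩ := step h.rev X' hX'.2.2.1 h4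
  set N := P.erase u ∩ (X' ∪ bd (rev G) X')ᶜ with hN
  obtain ⟨hPs, hT⟩ := three_le_T hl hd hmin hout h huW hPW
  have hNP : N ⊆ P := fun v hv => mem_of_mem_erase (mem_inter.1 hv).1
  have hNe : N = ∅ := by
    by_contra hne
    rw [← ne_eq, ← nonempty_iff_ne_empty] at hne
    have h1 : N ⊂ W := lt_of_le_of_lt hNP hPs
    have h3 := hmin N h1 hne
    have h6 := card_le_card (bdrev_sub_of_noarc (G := rev G) hs2)
    rw [rev_rev] at h6
    omega
  rw [hNe, union_empty] at hs1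
  refine ⟨hs1, ?_⟩
  have h6 := count_Q h.rev hu hs1
  rw [union_comm Q P] at h6
  omega

/-- step (1), N-type vertex -/
theorem near_N {G : V → V → Prop} {W Φ : Finset V}
    (h5 : ∀ R, (R ∩ W).Nonempty → Disjoint R Φ → (bd (rev G) R).card ≤ 2 →
      (W ∩ Φ).card + 2 ≤ ((R ∪ bd (rev G) R) \ W).card)
    {X' : Finset V} (hX' : NearIn G W Φ X')
    {u : V} (huW : u ∈ W) {P Q : Finset V} (h : Sep G u P Q)
    (h4 : 4 ≤ (bd (rev G) (Q ∩ X')).card)
    (hN : ((P ∪ W)ᶜ).card ≤ 1) (hQ : Disjoint Q Φ) :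
    (W ∩ Φ).card = 0 ∧ ∃ y, y ∈ (X' ∪ bd (rev G) X') \ W ∧ y ∈ P := by
  obtain ⟨hs1, hs2⟩ := step h.rev X' hX'.2.2.1 h4
  set N := P.erase u ∩ (X' ∪ bd (rev G) X')ᶜ with hNdef
  have hb : bd (rev G) (Q ∪ X') ⊆ ((Q ∪ X') ∪ N)ᶜ := bd_sub_of_noarc hs2
  have hR : (bd (rev G) (Q ∪ X')).card ≤ 2 := le_trans (card_le_card hb) hs1
  have hRΦ : Disjoint (Q ∪ X') Φ := disjoint_union_left.2 ⟨hQ, hX'.1⟩
  have hRW : ((Q ∪ X') ∩ W).Nonempty := ⟨u, mem_inter.2 ⟨mem_union_left _ h.hQ, huW⟩⟩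
  have h6 := h5 _ hRW hRΦ hR
  have hsub : ((Q ∪ X') ∪ bd (rev G) (Q ∪ X')) \ W ⊆
      (P ∪ W)ᶜ ∪ ((X' ∪ bd (rev G) X') \ W) := by
    intro v hv
    obtain ⟨hv1, hv2⟩ := mem_sdiff.1 hv
    have hvN : v ∉ N := by
      rcases mem_union.1 hv1 with h1 | h1
      · intro hvN
        rw [hNdef, mem_inter, mem_erase] at hvN
        rcases mem_union.1 h1 with h1 | h1
        · exact hvN.1.1 (h.inter v hvN.1.2 h1)
        · have := hvN.2
          simp only [mem_compl, mem_union, not_or] at this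
          exact this.1 h1
      · have := hb h1
        simp only [mem_compl, mem_union, not_or] at this
        exact this.2
    by_cases hvP : v ∈ P
    · refine mem_union_right _ ?_
      have hvu : v ≠ u := by
        rintro rfl
        exact hv2 huW
      by_contra hcon
      apply hvN
      rw [hNdef, mem_inter, mem_erase]
      refine ⟨⟨hvu, hvP⟩, ?_⟩
      rw [mem_compl]
      intro hx
      exact hcon (mem_sdiff.2 ⟨hx, hv2⟩)
    · refine mem_union_left _ ?_
      simp only [mem_compl, mem_union, not_or]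
      exact ⟨hvP, hv2⟩
  have h7 := card_le_card hsub
  have h8 := card_union_add_card_inter ((P ∪ W)ᶜ) ((X' ∪ bd (rev G) X') \ W)
  have h9 := hX'.2.2.2
  refine ⟨by omega, ?_⟩
  have h10 : ((X' ∪ bd (rev G) X') \ W).card = 1 := by omega
  have h11 : ((P ∪ W)ᶜ ∩ ((X' ∪ bd (rev G) X') \ W)).card = 0 := by omega
  obtain ⟨y, hy⟩ := card_eq_one.1 h10
  have hy1 : y ∈ (X' ∪ bd (rev G) X') \ W := by rw [hy]; exact mem_singleton_self _
  refine ⟨y, hy1, ?_⟩
  by_contra hP
  rw [card_eq_zero] at h11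
  have : y ∈ (P ∪ W)ᶜ ∩ ((X' ∪ bd (rev G) X') \ W) := by
    refine mem_inter.2 ⟨?_, hy1⟩
    simp only [mem_compl, mem_union, not_or]
    exact ⟨hP, (mem_sdiff.1 hy1).2⟩
  rw [h11] at this
  exact absurd this (notMem_empty _)


/-- small out-sets inside W -/
def SmallOut (G : V → V → Prop) (W X : Finset V) : Prop :=
  X.Nonempty ∧ X ⊆ W ∧ (bd G X).card ≤ 3

theorem exists_min_card (p : Finset V → Prop) (h : ∃ X, p X) :
    ∃ X, p X ∧ ∀ Z, p Z → X.card ≤ Z.card := by
  classical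
  obtain ⟨X0, h0⟩ := h
  have hne : (univ.filter (fun X : Finset V => p X)).Nonempty := ⟨X0, by simp [h0]⟩
  obtain ⟨X, hX, hmin⟩ := exists_min_image _ (fun X : Finset V => X.card) hne
  refine ⟨X, (mem_filter.1 hX).2, fun Z hZ => hmin Z (by simp [hZ])⟩

theorem smallOut_erase {G : V → V → Prop} (hl : ∀ v, ¬ G v v) {W : Finset V}
    (hout : ∀ u ∈ W, 4 ≤ (nb G u).card) {X : Finset V} (hX : SmallOut G W X) {u : V}
    (hu : u ∈ X) (hna : ∀ a ∈ X, ¬ G a u) : SmallOut G W (X.erase u) := by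
  obtain ⟨h1, h2, h3⟩ := hX
  refine ⟨?_, (erase_subset _ _).trans h2, le_trans (card_le_card (bd_erase_sub hna)) h3⟩
  rw [nonempty_iff_ne_empty]
  intro he
  have h4 : X = {u} := by
    ext v
    rw [mem_singleton]
    constructor
    · intro hv
      by_contra hvu
      have : v ∈ X.erase u := mem_erase.2 ⟨hvu, hv⟩
      rw [he] at this
      exact absurd this (notMem_empty _)
    · rintro rfl; exact hu
  have h5 := hout u (h2 hu)
  rw [h4, bd_singleton hl] at h3
  omega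

theorem SM (G : V → V → Prop) (hl : ∀ v, ¬ G v v) (h2 : Two G) (W Φ : Finset V)
    (hd : (bd G W).card ≤ 2)
    (hmin : ∀ Z, Z ⊂ W → Z.Nonempty → 3 ≤ (bd G Z).card)
    (hout : ∀ u ∈ W, 4 ≤ (nb G u).card)
    (hin : ∀ u ∈ W, u ∉ Φ → 4 ≤ (nb (rev G) u).card)
    (hy : ∀ y, y ∉ W → y ∉ Φ → nb (rev G) y ⊆ W → 4 ≤ (nb (rev G) y).card)
    (hsep : ∀ u ∈ W, u ∉ Φ → ∃ P Q, Sep G u P Q ∧
      (P ⊆ W ∨ (((P ∪ W)ᶜ).card ≤ 1 ∧ Disjoint Q Φ)))
    (hΦ : (W ∩ Φ).card ≤ 1) (hne : (W \ Φ).Nonempty)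
    (h5 : ∀ R, (R ∩ W).Nonempty → Disjoint R Φ → (bd (rev G) R).card ≤ 2 →
      (W ∩ Φ).card + 2 ≤ ((R ∪ bd (rev G) R) \ W).card) : False := by
  classical
  -- step (1)
  have S1 : ∀ X', NearIn G W Φ X' → (∀ Z, NearIn G W Φ Z → X'.card ≤ Z.card) →
      ∃ u ∈ X', u ∈ W ∧ ∃ P Q, Sep G u P Q ∧ P ⊆ W ∧ P.card + 1 ≤ X'.card := by
    intro X' hX' hXm
    by_contra hcon
    push Not at hcon
    have hN : ∀ u ∈ X', u ∈ W → ∃ P Q, Sep G u P Q ∧ (W ∩ Φ).card = 0 ∧
        ∃ y, y ∈ (X' ∪ bd (rev G) X') \ W ∧ y ∈ P := by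
      intro u hu huW
      have huΦ : u ∉ Φ := disjoint_left.1 hX'.1 hu
      obtain ⟨P, Q, h, hPQ⟩ := hsep u huW huΦ
      have h4 := near_four hl hin hy hX' hXm hu huW h
      rcases hPQ with hP | ⟨hP, hQ⟩
      · have h6 := near_O hl hd hmin hout hX' hu huW h h4 hP
        have h7 := hcon u hu huW P Q h hP
        omega
      · exact ⟨P, Q, h, near_N h5 hX' huW h h4 hP hQ⟩
    obtain ⟨u0, hu0⟩ := hX'.2.1
    obtain ⟨hu0X, hu0W⟩ := mem_inter.1 hu0
    obtain ⟨_, _, _, _, y, hyd, _⟩ := hN u0 hu0X hu0W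
    have huniq : ∀ v, v ∈ (X' ∪ bd (rev G) X') \ W → v = y := fun v hv =>
      card_le_one.1 hX'.2.2.2 v hv y hyd
    have hyn : ∀ u ∈ X', u ∈ W → ¬ G y u := by
      intro u hu huW hG
      obtain ⟨P, Q, h, _, y', hy'd, hy'P⟩ := hN u hu huW
      have := huniq y' hy'd
      subst this
      exact h.arc _ hy'P u h.hQ hG
    obtain ⟨hyU, hyW⟩ := mem_sdiff.1 hyd
    have hXW : ∀ v ∈ X', v ≠ y → v ∈ W := by
      intro v hv hvy
      by_contra hw
      exact hvy (huniq v (mem_sdiff.2 ⟨mem_union_left _ hv, hw⟩))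
    by_cases hyX : y ∈ X'
    · have hna : ∀ a ∈ X', ¬ (rev G) a y := by
        intro a ha hG
        by_cases hay : a = y
        · subst hay; exact hl _ hG
        · exact hyn a ha (hXW a ha hay) hG
      have hbs := bd_erase_sub (G := rev G) hna
      have hnear : NearIn G W Φ (X'.erase y) := by
        refine ⟨disjoint_of_subset_left (erase_subset _ _) hX'.1, ⟨u0, mem_inter.2
          ⟨mem_erase.2 ⟨?_, hu0X⟩, hu0W⟩⟩, le_trans (card_le_card hbs) hX'.2.2.1, ?_⟩
        · rintro rfl; exact hyW hu0W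
        · refine le_trans (card_le_card ?_) hX'.2.2.2
          intro v hv
          simp only [mem_sdiff, mem_union] at hv ⊢
          refine ⟨?_, hv.2⟩
          rcases hv.1 with h1 | h1
          · exact Or.inl (mem_of_mem_erase h1)
          · exact Or.inr (hbs h1)
      have h6 := hXm _ hnear
      have h7 := card_erase_lt_of_mem hyX
      omega
    · rcases mem_union.1 hyU with h | h
      · exact hyX h
      · obtain ⟨_, a, ha, hG⟩ := mem_bd.1 h
        have hay : a ≠ y := by rintro rfl; exact hyX ha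
        exact hyn a ha (hXW a ha hay) hG
  -- existence of a small out-set, and comparison
  have S0 : ∃ P, SmallOut G W P ∧ P ≠ W := by
    by_cases hex : ∃ X', NearIn G W Φ X'
    · obtain ⟨X', hX', hXm⟩ := exists_min_card _ hex
      obtain ⟨u, hu, huW, P, Q, h, hP, _⟩ := S1 X' hX' hXm
      obtain ⟨h1, h3⟩ := three_le_T hl hd hmin hout h huW hP
      exact ⟨P, ⟨⟨u, h.hP⟩, hP, le_trans (card_le_card (bd_sub_of_noarc h.arc)) h.card⟩,
        h1.ne⟩
    · obtain ⟨u, hu⟩ := hne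
      obtain ⟨huW, huΦ⟩ := mem_sdiff.1 hu
      obtain ⟨P, Q, h, hPQ⟩ := hsep u huW huΦ
      rcases hPQ with hP | ⟨hP, hQ⟩
      · obtain ⟨h1, h3⟩ := three_le_T hl hd hmin hout h huW hP
        exact ⟨P, ⟨⟨u, h.hP⟩, hP, le_trans (card_le_card (bd_sub_of_noarc h.arc)) h.card⟩,
          h1.ne⟩
      · exact absurd ⟨Q, nearIn_of_N h huW hP hQ⟩ hex
  obtain ⟨X, hX, hXm⟩ := exists_min_card (SmallOut G W) ⟨S0.choose, S0.choose_spec.1⟩
  have hlt : ∀ Z, NearIn G W Φ Z → X.card + 1 ≤ Z.card := by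
    intro Z hZ
    obtain ⟨X', hX', hXm'⟩ := exists_min_card (NearIn G W Φ) ⟨Z, hZ⟩
    obtain ⟨u, hu, huW, P, Q, h, hP, h6⟩ := S1 X' hX' hXm'
    have h7 := hXm P ⟨⟨u, h.hP⟩, hP, le_trans (card_le_card (bd_sub_of_noarc h.arc)) h.card⟩
    have h8 := hXm' Z hZ
    omega
  have hXne : X ≠ W := by
    obtain ⟨P, hP, hPW⟩ := S0
    have h1 := hXm P hP
    rintro rfl
    exact hPW (eq_of_subset_of_card_le hP.2.1 h1)
  have hXss : X ⊂ W := hX.2.1.ssubset_of_ne hXne
  have hsrc : ∀ Z, SmallOut G W Z → (∀ Z', SmallOut G W Z' → Z' ⊆ Z → Z.card ≤ Z'.card) →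
      ∀ u ∈ Z, ¬ (∀ a ∈ Z, ¬ G a u) := by
    intro Z hZ hZm u hu hna
    have h1 := hZm _ (smallOut_erase hl hout hZ hu hna) (erase_subset _ _)
    have h3 := card_erase_lt_of_mem hu
    omega
  have hfour : ∀ Z, SmallOut G W Z → (∀ Z', SmallOut G W Z' → Z' ⊆ Z → Z.card ≤ Z'.card) →
      ∀ u ∈ Z, ∀ P Q, Sep G u P Q → 4 ≤ (bd G (P ∩ Z)).card := by
    intro Z hZ hZm u hu P Q h
    by_contra hcon
    have h1 : SmallOut G W (P ∩ Z) :=
      ⟨⟨u, mem_inter.2 ⟨h.hP, hu⟩⟩, inter_subset_right.trans hZ.2.1, by omega⟩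
    have h3 := hZm _ h1 inter_subset_right
    have h4 : P ∩ Z = Z := eq_of_subset_of_card_le inter_subset_right h3
    apply hsrc Z hZ hZm u hu
    intro a ha hG
    rw [← h4] at ha
    exact h.arc a (mem_inter.1 ha).1 u h.hQ hG
  -- step (2)
  have S2 : ∀ u ∈ X, u ∉ Φ → ∀ y ∈ W, y ∉ X → ¬ G y u := by
    intro u hu huΦ y hyW hyX hG
    have huW := hX.2.1 hu
    obtain ⟨P, Q, h, hPQ⟩ := hsep u huW huΦ
    have h4 := hfour X hX (fun Z' h _ => hXm Z' h) u hu P Q h
    rcases hPQ with hP | ⟨hP, hQ⟩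
    · have h6 := key_O hmin hX.2.1 hX.2.2 h h4 hP
      have hyP : y ∈ P := by
        rw [← h6] at hyW
        rcases mem_union.1 hyW with h7 | h7
        · exact h7
        · exact absurd h7 hyX
      exact h.arc y hyP u h.hQ hG
    · have h6 := key_N hl h2 hout hy h5 hX.2.2 hu huW h h4 hP hQ
      have h7 := hlt Q (nearIn_of_N h huW hP hQ)
      omega
  have hYne : (W \ X).Nonempty := by
    obtain ⟨y, hy1, hy2⟩ := exists_of_ssubset hXss
    exact ⟨y, mem_sdiff.2 ⟨hy1, hy2⟩⟩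
  have hYss : W \ X ⊂ W := by
    obtain ⟨x, hx⟩ := hX.1
    refine sdiff_subset.ssubset_of_ne ?_
    intro he
    have := hX.2.1 hx
    rw [← he] at this
    exact (mem_sdiff.1 this).2 hx
  have hmeet : (X ∩ Φ).Nonempty := by
    by_contra hcon
    rw [not_nonempty_iff_eq_empty] at hcon
    have hb : bd G (W \ X) ⊆ bd G W := by
      intro v hv
      obtain ⟨h1, a, ha, hG⟩ := mem_bd.1 hv
      obtain ⟨haW, haX⟩ := mem_sdiff.1 ha
      refine mem_bd.2 ⟨?_, a, haW, hG⟩
      intro hvW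
      have hvX : v ∈ X := by
        by_contra hvX
        exact h1 (mem_sdiff.2 ⟨hvW, hvX⟩)
      have hvΦ : v ∉ Φ := by
        intro hvΦ
        have : v ∈ X ∩ Φ := mem_inter.2 ⟨hvX, hvΦ⟩
        rw [hcon] at this
        exact absurd this (notMem_empty _)
      exact S2 v hvX hvΦ a haW haX hG
    have h1 := hmin _ hYss hYne
    have h3 := card_le_card hb
    omega
  obtain ⟨s, hs⟩ := hmeet
  obtain ⟨hsX, hsΦ⟩ := mem_inter.1 hs
  have hsW : s ∈ W := hX.2.1 hsX
  have hWΦ1 : (W ∩ Φ).card = 1 := by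
    have : 1 ≤ (W ∩ Φ).card := card_pos.2 ⟨s, mem_inter.2 ⟨hsW, hsΦ⟩⟩
    omega
  have hsuniq : ∀ v ∈ W, v ∈ Φ → v = s := by
    intro v hv hvΦ
    exact card_le_one.1 hΦ v (mem_inter.2 ⟨hv, hvΦ⟩) s (mem_inter.2 ⟨hsW, hsΦ⟩)
  have hY : SmallOut G W (W \ X) := by
    refine ⟨hYne, sdiff_subset, ?_⟩
    have hb : bd G (W \ X) ⊆ insert s (bd G W) := by
      intro v hv
      obtain ⟨h1, a, ha, hG⟩ := mem_bd.1 hv
      obtain ⟨haW, haX⟩ := mem_sdiff.1 ha
      rw [mem_insert]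
      by_cases hvW : v ∈ W
      · left
        have hvX : v ∈ X := by
          by_contra hvX
          exact h1 (mem_sdiff.2 ⟨hvW, hvX⟩)
        apply hsuniq v hvW
        by_contra hvΦ
        exact S2 v hvX hvΦ a haW haX hG
      · right
        exact mem_bd.2 ⟨hvW, a, haW, hG⟩
    have h1 := card_le_card hb
    have h3 := card_insert_le s (bd G W)
    omega
  have hsY : s ∉ W \ X := fun h => (mem_sdiff.1 h).2 hsX
  -- step (3)
  obtain ⟨X2, ⟨hX2, hsX2⟩, hX2m⟩ := exists_min_card (fun Z => SmallOut G W Z ∧ s ∉ Z)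
    ⟨W \ X, hY, hsY⟩
  have hX2Y : X2.card ≤ (W \ X).card := hX2m _ ⟨hY, hsY⟩
  have hX2m' : ∀ Z', SmallOut G W Z' → Z' ⊆ X2 → X2.card ≤ Z'.card := by
    intro Z' h1 h3
    exact hX2m Z' ⟨h1, fun h => hsX2 (h3 h)⟩
  have hX2Φ : ∀ w ∈ X2, w ∉ Φ := by
    intro w hw hwΦ
    have := hsuniq w (hX2.2.1 hw) hwΦ
    subst this
    exact hsX2 hw
  have S3 : ∃ Z, NearIn G W Φ Z ∧ Z.card ≤ X2.card := by
    by_contra hcon
    push Not at hcon
    have hno : ∀ w ∈ X2, ∀ y ∈ W, y ∉ X2 → ¬ G y w := by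
      intro w hw y hyW hyX hG
      have hwW := hX2.2.1 hw
      obtain ⟨P, Q, h, hPQ⟩ := hsep w hwW (hX2Φ w hw)
      have h4 := hfour X2 hX2 hX2m' w hw P Q h
      rcases hPQ with hP | ⟨hP, hQ⟩
      · have h6 := key_O hmin hX2.2.1 hX2.2.2 h h4 hP
        have hyP : y ∈ P := by
          rw [← h6] at hyW
          rcases mem_union.1 hyW with h7 | h7
          · exact h7
          · exact absurd h7 hyX
        exact h.arc y hyP w h.hQ hG
      · have h6 := key_N hl h2 hout hy h5 hX2.2.2 hw hwW h h4 hP hQ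
        have h7 := hcon Q (nearIn_of_N h hwW hP hQ)
        omega
    have hb : bd G (W \ X2) ⊆ bd G W := by
      intro v hv
      obtain ⟨h1, a, ha, hG⟩ := mem_bd.1 hv
      obtain ⟨haW, haX⟩ := mem_sdiff.1 ha
      refine mem_bd.2 ⟨?_, a, haW, hG⟩
      intro hvW
      have hvX : v ∈ X2 := by
        by_contra hvX
        exact h1 (mem_sdiff.2 ⟨hvW, hvX⟩)
      exact hno v hvX a haW haX hG
    have hss : W \ X2 ⊂ W := by
      obtain ⟨x, hx⟩ := hX2.1
      refine sdiff_subset.ssubset_of_ne ?_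
      intro he
      have := hX2.2.1 hx
      rw [← he] at this
      exact (mem_sdiff.1 this).2 hx
    have h1 := hmin _ hss ⟨s, mem_sdiff.2 ⟨hsW, hsX2⟩⟩
    have h3 := card_le_card hb
    omega
  obtain ⟨Z0, hZ0, hZ0c⟩ := S3
  obtain ⟨X', hX', hXm'⟩ := exists_min_card (NearIn G W Φ) ⟨Z0, hZ0⟩
  have hX'c : X'.card ≤ X2.card := le_trans (hXm' _ hZ0) hZ0c
  -- step (4)
  have S4 : ∀ u ∈ X', u ∈ W → ∃ P Q, Sep G u P Q ∧ ((Q ∪ X')ᶜ).card ≤ 2 ∧
      X ⊆ P.erase u := by
    intro u hu huW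
    have huΦ : u ∉ Φ := disjoint_left.1 hX'.1 hu
    obtain ⟨P, Q, h, hPQ⟩ := hsep u huW huΦ
    have h4 := near_four hl hin hy hX' hXm' hu huW h
    rcases hPQ with hP | ⟨hP, hQ⟩
    · obtain ⟨h6, h7⟩ := near_O hl hd hmin hout hX' hu huW h h4 hP
      have hPs : SmallOut G W P :=
        ⟨⟨u, h.hP⟩, hP, le_trans (card_le_card (bd_sub_of_noarc h.arc)) h.card⟩
      have hsP : s ∈ P := by
        by_contra hsP
        have := hX2m P ⟨hPs, hsP⟩
        omega
      have hXP : X ⊆ P := by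
        by_contra hXP
        have hss : P ∩ X ⊂ X := by
          refine inter_subset_right.ssubset_of_ne ?_
          intro he
          apply hXP
          intro v hv
          rw [← he] at hv
          exact (mem_inter.1 hv).1
        have h8 : 4 ≤ (bd G (P ∩ X)).card := by
          by_contra hcon
          have h9 := hXm (P ∩ X) ⟨⟨s, mem_inter.2 ⟨hsP, hsX⟩⟩,
            inter_subset_right.trans hX.2.1, by omega⟩
          have h10 := card_lt_card hss
          omega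
        have h9 := submod G P X
        have h10 : (bd G (P ∪ X)).card ≤ 2 := by
          have := hPs.2.2
          have := hX.2.2
          omega
        have h11 : P ∪ X = W := by
          by_contra hne'
          have h12 : P ∪ X ⊂ W := (union_subset hP hX.2.1).ssubset_of_ne hne'
          have h13 := hmin _ h12 ⟨u, mem_union_left _ h.hP⟩
          omega
        have h12 : insert s (W \ X) ⊆ P := by
          intro v hv
          rw [mem_insert] at hv
          rcases hv with rfl | hv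
          · exact hsP
          · obtain ⟨hv1, hv2⟩ := mem_sdiff.1 hv
            rw [← h11] at hv1
            rcases mem_union.1 hv1 with h13 | h13
            · exact h13
            · exact absurd h13 hv2
        have h13 := card_le_card h12
        rw [card_insert_of_notMem hsY] at h13
        omega
      refine ⟨P, Q, h, h6, ?_⟩
      intro v hv
      refine mem_erase.2 ⟨?_, hXP hv⟩
      rintro rfl
      exact hsrc X hX (fun Z' h _ => hXm Z' h) v hv
        (fun a ha hG => h.arc a (hXP ha) v h.hQ hG)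
    · have := (near_N h5 hX' huW h h4 hP hQ).1
      omega
  have hdisj : ∀ v ∈ X, v ∉ X' := by
    intro v hv hvX'
    obtain ⟨P, Q, h, _, h6⟩ := S4 v hvX' (hX.2.1 hv)
    exact (mem_erase.1 (h6 hv)).1 rfl
  obtain ⟨u, hu⟩ := hX'.2.1
  obtain ⟨huX, huW⟩ := mem_inter.1 hu
  obtain ⟨P, Q, h, h6, h7⟩ := S4 u huX huW
  have h8 : X ∪ (bd G X \ X') ⊆ (Q ∪ X')ᶜ := by
    intro v hv
    rw [mem_compl, mem_union, not_or]
    rcases mem_union.1 hv with hv | hv
    · obtain ⟨h9, h10⟩ := mem_erase.1 (h7 hv)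
      exact ⟨fun hq => h9 (h.inter v h10 hq), hdisj v hv⟩
    · obtain ⟨h9, h10⟩ := mem_sdiff.1 hv
      obtain ⟨_, a, ha, hG⟩ := mem_bd.1 h9
      exact ⟨fun hq => h.arc a (mem_of_mem_erase (h7 ha)) v hq hG, h10⟩
  have h9 : Disjoint X (bd G X \ X') := by
    rw [disjoint_left]
    intro v hv hv2
    exact (mem_bd.1 (mem_sdiff.1 hv2).1).1 hv
  have h10 := card_le_card h8
  rw [card_union_of_disjoint h9] at h10
  have h11 : 1 ≤ X.card := card_pos.2 hX.1
  have h12 := hmin X hXss hX.1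
  have h13 : (bd G X \ X').card + (bd G X ∩ X').card = (bd G X).card := by
    rw [add_comm]; exact card_inter_add_card_sdiff _ _
  have h14 : ∃ p ∈ bd G X ∩ X', p ∈ W := by
    by_contra hcon
    push Not at hcon
    have h15 : bd G X ∩ X' ⊆ (X' ∪ bd (rev G) X') \ W := by
      intro v hv
      exact mem_sdiff.2 ⟨mem_union_left _ (mem_inter.1 hv).2, hcon v hv⟩
    have h16 := card_le_card h15
    have h17 := hX'.2.2.2
    omega
  obtain ⟨p, hp, hpW⟩ := h14
  obtain ⟨hp1, hp2⟩ := mem_inter.1 hp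
  obtain ⟨P', Q', h', _, h7'⟩ := S4 p hp2 hpW
  obtain ⟨_, a, ha, hG⟩ := mem_bd.1 hp1
  exact h'.arc a (mem_of_mem_erase (h7' ha)) p h'.hQ hG

end Pool.Agent.Helper901.Sey
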