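import Pool.Agent.Helper901.Sey.Reduce

set_option autoImplicit false
set_option linter.unusedSectionVars false

open Finset

namespace Pool.Agent.Helper901.Sey

variable {V : Type} [Fintype V] [DecidableEq V]

/-- the main step for `k = 2` -/
theorem two_aux (G : V → V → Prop) (hreg : ∀ v, 2 ≤ (nb G v).card)
    (C X : Finset V) (hCout : ∀ A, A ⊆ C → A.Nonempty → A ≠ C → (bd G A).Nonempty)
    (hC : bd G C = ∅)
    (hbad : ∀ v ∈ C, ∃ P Q : Finset V, v ∈ P ∧ v ∈ Q ∧ P ∩ Q = {v} ∧
      (∀ p ∈ P, ∀ q ∈ Q, ¬ G p q) ∧ ((P ∪ Q)ᶜ).card ≤ 1)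
    (hbadQ : ∀ v ∈ C, 2 ≤ (nb (rev G) v).card) (hC' : bd (rev G) C = ∅)
    (hXC : X ⊆ C) (hXne : X.Nonempty) (hX1 : (bd G X).card ≤ 1) (hX2 : X.card + 2 ≤ C.card)
    (hmin : ∀ Y, Y ⊆ C → Y.Nonempty → Y.card < X.card → 2 ≤ (bd G Y).card ∧
      2 ≤ (bd (rev G) Y).card) : False := by
  have key : ∀ v ∈ X, ∀ u ∈ X, ¬ G u v := by
    intro v hv
    obtain ⟨P, Q, hP, hQ, hPQ, harc, hcard⟩ := hbad v (hXC hv)
    have hXP : X ⊆ P := by
      by_contra hXP
      have h1 : (P ∩ C ∩ X).card < X.card := by
        apply card_lt_card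
        rw [ssubset_iff_subset_ne]
        refine ⟨inter_subset_right, fun h => hXP ?_⟩
        intro x hx
        rw [← h] at hx
        exact (mem_inter.1 (mem_inter.1 hx).1).1
      have h2 := hmin (P ∩ C ∩ X) (inter_subset_right.trans hXC)
        ⟨v, by simp [hP, hv, hXC hv]⟩ h1
      have h3 : (bd G (P ∩ C)).card ≤ 1 := by
        refine le_trans (card_le_card ?_) hcard
        intro x hx
        obtain ⟨hx1, a, ha, hG⟩ := mem_bd.1 hx
        have haC := (mem_inter.1 ha).2
        have haP := (mem_inter.1 ha).1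
        have hxC : x ∈ C := by
          by_contra hxC
          have : x ∈ bd G C := mem_bd.2 ⟨hxC, a, haC, hG⟩
          rw [hC] at this
          exact absurd this (notMem_empty _)
        rw [mem_compl, mem_union]
        push Not
        exact ⟨fun h => hx1 (mem_inter.2 ⟨h, hxC⟩), fun h => harc a haP x h hG⟩
      have h4 := submod G (P ∩ C) X
      have h5 : bd G (P ∩ C ∪ X) = ∅ := by
        rw [← card_eq_zero]; omega
      have h6 : P ∩ C ∪ X = C := by
        by_contra hne
        have := hCout (P ∩ C ∪ X) (union_subset inter_subset_right hXC)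
          ⟨v, by simp [hv]⟩ hne
        rw [h5] at this
        exact absurd this (by simp)
      -- Q - v
      have h7 : (Q ∩ C).erase v ⊆ X.erase v := by
        intro q hq
        rw [mem_erase, mem_inter] at hq
        rw [mem_erase]
        refine ⟨hq.1, ?_⟩
        have : q ∈ P ∩ C ∪ X := by rw [h6]; exact hq.2.2
        rcases mem_union.1 this with h | h
        · exfalso
          have : q ∈ P ∩ Q := mem_inter.2 ⟨(mem_inter.1 h).1, hq.2.1⟩
          rw [hPQ, mem_singleton] at this
          exact hq.1 this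
        · exact h
      have h8 : ((Q ∩ C).erase v).card < X.card :=
        lt_of_le_of_lt (card_le_card h7) (card_erase_lt_of_mem hv)
      have h9 : (bd (rev G) ((Q ∩ C).erase v)).card ≤ 1 := by
        refine le_trans (card_le_card ?_) hcard
        intro x hx
        obtain ⟨hx1, a, ha, hG⟩ := mem_bd.1 hx
        rw [mem_erase, mem_inter] at ha
        have hxP : x ∉ P := fun h => harc x h a ha.2.1 hG
        have hxC : x ∈ C := by
          by_contra hxC
          have : x ∈ bd (rev G) C := mem_bd.2 ⟨hxC, a, ha.2.2, hG⟩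
          rw [hC'] at this
          exact absurd this (notMem_empty _)
        rw [mem_compl, mem_union]
        push Not
        refine ⟨hxP, fun h => hx1 ?_⟩
        rw [mem_erase, mem_inter]
        exact ⟨fun e => hxP (e ▸ hP), h, hxC⟩
      have h10 : ((Q ∩ C).erase v).Nonempty := by
        by_contra hemp
        rw [not_nonempty_iff_eq_empty] at hemp
        have : nb (rev G) v ⊆ (P ∪ Q)ᶜ := by
          intro x hx
          rw [mem_nb] at hx
          have hxP : x ∉ P := fun h => harc x h v hQ hx
          have hxC : x ∈ C := by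
            by_contra hxC
            have : x ∈ bd (rev G) C := mem_bd.2 ⟨hxC, v, hXC hv, hx⟩
            rw [hC'] at this
            exact absurd this (notMem_empty _)
          rw [mem_compl, mem_union]
          push Not
          refine ⟨hxP, fun h => ?_⟩
          have : x ∈ (Q ∩ C).erase v := by
            rw [mem_erase, mem_inter]
            exact ⟨fun e => hxP (e ▸ hP), h, hxC⟩
          rw [hemp] at this
          exact absurd this (notMem_empty _)
        have := card_le_card this
        have := hbadQ v (hXC hv)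
        omega
      have h11 := (hmin ((Q ∩ C).erase v)
        ((erase_subset _ _).trans inter_subset_right) h10 h8).2
      omega
    intro u hu
    exact harc u (hXP hu) v hQ
  obtain ⟨v, hv⟩ := hXne
  have h1 : nb G v ⊆ bd G X := by
    intro x hx
    rw [mem_nb] at hx
    exact mem_bd.2 ⟨fun h => key x h v hv hx, v, hv, hx⟩
  have := card_le_card h1
  have := hreg v
  omega

/-- no `2`-regular digraph is bad everywhere -/
theorem two_main (G : V → V → Prop) [Nonempty V] (hl : ∀ v, ¬ G v v)
    (hreg : ∀ v, (nb G v).card = 2 ∧ (nb (rev G) v).card = 2)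
    (hbad : ∀ v, ∃ P Q : Finset V, v ∈ P ∧ v ∈ Q ∧ P ∩ Q = {v} ∧
      (∀ p ∈ P, ∀ q ∈ Q, ¬ G p q) ∧ ((P ∪ Q)ᶜ).card ≤ 1) : False := by
  classical
  have hreg' : ∀ v, (nb (rev G) v).card = 2 ∧ (nb (rev (rev G)) v).card = 2 :=
    fun v => ⟨(hreg v).2, (hreg v).1⟩
  -- a minimal closed set
  obtain ⟨C, hC, hCmin⟩ := exists_min_image
    (univ.filter fun A : Finset V => A.Nonempty ∧ bd G A = ∅) card
    ⟨univ, by
      rw [mem_filter]
      refine ⟨mem_univ _, univ_nonempty, ?_⟩
      rw [eq_empty_iff_forall_notMem]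
      intro x hx
      exact (mem_bd.1 hx).1 (mem_univ x)⟩
  rw [mem_filter] at hC
  obtain ⟨-, hCne, hCbd⟩ := hC
  have hCbd' : bd (rev G) C = ∅ := Red.closed_of_rev (rev G) 2 hreg' C hCbd
  have hCout : ∀ A, A ⊆ C → A.Nonempty → A ≠ C → (bd G A).Nonempty := by
    intro A hA hne hAC
    rw [nonempty_iff_ne_empty]
    intro h
    have h1 := hCmin A (mem_filter.2 ⟨mem_univ _, hne, h⟩)
    exact hAC (eq_of_subset_of_card_le hA h1)
  have hCin : ∀ A, A ⊆ C → A.Nonempty → A ≠ C → (bd (rev G) A).Nonempty := by
    intro A hA hne hAC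
    rw [nonempty_iff_ne_empty]
    intro h
    have := hCout A hA hne hAC
    rw [Red.closed_of_rev G 2 hreg A h] at this
    exact absurd this (by simp)
  -- the family
  let fam : Finset (Finset V) := univ.filter fun X => X ⊆ C ∧ X.Nonempty ∧ X.card + 2 ≤ C.card ∧
    ((bd G X).card ≤ 1 ∨ (bd (rev G) X).card ≤ 1)
  have hfam : fam.Nonempty := by
    obtain ⟨v, hv⟩ := hCne
    obtain ⟨P, Q, hP, hQ, hPQ, harc, hcard⟩ := hbad v
    have hA : ((P ∩ C).erase v).Nonempty := by
      by_contra hemp
      rw [not_nonempty_iff_eq_empty] at hemp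
      have : nb G v ⊆ (P ∪ Q)ᶜ := by
        intro x hx
        rw [mem_nb] at hx
        have hxQ : x ∉ Q := fun h => harc v hP x h hx
        have hxC : x ∈ C := by
          by_contra hxC
          have : x ∈ bd G C := mem_bd.2 ⟨hxC, v, hv, hx⟩
          rw [hCbd] at this
          exact absurd this (notMem_empty _)
        rw [mem_compl, mem_union]
        push Not
        refine ⟨fun h => ?_, hxQ⟩
        have : x ∈ (P ∩ C).erase v := by
          rw [mem_erase, mem_inter]
          exact ⟨fun e => hxQ (e ▸ hQ), h, hxC⟩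
        rw [hemp] at this
        exact absurd this (notMem_empty _)
      have := card_le_card this
      have := (hreg v).1
      omega
    have hB : ((Q ∩ C).erase v).Nonempty := by
      by_contra hemp
      rw [not_nonempty_iff_eq_empty] at hemp
      have : nb (rev G) v ⊆ (P ∪ Q)ᶜ := by
        intro x hx
        rw [mem_nb] at hx
        have hxP : x ∉ P := fun h => harc x h v hQ hx
        have hxC : x ∈ C := by
          by_contra hxC
          have : x ∈ bd (rev G) C := mem_bd.2 ⟨hxC, v, hv, hx⟩
          rw [hCbd'] at this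
          exact absurd this (notMem_empty _)
        rw [mem_compl, mem_union]
        push Not
        refine ⟨hxP, fun h => ?_⟩
        have : x ∈ (Q ∩ C).erase v := by
          rw [mem_erase, mem_inter]
          exact ⟨fun e => hxP (e ▸ hP), h, hxC⟩
        rw [hemp] at this
        exact absurd this (notMem_empty _)
      have := card_le_card this
      have := (hreg v).2
      omega
    have hdis : Disjoint ((P ∩ C).erase v) (((Q ∩ C).erase v) ∪ {v}) := by
      rw [disjoint_left]
      intro x hx hx'
      rw [mem_erase, mem_inter] at hx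
      rw [mem_union, mem_erase, mem_inter, mem_singleton] at hx'
      rcases hx' with h | h
      · have : x ∈ P ∩ Q := mem_inter.2 ⟨hx.2.1, h.2.1⟩
        rw [hPQ, mem_singleton] at this
        exact hx.1 this
      · exact hx.1 h
    have hsub : ((P ∩ C).erase v) ∪ (((Q ∩ C).erase v) ∪ {v}) ⊆ C := by
      intro x hx
      simp only [mem_union, mem_erase, mem_inter, mem_singleton] at hx
      rcases hx with h | h | h
      · exact h.2.2
      · exact h.2.2
      · rw [h]; exact hv
    have hc1 := card_le_card hsub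
    rw [card_union_of_disjoint hdis, card_union_of_disjoint (by simp), card_singleton] at hc1
    have hc2 := card_pos.2 hB
    refine ⟨(P ∩ C).erase v, mem_filter.2 ⟨mem_univ _, (erase_subset _ _).trans inter_subset_right,
      hA, by omega, Or.inl ?_⟩⟩
    refine le_trans (card_le_card ?_) hcard
    intro x hx
    obtain ⟨hx1, a, ha, hG⟩ := mem_bd.1 hx
    rw [mem_erase, mem_inter] at ha
    have hxQ : x ∉ Q := fun h => harc a ha.2.1 x h hG
    have hxC : x ∈ C := by
      by_contra hxC
      have : x ∈ bd G C := mem_bd.2 ⟨hxC, a, ha.2.2, hG⟩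
      rw [hCbd] at this
      exact absurd this (notMem_empty _)
    rw [mem_compl, mem_union]
    push Not
    refine ⟨fun h => hx1 ?_, hxQ⟩
    rw [mem_erase, mem_inter]
    exact ⟨fun e => hxQ (e ▸ hQ), h, hxC⟩
  obtain ⟨X, hX, hXmin⟩ := exists_min_image fam card hfam
  obtain ⟨-, hXC, hXne, hX2, hX1⟩ := mem_filter.1 hX
  have hmin : ∀ Y, Y ⊆ C → Y.Nonempty → Y.card < X.card → 2 ≤ (bd G Y).card ∧
      2 ≤ (bd (rev G) Y).card := by
    intro Y hYC hYne hYX
    by_contra hcon
    have : Y ∈ fam := mem_filter.2 ⟨mem_univ _, hYC, hYne, by omega, by omega⟩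
    have := hXmin Y this
    omega
  rcases hX1 with hX1 | hX1
  · exact two_aux G (fun v => (hreg v).1.ge) C X hCout hCbd (fun v _ => hbad v)
      (fun v _ => (hreg v).2.ge) hCbd' hXC hXne hX1 hX2 hmin
  · refine two_aux (rev G) (fun v => (hreg v).2.ge) C X hCin hCbd' (fun v _ => ?_)
      (fun v _ => (hreg v).1.ge) hCbd hXC hXne hX1 hX2
      (fun Y h1 h2 h3 => ⟨(hmin Y h1 h2 h3).2, (hmin Y h1 h2 h3).1⟩)
    obtain ⟨P, Q, hP, hQ, hPQ, harc, hcard⟩ := hbad v
    exact ⟨Q, P, hQ, hP, by rw [inter_comm]; exact hPQ, fun p hp q hq hG => harc q hq p hp hG,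
      by rw [union_comm]; exact hcard⟩

end Pool.Agent.Helper901.Sey
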